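import Pool.Agent.H998_BC.Terras

/-! The average of `(n / φ(n))^2` over the remainders `cc t r`. -/

set_option autoImplicit false

namespace Pool.Agent.H998_BC

open Finset

theorem Ta_add (t s r : ℕ) : ∃ s' : ℕ, Ta (2 ^ (t + 1) * s + r) = 2 ^ t * s' + Ta r ∧
    (2 ^ (t + 1) * s + r) % 2 = r % 2 := by
  have e0 : 2 ^ (t + 1) * s = 2 * (2 ^ t * s) := by rw [pow_succ]; ring
  by_cases h : r % 2 = 0
  · have h1 : (2 ^ (t + 1) * s + r) % 2 = 0 := by rw [e0]; omega
    refine ⟨s, ?_, by omega⟩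
    have a1 := Ta_even h1
    have a2 := Ta_even h
    omega
  · have h1 : (2 ^ (t + 1) * s + r) % 2 ≠ 0 := by rw [e0]; omega
    refine ⟨3 * s, ?_, by omega⟩
    have a1 := Ta_odd h1
    have a2 := Ta_odd h
    have h3 : 2 ^ t * (3 * s) = 3 * (2 ^ t * s) := by ring
    omega

theorem kap_per : ∀ t s r : ℕ, kap t (2 ^ t * s + r) = kap t r
  | 0, _, _ => rfl
  | t + 1, s, r => by
    obtain ⟨s', h1, h2⟩ := Ta_add t s r
    rw [kap, kap, h1, h2, kap_per t]

theorem cc_per : ∀ t s r : ℕ, cc t (2 ^ t * s + r) = cc t r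
  | 0, _, _ => rfl
  | t + 1, s, r => by
    obtain ⟨s', h1, h2⟩ := Ta_add t s r
    rw [cc, cc, h1, h2, cc_per t, kap_per t]

theorem kap_mod (t r : ℕ) : kap t (r % 2 ^ t) = kap t r := by
  conv_rhs => rw [← Nat.div_add_mod r (2 ^ t)]
  rw [kap_per]

theorem cc_mod (t r : ℕ) : cc t (r % 2 ^ t) = cc t r := by
  conv_rhs => rw [← Nat.div_add_mod r (2 ^ t)]
  rw [cc_per]

theorem kap_comp (s : ℕ) : ∀ m r : ℕ, kap (m + s) r = kap m r + kap s (Ta^[m] r)
  | 0, r => by simp [kap]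
  | m + 1, r => by
    rw [show m + 1 + s = (m + s) + 1 by ring, kap, kap_comp s m, Function.iterate_succ_apply, kap]
    ring

theorem cc_comp (s : ℕ) : ∀ m r : ℕ, cc (m + s) r = 2 ^ m * cc s (Ta^[m] r)
    + 3 ^ kap s (Ta^[m] r) * cc m r
  | 0, r => by simp [cc]
  | m + 1, r => by
    rw [show m + 1 + s = (m + s) + 1 by ring, cc, cc_comp s m, kap_comp, Function.iterate_succ_apply, cc]
    split_ifs
    · rw [pow_succ]; ring
    · rw [pow_succ, pow_add]; ring

theorem cc_three : ∀ t r : ℕ, (kap t r = 0 → cc t r = 0) ∧ (1 ≤ kap t r → ¬ 3 ∣ cc t r)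
  | 0, r => by simp [kap, cc]
  | t + 1, r => by
    obtain ⟨h1, h2⟩ := cc_three t (Ta r)
    rw [kap, cc]
    by_cases hr : r % 2 = 0
    · rw [hr, if_pos rfl]
      refine ⟨fun h => by rw [h1 (by omega)], fun h => ?_⟩
      have := h2 (by omega)
      omega
    · rw [if_neg hr]
      refine ⟨fun h => by omega, fun _ => ?_⟩
      rcases Nat.eq_zero_or_pos (kap t (Ta r)) with h0 | h0
      · rw [h0, h1 h0]; norm_num
      · have h3 := h2 h0
        obtain ⟨k, hk⟩ : ∃ k, kap t (Ta r) = k + 1 := ⟨kap t (Ta r) - 1, by omega⟩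
        rw [hk, pow_succ]
        omega

theorem kap_pos {t r : ℕ} (ht : 1 ≤ t) (hr : r % 2 = 1) : 1 ≤ kap t r := by
  obtain ⟨t', rfl⟩ : ∃ t', t = t' + 1 := ⟨t - 1, by omega⟩
  rw [kap]; omega

/-- the remainder and the number of odd terms determine the class -/
theorem cc_inj {m r r' : ℕ} (hr : r < 2 ^ m) (hr' : r' < 2 ^ m) (hk : kap m r = kap m r')
    (hc : cc m r = cc m r') : r = r' := by
  have h1 := cc_eq m r
  have h2 := cc_eq m r'
  rw [hk, hc] at h1
  have h3 : 3 ^ kap m r' * r ≡ 3 ^ kap m r' * r' [MOD 2 ^ m] := by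
    have e1 : 3 ^ kap m r' * r + cc m r' ≡ 3 ^ kap m r' * r' + cc m r' [MOD 2 ^ m] := by
      rw [← h1, ← h2]
      exact ((Nat.modEq_zero_iff_dvd.2 (dvd_mul_right _ _)).trans
        (Nat.modEq_zero_iff_dvd.2 (dvd_mul_right _ _)).symm)
    exact Nat.ModEq.add_right_cancel' _ e1
  have h4 : Nat.gcd (2 ^ m) (3 ^ kap m r') = 1 := Nat.Coprime.pow _ _ (by norm_num)
  have h5 := Nat.ModEq.cancel_left_of_coprime h4 h3
  exact Nat.ModEq.eq_of_lt_of_lt h5 hr hr'

/-- few remainders are divisible by `d` -/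
theorem count_dvd {m s d : ℕ} (hd : 3 ^ m ≤ d) (hd3 : Nat.Coprime d 3) :
    ((range (2 ^ (m + s))).filter (fun r => d ∣ cc (m + s) r)).card ≤ 2 ^ s * (m + 1) := by
  classical
  -- the pairs
  set W : Finset (ℕ × ℕ) := ((range (2 ^ s)) ×ˢ (range (2 ^ m))).filter
    (fun q => d ∣ 2 ^ m * cc s q.1 + 3 ^ kap s q.1 * cc m q.2) with hW
  have h1 : ((range (2 ^ (m + s))).filter (fun r => d ∣ cc (m + s) r)).card ≤ W.card := by
    apply card_le_card_of_injOn (fun r => (Ta^[m] r % 2 ^ s, r % 2 ^ m))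
    · intro r hr
      have hr' : r ∈ (range (2 ^ (m + s))).filter (fun r => d ∣ cc (m + s) r) := hr
      rw [mem_filter, cc_comp] at hr'
      rw [mem_coe, hW, mem_filter, mem_product, mem_range, mem_range]
      refine ⟨⟨Nat.mod_lt _ (by positivity), Nat.mod_lt _ (by positivity)⟩, ?_⟩
      show d ∣ 2 ^ m * cc s (Ta^[m] r % 2 ^ s) + 3 ^ kap s (Ta^[m] r % 2 ^ s) * cc m (r % 2 ^ m)
      rw [cc_mod, kap_mod, cc_mod]
      exact hr'.2
    · intro r hr r' hr' hrr
      have h2 : r < 2 ^ (m + s) := mem_range.1 (mem_filter.1 (mem_coe.1 hr)).1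
      have h3 : r' < 2 ^ (m + s) := mem_range.1 (mem_filter.1 (mem_coe.1 hr')).1
      simp only [Prod.mk.injEq] at hrr
      obtain ⟨e1, e2⟩ := hrr
      have f1 : Ta^[m] r = 3 ^ kap m (r % 2 ^ m) * (r / 2 ^ m) + Ta^[m] (r % 2 ^ m) := by
        rw [← terras, Nat.div_add_mod]
      have f2 : Ta^[m] r' = 3 ^ kap m (r' % 2 ^ m) * (r' / 2 ^ m) + Ta^[m] (r' % 2 ^ m) := by
        rw [← terras, Nat.div_add_mod]
      have e1' : Ta^[m] r ≡ Ta^[m] r' [MOD 2 ^ s] := e1
      rw [f1, f2, e2] at e1'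
      have e3 := Nat.ModEq.add_right_cancel' _ e1'
      have h4 : Nat.gcd (2 ^ s) (3 ^ kap m (r' % 2 ^ m)) = 1 := Nat.Coprime.pow _ _ (by norm_num)
      have e4 := Nat.ModEq.cancel_left_of_coprime h4 e3
      have l1 : r / 2 ^ m < 2 ^ s := by
        rw [Nat.div_lt_iff_lt_mul (by positivity), ← pow_add, add_comm s m]; exact h2
      have l2 : r' / 2 ^ m < 2 ^ s := by
        rw [Nat.div_lt_iff_lt_mul (by positivity), ← pow_add, add_comm s m]; exact h3
      have e5 := Nat.ModEq.eq_of_lt_of_lt e4 l1 l2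
      rw [← Nat.div_add_mod r (2 ^ m), ← Nat.div_add_mod r' (2 ^ m), e5, e2]
  refine h1.trans ?_
  have h2 : W ⊆ (range (2 ^ s)).biUnion (fun y => ((range (2 ^ m)).filter
      (fun r => d ∣ 2 ^ m * cc s y + 3 ^ kap s y * cc m r)).image (fun r => (y, r))) := by
    intro q hq
    rw [hW, mem_filter, mem_product] at hq
    rw [mem_biUnion]
    refine ⟨q.1, hq.1.1, ?_⟩
    rw [mem_image]
    exact ⟨q.2, mem_filter.2 ⟨hq.1.2, hq.2⟩, rfl⟩
  refine (card_le_card h2).trans (card_biUnion_le.trans ?_)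
  have h3 : ∀ y ∈ range (2 ^ s), (((range (2 ^ m)).filter
      (fun r => d ∣ 2 ^ m * cc s y + 3 ^ kap s y * cc m r)).image (fun r => (y, r))).card ≤ m + 1 := by
    intro y _
    refine card_image_le.trans ?_
    rw [← card_range (m + 1)]
    apply card_le_card_of_injOn (fun r => kap m r)
    · intro r _
      rw [mem_coe, mem_range]
      have := kap_le m r
      show kap m r < m + 1
      omega
    · intro r hr r' hr' hk
      have g1 := mem_filter.1 (mem_coe.1 hr)
      have g2 := mem_filter.1 (mem_coe.1 hr')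
      have hlt : ∀ x : ℕ, cc m x < d := by
        intro x
        have := cc_le m x
        have : 0 < 2 ^ m := by positivity
        omega
      have hmod : 3 ^ kap s y * cc m r ≡ 3 ^ kap s y * cc m r' [MOD d] := by
        have e1 : 2 ^ m * cc s y + 3 ^ kap s y * cc m r ≡ 2 ^ m * cc s y + 3 ^ kap s y * cc m r' [MOD d] :=
          (Nat.modEq_zero_iff_dvd.2 g1.2).trans (Nat.modEq_zero_iff_dvd.2 g2.2).symm
        exact Nat.ModEq.add_left_cancel' _ e1
      have h4 : Nat.gcd d (3 ^ kap s y) = 1 := Nat.Coprime.pow_right _ hd3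
      have e2 := Nat.ModEq.cancel_left_of_coprime h4 hmod
      have e3 := Nat.ModEq.eq_of_lt_of_lt e2 (hlt r) (hlt r')
      exact cc_inj (mem_range.1 g1.1) (mem_range.1 g2.1) hk e3
  refine (sum_le_sum h3).trans ?_
  rw [sum_const, card_range, smul_eq_mul]

theorem prod_two_three_five (S : Finset ℕ) (hS : S ⊆ {2, 3, 5}) :
    ∏ p ∈ S, ((p : ℝ) / (p - 1)) ^ 2 ≤ 15 := by
  have h1 : ∏ p ∈ S, ((p : ℝ) / (p - 1)) ^ 2 ≤ ∏ p ∈ ({2, 3, 5} : Finset ℕ), ((p : ℝ) / (p - 1)) ^ 2 := by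
    apply prod_le_prod_of_subset_of_one_le hS
    · intro p _; positivity
    · intro p hp _
      simp only [mem_insert, mem_singleton] at hp
      rcases hp with rfl | rfl | rfl <;> norm_num
  refine h1.trans ?_
  rw [prod_insert (by norm_num), prod_insert (by norm_num), prod_singleton]
  norm_num

/-- the square of `n / φ(n)` -/
theorem totsq (n : ℕ) (hn : 1 ≤ n) : ((n : ℝ) / Nat.totient n) ^ 2
    ≤ 15 * ∑ d ∈ n.divisors, 1 / Real.sqrt d := by
  classical
  have hn0 : (0 : ℝ) < n := by exact_mod_cast hn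
  have hp2 : ∀ p ∈ n.primeFactors, (2 : ℝ) ≤ p := fun p hp => by
    exact_mod_cast (Nat.prime_of_mem_primeFactors hp).two_le
  have h1 : (Nat.totient n : ℝ) = n * ∏ p ∈ n.primeFactors, (1 - (p : ℝ)⁻¹) := by
    have h0 := Nat.totient_eq_mul_prod_factors n
    have h00 : (((Nat.totient n : ℕ) : ℚ) : ℝ)
        = (((n : ℚ) * ∏ p ∈ n.primeFactors, (1 - (p : ℚ)⁻¹) : ℚ) : ℝ) := by rw [h0]
    push_cast at h00
    exact h00
  have hpos : ∀ p ∈ n.primeFactors, 0 < 1 - (p : ℝ)⁻¹ := by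
    intro p hp
    have := hp2 p hp
    rw [sub_pos, inv_lt_one₀ (by linarith)]
    linarith
  have hquot : ((n : ℝ) / Nat.totient n) ^ 2 = ∏ p ∈ n.primeFactors, ((p : ℝ) / (p - 1)) ^ 2 := by
    rw [prod_pow]
    congr 1
    have e1 : (n : ℝ) / Nat.totient n = (∏ p ∈ n.primeFactors, (1 - (p : ℝ)⁻¹))⁻¹ := by
      rw [h1]
      have : ∏ p ∈ n.primeFactors, (1 - (p : ℝ)⁻¹) ≠ 0 := (prod_pos hpos).ne'
      field_simp
    rw [e1, ← prod_inv_distrib]
    apply prod_congr rfl
    intro p hp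
    have := hp2 p hp
    have h4 : (p : ℝ) - 1 ≠ 0 := by linarith
    have h5 : (p : ℝ) ≠ 0 := by linarith
    rw [show 1 - (p : ℝ)⁻¹ = ((p : ℝ) - 1) / p by field_simp, inv_div]
  rw [hquot, ← prod_filter_mul_prod_filter_not n.primeFactors (fun p => p ≤ 5)]
  have e1 : ∏ p ∈ n.primeFactors.filter (fun p => p ≤ 5), ((p : ℝ) / (p - 1)) ^ 2 ≤ 15 := by
    apply prod_two_three_five
    intro p hp
    rw [mem_filter] at hp
    have hp' := Nat.prime_of_mem_primeFactors hp.1
    have h5 := hp.2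
    simp only [mem_insert, mem_singleton]
    interval_cases p
    · exact absurd hp' (by norm_num)
    · exact absurd hp' (by norm_num)
    · simp
    · simp
    · exact absurd hp' (by norm_num)
    · simp
  have e2 : ∏ p ∈ n.primeFactors.filter (fun p => ¬ p ≤ 5), ((p : ℝ) / (p - 1)) ^ 2
      ≤ ∏ p ∈ n.primeFactors.filter (fun p => ¬ p ≤ 5), (1 + 1 / Real.sqrt p) := by
    apply prod_le_prod
    · intro p _; positivity
    · intro p hp
      rw [mem_filter] at hp
      have hp' := Nat.prime_of_mem_primeFactors hp.1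
      have hp7 : 7 ≤ p := by
        have h6 : 6 ≤ p := by omega
        rcases Nat.lt_or_ge 6 p with h | h
        · omega
        · have : p = 6 := by omega
          rw [this] at hp'
          exact absurd hp' (by norm_num)
      have h7 : (7 : ℝ) ≤ p := by exact_mod_cast hp7
      set q := Real.sqrt p with hq
      have hqq : q * q = p := Real.mul_self_sqrt (by linarith)
      have hq26 : 2.64 ≤ q := Real.le_sqrt_of_sq_le (by norm_num; linarith)
      have hq0 : 0 < q := by linarith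
      rw [div_pow, div_le_iff₀ (by nlinarith)]
      rw [← hqq]
      have e3 : (1 + 1 / q) * (q * q - 1) ^ 2 = (q + 1) * (q * q - 1) ^ 2 / q := by
        field_simp
      rw [e3, le_div_iff₀ hq0]
      nlinarith [mul_pos hq0 hq0, mul_pos (mul_pos hq0 hq0) hq0,
        mul_nonneg (by linarith : (0 : ℝ) ≤ q - 2.64) (by positivity : (0 : ℝ) ≤ q ^ 3),
        mul_nonneg (by linarith : (0 : ℝ) ≤ q - 2.64) (by positivity : (0 : ℝ) ≤ q ^ 2),
        mul_nonneg (by linarith : (0 : ℝ) ≤ q - 2.64) (by positivity : (0 : ℝ) ≤ q ^ 4)]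
  have e3 : ∏ p ∈ n.primeFactors.filter (fun p => ¬ p ≤ 5), (1 + 1 / Real.sqrt p)
      ≤ ∏ p ∈ n.primeFactors, (1 + 1 / Real.sqrt p) := by
    apply prod_le_prod_of_subset_of_one_le (filter_subset _ _)
    · intro p _; positivity
    · intro p _ _
      have : 0 ≤ 1 / Real.sqrt p := by positivity
      linarith
  have e4 : ∏ p ∈ n.primeFactors, (1 + 1 / Real.sqrt p) ≤ ∑ d ∈ n.divisors, 1 / Real.sqrt d := by
    rw [prod_one_add]
    have hinj : Set.InjOn (fun T : Finset ℕ => ∏ p ∈ T, p) (n.primeFactors.powerset : Set (Finset ℕ)) := by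
      intro T hT T' hT' h
      have hT1 : ∀ p ∈ T, p.Prime := fun p hp =>
        Nat.prime_of_mem_primeFactors (mem_powerset.1 (mem_coe.1 hT) hp)
      have hT2 : ∀ p ∈ T', p.Prime := fun p hp =>
        Nat.prime_of_mem_primeFactors (mem_powerset.1 (mem_coe.1 hT') hp)
      have h' : ∏ p ∈ T, p = ∏ p ∈ T', p := h
      rw [← Nat.primeFactors_prod hT1, ← Nat.primeFactors_prod hT2, h']
    calc ∑ T ∈ n.primeFactors.powerset, ∏ p ∈ T, (1 / Real.sqrt p)
        = ∑ T ∈ n.primeFactors.powerset, 1 / Real.sqrt ((∏ p ∈ T, p : ℕ) : ℝ) := by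
          apply sum_congr rfl
          intro T _
          rw [prod_div_distrib, prod_const_one]
          congr 1
          push_cast
          rw [Real.sqrt_prod]
          intro p _; positivity
      _ = ∑ d ∈ n.primeFactors.powerset.image (fun T => ∏ p ∈ T, p), 1 / Real.sqrt (d : ℝ) := by
          rw [sum_image hinj]
      _ ≤ _ := by
          apply sum_le_sum_of_subset_of_nonneg
          · intro d hd
            rw [mem_image] at hd
            obtain ⟨T, hT, rfl⟩ := hd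
            rw [Nat.mem_divisors]
            refine ⟨?_, by omega⟩
            exact (prod_dvd_prod_of_subset _ _ _ (mem_powerset.1 hT)).trans (Nat.prod_primeFactors_dvd n)
          · intro d _ _; positivity
  have h0 : 0 ≤ ∏ p ∈ n.primeFactors.filter (fun p => ¬ p ≤ 5), ((p : ℝ) / (p - 1)) ^ 2 := by positivity
  calc (∏ p ∈ n.primeFactors.filter (fun p => p ≤ 5), ((p : ℝ) / (p - 1)) ^ 2)
      * ∏ p ∈ n.primeFactors.filter (fun p => ¬ p ≤ 5), ((p : ℝ) / (p - 1)) ^ 2
      ≤ 15 * ∏ p ∈ n.primeFactors.filter (fun p => ¬ p ≤ 5), ((p : ℝ) / (p - 1)) ^ 2 :=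
        mul_le_mul_of_nonneg_right e1 h0
    _ ≤ _ := mul_le_mul_of_nonneg_left ((e2.trans e3).trans e4) (by norm_num)

end Pool.Agent.H998_BC
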