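import Pool.Agent.H998_BC.Avg

/-! The average of `(n / φ(n))^2` over the remainders `cc t r`, part 2. -/

set_option autoImplicit false

namespace Pool.Agent.H998_BC

open Finset

theorem sum_blocks (F : ℕ → ℝ) : ∀ M : ℕ, ∑ d ∈ Ico 1 (3 ^ M), F d
    = ∑ m ∈ range M, ∑ d ∈ Ico (3 ^ m) (3 ^ (m + 1)), F d
  | 0 => by simp
  | M + 1 => by
    rw [sum_range_succ, ← sum_blocks F M]
    rw [Finset.sum_Ico_consecutive F (Nat.one_le_pow _ _ (by norm_num))
      (Nat.pow_le_pow_right (by norm_num) (by omega))]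

theorem geom_lin : ∃ C : ℝ, 0 < C ∧ ∀ M : ℕ, ∑ m ∈ range M, ((m : ℝ) + 1) * (Real.sqrt 3 / 2) ^ m ≤ C := by
  have hq0 : 0 ≤ Real.sqrt 3 / 2 := by positivity
  have hq1 : Real.sqrt 3 / 2 < 1 := by
    rw [div_lt_one (by norm_num), Real.sqrt_lt' (by norm_num)]
    norm_num
  have hn : ‖Real.sqrt 3 / 2‖ < 1 := by rwa [Real.norm_of_nonneg hq0]
  have hs : Summable (fun m : ℕ => ((m : ℝ) + 1) * (Real.sqrt 3 / 2) ^ m) := by
    have h1 := summable_pow_mul_geometric_of_norm_lt_one 1 hn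
    have h2 := summable_geometric_of_lt_one hq0 hq1
    refine (h1.add h2).congr fun m => ?_
    ring
  refine ⟨∑' m : ℕ, ((m : ℝ) + 1) * (Real.sqrt 3 / 2) ^ m + 1, ?_, fun M => ?_⟩
  · have : 0 ≤ ∑' m : ℕ, ((m : ℝ) + 1) * (Real.sqrt 3 / 2) ^ m := tsum_nonneg fun m => by positivity
    linarith
  · have := hs.sum_le_tsum (range M) (fun m _ => by positivity)
    linarith

/-- the average of the square of `n / φ(n)` over the remainders -/
theorem avg : ∃ C : ℝ, 0 < C ∧ ∀ t : ℕ, 1 ≤ t →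
    ∑ r ∈ (range (2 ^ t)).filter (fun r => r % 2 = 1),
      ((cc t r : ℝ) / Nat.totient (cc t r)) ^ 2 ≤ C * 2 ^ t := by
  classical
  obtain ⟨C, hC, hgeo⟩ := geom_lin
  refine ⟨30 * C, by positivity, fun t ht => ?_⟩
  set R := (range (2 ^ t)).filter (fun r => r % 2 = 1) with hR
  set cnt : ℕ → ℝ := fun d => (((range (2 ^ t)).filter (fun r => d ∣ cc t r)).card : ℝ) with hcnt
  have hcc : ∀ r ∈ R, 1 ≤ cc t r ∧ Nat.Coprime (cc t r) 3 := by
    intro r hr
    have hr1 := (mem_filter.1 hr).2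
    refine ⟨cc_pos ht hr1, ?_⟩
    rw [Nat.coprime_comm, Nat.Prime.coprime_iff_not_dvd Nat.prime_three]
    exact (cc_three t r).2 (kap_pos ht hr1)
  have h1 : ∑ r ∈ R, ((cc t r : ℝ) / Nat.totient (cc t r)) ^ 2
      ≤ ∑ r ∈ R, 15 * ∑ d ∈ (Ico 1 (3 ^ t)).filter (fun d => Nat.Coprime d 3),
          (if d ∣ cc t r then 1 / Real.sqrt d else 0) := by
    apply sum_le_sum
    intro r hr
    obtain ⟨g1, g2⟩ := hcc r hr
    refine (totsq _ g1).trans ?_
    apply mul_le_mul_of_nonneg_left _ (by norm_num)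
    rw [← sum_filter]
    apply sum_le_sum_of_subset_of_nonneg
    · intro d hd
      rw [Nat.mem_divisors] at hd
      rw [mem_filter, mem_filter, mem_Ico]
      have hle := Nat.le_of_dvd (by omega) hd.1
      have hc := cc_le t r
      have hp : 0 < 2 ^ t := by positivity
      exact ⟨⟨⟨Nat.pos_of_dvd_of_pos hd.1 (by omega), by omega⟩, Nat.Coprime.coprime_dvd_left hd.1 g2⟩,
        hd.1⟩
    · intro d _ _; positivity
  refine h1.trans ?_
  rw [← mul_sum, sum_comm]
  have h2 : ∑ d ∈ (Ico 1 (3 ^ t)).filter (fun d => Nat.Coprime d 3),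
      ∑ r ∈ R, (if d ∣ cc t r then 1 / Real.sqrt d else 0)
      ≤ ∑ d ∈ Ico 1 (3 ^ t), (if Nat.Coprime d 3 then (1 / Real.sqrt d) * cnt d else 0) := by
    rw [← sum_filter]
    apply sum_le_sum
    intro d _
    rw [← sum_filter, sum_const, nsmul_eq_mul, mul_comm]
    apply mul_le_mul_of_nonneg_left _ (by positivity)
    rw [hcnt]
    beta_reduce
    have : (R.filter (fun r => d ∣ cc t r)) ⊆ (range (2 ^ t)).filter (fun r => d ∣ cc t r) := by
      intro r hr
      rw [mem_filter, hR, mem_filter] at hr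
      rw [mem_filter]
      exact ⟨hr.1.1, hr.2⟩
    exact_mod_cast card_le_card this
  have h3 : ∑ d ∈ Ico 1 (3 ^ t), (if Nat.Coprime d 3 then (1 / Real.sqrt d) * cnt d else 0)
      ≤ 2 * 2 ^ t * C := by
    rw [sum_blocks]
    have h4 : ∀ m ∈ range t, ∑ d ∈ Ico (3 ^ m) (3 ^ (m + 1)),
        (if Nat.Coprime d 3 then (1 / Real.sqrt d) * cnt d else 0)
        ≤ 2 * 2 ^ t * (((m : ℝ) + 1) * (Real.sqrt 3 / 2) ^ m) := by
      intro m hm
      rw [mem_range] at hm
      obtain ⟨s, rfl⟩ : ∃ s, t = m + s := ⟨t - m, by omega⟩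
      have h5 : ∀ d ∈ Ico (3 ^ m) (3 ^ (m + 1)),
          (if Nat.Coprime d 3 then (1 / Real.sqrt d) * cnt d else 0)
          ≤ 1 / Real.sqrt 3 ^ m * (2 ^ s * (m + 1)) := by
        intro d hd
        rw [mem_Ico] at hd
        have hs3 : 0 < Real.sqrt 3 ^ m := by positivity
        split_ifs with hc
        · have e1 : cnt d ≤ 2 ^ s * (m + 1) := by
            rw [hcnt]
            beta_reduce
            have h6 := count_dvd (s := s) hd.1 hc
            exact_mod_cast h6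
          have e2 : Real.sqrt 3 ^ m ≤ Real.sqrt d := by
            apply Real.le_sqrt_of_sq_le
            rw [← pow_mul, mul_comm m 2, pow_mul, Real.sq_sqrt (by norm_num)]
            exact_mod_cast hd.1
          apply mul_le_mul _ e1 (by rw [hcnt]; positivity) (by positivity)
          exact one_div_le_one_div_of_le hs3 e2
        · positivity
      refine (sum_le_sum h5).trans ?_
      rw [sum_const, Nat.card_Ico, nsmul_eq_mul]
      have e3 : ((3 ^ (m + 1) - 3 ^ m : ℕ) : ℝ) = 2 * 3 ^ m := by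
        rw [Nat.cast_sub (Nat.pow_le_pow_right (by norm_num) (by omega))]
        push_cast
        rw [pow_succ]; ring
      rw [e3]
      have e4 : (3 : ℝ) ^ m = Real.sqrt 3 ^ m * Real.sqrt 3 ^ m := by
        rw [← mul_pow, Real.mul_self_sqrt (by norm_num)]
      have hs3 : 0 < Real.sqrt 3 ^ m := by positivity
      apply le_of_eq
      rw [e4, div_pow, pow_add]
      field_simp
    refine (sum_le_sum h4).trans ?_
    rw [← mul_sum]
    exact mul_le_mul_of_nonneg_left (hgeo t) (by positivity)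
  calc 15 * ∑ d ∈ (Ico 1 (3 ^ t)).filter (fun d => Nat.Coprime d 3),
      ∑ r ∈ R, (if d ∣ cc t r then 1 / Real.sqrt d else 0)
      ≤ 15 * (2 * 2 ^ t * C) := mul_le_mul_of_nonneg_left (h2.trans h3) (by norm_num)
    _ = 30 * C * 2 ^ t := by ring

end Pool.Agent.H998_BC
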