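import Pool.Agent.H998_BC.Green

/-! Visits of trajectories to regular sets, part 2: the lowest scales. -/

set_option autoImplicit false

namespace Pool.Agent.H998_BC

open Finset
open Pool.Agent.H320R2.PD Pool.Agent.H499R2.ND
open Pool.Agent.H499R2.CO (Tz)
open Pool.Agent.R344.TH
open Pool.Agent.R344.SP

/-- the trajectory of `x` stays above `z` until it meets `A₀`, and takes a value smaller than `2 z`
at least `h` steps before -/
def SH (d : ℤ) (A₀ : Set ℤ) (z : ℝ) (h : ℕ) : Set ℤ := {x : ℤ | ∃ k j₀ : ℕ, j₀ + h ≤ k ∧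
  (Tz d)^[k] x ∈ A₀ ∧ (∀ j ≤ k, z ≤ (((Tz d)^[j] x : ℤ) : ℝ)) ∧ (((Tz d)^[j₀] x : ℤ) : ℝ) < 2 * z}

theorem SH_ge {d : ℤ} {A₀ : Set ℤ} {z : ℝ} {h : ℕ} {x : ℤ} (hx : x ∈ SH d A₀ z h) : z ≤ x := by
  obtain ⟨k, j₀, _, _, h2, _⟩ := hx
  exact h2 0 (Nat.zero_le _)

theorem SH_fwd {d : ℤ} (hd : d % 2 = 1) {A₀ : Set ℤ} {z : ℝ} (hz : 0 < z) (h : ℕ) :
    FwdA d (2 * z) (SH d A₀ z h) := by
  intro M x e he hM hx hMz hxz hMS hMx
  obtain ⟨k, j₀, h3, h1, h2, h4⟩ := hMS
  have hval : ∀ i ≤ e, 2 * z ≤ (((Tz d)^[i] M : ℤ) : ℝ) := by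
    intro i hi
    rcases Nat.eq_zero_or_pos i with rfl | hi0
    · exact hMz
    · obtain ⟨i', rfl⟩ : ∃ i', i = i' + 1 := ⟨i - 1, by omega⟩
      rw [iter_syr hd hM hMx i' hi]
      push_cast
      have : (1 : ℝ) ≤ 2 ^ (e - (i' + 1)) := one_le_pow₀ (by norm_num)
      exact hxz.trans (le_mul_of_one_le_left (by linarith) this)
  have hj : e < j₀ := by
    by_contra hcon
    push Not at hcon
    have := hval j₀ hcon
    linarith
  have hx' : (Tz d)^[e] M = x := by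
    obtain ⟨i', rfl⟩ : ∃ i', e = i' + 1 := ⟨e - 1, by omega⟩
    rw [iter_syr hd hM hMx i' le_rfl]
    simp
  have hsh : ∀ j, (Tz d)^[j] x = (Tz d)^[j + e] M := by
    intro j
    rw [Function.iterate_add_apply, hx']
  refine ⟨k - e, j₀ - e, by omega, ?_, ?_, ?_⟩
  · rw [hsh, Nat.sub_add_cancel (by omega)]; exact h1
  · intro j hj'
    rw [hsh]; exact h2 _ (by omega)
  · rw [hsh, Nat.sub_add_cancel (by omega)]; exact h4

open scoped Classical in
/-- the count at the lowest scales -/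
theorem count_SH {d : ℤ} (hd : d % 2 = 1) (A₀ : Set ℤ) {z : ℝ} (hz : 0 < z) {K : ℕ} (hK1 : 1 ≤ K)
    (hK : (K : ℝ) * |(d : ℝ)| ≤ z) {c₁ : ℝ} {A : ℝ} (hA : 0 < A)
    (hcl : ∀ j : ℕ, (j : ℝ) < c₁ * K → 4 * A * 3 ^ j < z * 2 ^ K)
    {M : ℕ} {φ : ℝ} (hφ : 0 ≤ φ) (hR : Rg A₀ z M φ) (h m : ℕ) (hM : m + K ≤ M + 1) (c : ℤ) :
    ((cls (SH d A₀ z h) A (2 * A) m 1 c).card : ℝ)
      ≤ (100 / 101) ^ h * (100 * φ * (A / 3 ^ m) + 5 ^ K * |(d : ℝ)|)
      + (((Wn A).filter (fun n => c₁ * K ≤ (od d K n : ℝ))).card : ℝ) := by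
  set F := (WC A m c).filter (fun x => (101 / 100 : ℝ) ^ h ≤ gv d A₀ z K x) with hF
  have hsub : cls (SH d A₀ z h) A (2 * A) m 1 c
      ⊆ F ∪ (Wn A).filter (fun n => c₁ * K ≤ (od d K n : ℝ)) := by
    intro x hx
    rw [mem_cls] at hx
    obtain ⟨hxA, _, ⟨k, j₀, h3, h1, h2, h4⟩, hxc⟩ := hx
    rw [one_mul] at hxc
    have hzx : z ≤ x := h2 0 (Nat.zero_le _)
    have hx0 : 0 < x := by
      have : (0 : ℝ) < x := lt_of_lt_of_le hz hzx
      exact_mod_cast this
    rw [mem_union]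
    by_cases hkK : k < K
    · left
      rw [hF, mem_filter, mem_WC]
      exact ⟨⟨hxA, hxc⟩, gv_ge h j₀ k K x hkK h3 h1 h2 h4⟩
    · right
      push Not at hkK
      rw [mem_filter, mem_Wn]
      refine ⟨hxA, ?_⟩
      by_contra hcon
      push Not at hcon
      have e1 := growth_two hd hz hK hx0 (fun i hi => h2 i (by omega))
      have e2 := hcl _ hcon
      have e3 := h2 K hkK
      have e4 : z * 2 ^ K ≤ 2 * (3 ^ od d K x * x) :=
        (mul_le_mul_of_nonneg_right e3 (by positivity)).trans e1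
      have e5 : 2 * ((3 : ℝ) ^ od d K x * x) ≤ 4 * A * 3 ^ od d K x := by
        have : (0 : ℝ) < 3 ^ od d K x := by positivity
        nlinarith [hxA.2]
      linarith
  have h1 : ((cls (SH d A₀ z h) A (2 * A) m 1 c).card : ℝ) ≤ (F.card : ℝ)
      + (((Wn A).filter (fun n => c₁ * K ≤ (od d K n : ℝ))).card : ℝ) := by
    have := (card_le_card hsub).trans (card_union_le _ _)
    exact_mod_cast this
  have h2 : (F.card : ℝ) * (101 / 100 : ℝ) ^ h ≤ 100 * φ * (A / 3 ^ m) + 5 ^ K * |(d : ℝ)| := by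
    calc (F.card : ℝ) * (101 / 100 : ℝ) ^ h = ∑ _x ∈ F, (101 / 100 : ℝ) ^ h := by
          rw [sum_const, nsmul_eq_mul]
      _ ≤ ∑ x ∈ F, gv d A₀ z K x := sum_le_sum fun x hx => (mem_filter.1 hx).2
      _ ≤ ∑ x ∈ WC A m c, gv d A₀ z K x :=
          sum_le_sum_of_subset_of_nonneg (filter_subset _ _) fun x _ _ => gv_nonneg _ _ _ _ _
      _ ≤ _ := gv_sum hd hz hφ hR K A hA m c hM
  have h3 : (F.card : ℝ) ≤ (100 / 101) ^ h * (100 * φ * (A / 3 ^ m) + 5 ^ K * |(d : ℝ)|) := by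
    have e : (100 / 101 : ℝ) ^ h * (101 / 100 : ℝ) ^ h = 1 := by
      rw [← mul_pow]; norm_num
    have := mul_le_mul_of_nonneg_left h2 (by positivity : (0 : ℝ) ≤ (100 / 101) ^ h)
    calc (F.card : ℝ) = (100 / 101 : ℝ) ^ h * ((F.card : ℝ) * (101 / 100) ^ h) := by
          rw [mul_comm (F.card : ℝ), ← mul_assoc, e, one_mul]
      _ ≤ _ := this
  linarith

/-- the lowest scales -/
theorem base_SH {d : ℤ} (hd : d % 2 = 1) {γ : ℝ} (hγ0 : 0 < γ) (hγ : γ ≤ 1 / 2) (B : ℕ) :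
    ∃ l₀ : ℝ, 0 < l₀ ∧ ∀ z : ℝ, 0 < z → l₀ ≤ Real.log z → ∀ (A₀ : Set ℤ) (M : ℕ) (φ : ℝ), 0 ≤ φ →
      Rg A₀ z M φ → 203 * (Real.log z) ^ γ ≤ M → ∀ (h : ℕ) (A : ℝ), z / 2 ≤ A →
      Real.log A ≤ Real.log z + 3 * (Real.log z) ^ γ → ∀ m : ℕ,
        (m : ℝ) ≤ (Real.log A) ^ (γ / 2) →
          PB (SH d A₀ z h) A m (200 * φ * (100 / 101) ^ h + 1 / (Real.log z) ^ B) := by
  obtain ⟨ρ, hρ0, hρ1, hod⟩ := od_large hd (c₁ := 0.6) (by norm_num)
  have hlogρ : Real.log ρ < 0 := Real.log_neg hρ0 hρ1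
  set c : ℝ := min 1 (-(100 * Real.log ρ)) with hc
  have hc0 : 0 < c := by rw [hc]; exact lt_min one_pos (by linarith)
  have hc1 : c ≤ 1 := min_le_left _ _
  have hc2 : c ≤ -(100 * Real.log ρ) := min_le_right _ _
  have hev1 : ∀ᶠ u : ℝ in Filter.atTop, u ^ ((B : ℝ) / γ) * Real.exp (-c * u) ≤ 1 / 8 :=
    (tendsto_rpow_mul_exp_neg_mul_atTop_nhds_zero _ c hc0).eventually_le_const (by norm_num)
  have hev2 : ∀ᶠ u : ℝ in Filter.atTop, 300 ≤ u := Filter.eventually_ge_atTop _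
  have hev3 : ∀ᶠ u : ℝ in Filter.atTop, (2.4 / (-(100 * Real.log ρ))) ^ 2 ≤ u :=
    Filter.eventually_ge_atTop _
  obtain ⟨u₀, hu₀⟩ := Filter.eventually_atTop.1 (hev1.and (hev2.and hev3))
  have hev4 : ∀ᶠ t : ℝ in Filter.atTop, t ^ ((B : ℝ) + 1) * Real.exp (-(1 / 4) * t) ≤ 1 / 100 :=
    (tendsto_rpow_mul_exp_neg_mul_atTop_nhds_zero _ (1 / 4) (by norm_num)).eventually_le_const
      (by norm_num)
  obtain ⟨t₀, ht₀⟩ := Filter.eventually_atTop.1 hev4
  refine ⟨max (max (max 1000000 (2 * |(d : ℝ)|)) ((max u₀ 1) ^ (1 / γ))) t₀, by positivity, ?_⟩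
  intro z hz hl' A₀ M φ hφ hR hM h A hA1 hA2 m hm
  set l := Real.log z with hldef
  have hl : max (max 1000000 (2 * |(d : ℝ)|)) ((max u₀ 1) ^ (1 / γ)) ≤ l := (le_max_left _ _).trans hl'
  have hlt : t₀ ≤ l := (le_max_right _ _).trans hl'
  have hl1 : 1000000 ≤ l := (le_max_left _ _).trans ((le_max_left _ _).trans hl)
  have hl2 : 2 * |(d : ℝ)| ≤ l := (le_max_right _ _).trans ((le_max_left _ _).trans hl)
  have hl3 : (max u₀ 1) ^ (1 / γ) ≤ l := (le_max_right _ _).trans hl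
  have hl0 : 0 < l := by linarith
  set u := l ^ γ with hu
  have hupos : 0 < u := by rw [hu]; positivity
  have hum : max u₀ 1 ≤ u := by
    have h1 : ((max u₀ 1) ^ (1 / γ)) ^ γ ≤ l ^ γ := Real.rpow_le_rpow (by positivity) hl3 hγ0.le
    rwa [← Real.rpow_mul (by positivity), one_div, inv_mul_cancel₀ hγ0.ne', Real.rpow_one] at h1
  obtain ⟨h1, h2, h3⟩ := hu₀ u ((le_max_left _ _).trans hum)
  have h4 := ht₀ l hlt
  have hexpz : Real.exp l = z := Real.exp_log hz
  have hApos : 0 < A := by linarith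
  have hexpA : Real.exp (Real.log A) = A := Real.exp_log hApos
  have hln2a := Real.log_two_gt_d9
  have hln2b := Real.log_two_lt_d9
  have hln3 := log3_le
  -- `u ≤ √l`
  have husq : u ≤ Real.sqrt l := by
    rw [Real.sqrt_eq_rpow]; exact Real.rpow_le_rpow_of_exponent_le (by linarith) hγ
  have hsl : Real.sqrt l ≤ l / 1000 := by
    rw [Real.sqrt_le_left (by positivity)]
    nlinarith
  have hul : u ≤ l / 1000 := husq.trans hsl
  -- the parameter `K`
  obtain ⟨K, hK⟩ : ∃ K : ℕ, K = ⌈200 * u⌉₊ := ⟨_, rfl⟩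
  have hK1 : 200 * u ≤ K := by rw [hK]; exact Nat.le_ceil _
  have hK2 : (K : ℝ) ≤ 200 * u + 1 := by rw [hK]; exact (Nat.ceil_lt_add_one (by positivity)).le
  have hK1N : 1 ≤ K := by
    have : (1 : ℝ) ≤ K := by linarith
    exact_mod_cast this
  have h2K : (2 : ℝ) ^ K = Real.exp (K * Real.log 2) := by
    rw [Real.exp_nat_mul, Real.exp_log (by norm_num)]
  have hKd : (K : ℝ) * |(d : ℝ)| ≤ z := by
    have e1 : (K : ℝ) ≤ l := by linarith
    have e2 : l ^ 2 / 2 ≤ z := by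
      have := Real.pow_div_factorial_le_exp l hl0.le 2
      rw [hexpz] at this
      simpa using this
    have e3 : (K : ℝ) * |(d : ℝ)| ≤ l * (l / 2) :=
      mul_le_mul e1 (by linarith) (abs_nonneg _) hl0.le
    linarith
  have hAlog : l - Real.log 2 ≤ Real.log A := by
    rw [hldef, ← Real.log_div hz.ne' (by norm_num)]
    exact Real.log_le_log (by positivity) hA1
  have h2KA : (2 : ℝ) ^ K ≤ A := by
    rw [h2K, ← hexpA]
    apply Real.exp_le_exp.2
    have : (K : ℝ) * Real.log 2 ≤ (200 * u + 1) * 0.7 :=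
      mul_le_mul hK2 (by linarith) (by linarith) (by positivity)
    linarith
  have hAz : A ≤ z * Real.exp (3 * u) := by
    rw [← hexpA, ← hexpz, ← Real.exp_add]
    exact Real.exp_le_exp.2 hA2
  -- powers of `3`
  have hm2u : (m : ℝ) ≤ 2 * Real.sqrt u := by
    refine hm.trans ?_
    have e2 : Real.log A ≤ 4 * l := by linarith
    have e3 : 0 ≤ Real.log A := by linarith
    calc (Real.log A) ^ (γ / 2) ≤ (4 * l) ^ (γ / 2) := Real.rpow_le_rpow e3 e2 (by positivity)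
      _ = 4 ^ (γ / 2) * l ^ (γ / 2) := Real.mul_rpow (by norm_num) hl0.le
      _ ≤ 2 * Real.sqrt u := by
          apply mul_le_mul _ _ (by positivity) (by norm_num)
          · calc (4 : ℝ) ^ (γ / 2) ≤ 4 ^ (1 / 2 : ℝ) :=
                  Real.rpow_le_rpow_of_exponent_le (by norm_num) (by linarith)
              _ = 2 := by
                  rw [← Real.sqrt_eq_rpow, show (4 : ℝ) = 2 ^ 2 by norm_num]
                  exact Real.sqrt_sq (by norm_num)
          · rw [hu, Real.sqrt_eq_rpow, ← Real.rpow_mul hl0.le]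
            exact le_of_eq (by congr 1; ring)
  have h3m : (3 : ℝ) ^ m ≤ Real.exp (2.4 * Real.sqrt u) := by
    have e0 : (3 : ℝ) ^ m = Real.exp (m * Real.log 3) := by
      rw [Real.exp_nat_mul, Real.exp_log (by norm_num)]
    rw [e0]
    apply Real.exp_le_exp.2
    calc (m : ℝ) * Real.log 3 ≤ (2 * Real.sqrt u) * 1.2 :=
          mul_le_mul hm2u (by linarith) (Real.log_nonneg (by norm_num)) (by positivity)
      _ = _ := by ring
  have hsu : Real.sqrt u ≤ u := by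
    rw [Real.sqrt_le_left hupos.le]; nlinarith
  have hmM : m + K ≤ M + 1 := by
    have e : ((m + K : ℕ) : ℝ) ≤ ((M + 1 : ℕ) : ℝ) := by
      push_cast
      linarith
    exact_mod_cast e
  intro v w hvu
  obtain ⟨cc, hcc⟩ := cls_unit (SH d A₀ z h) A (2 * A) m hvu w
  rw [hcc]
  have hbc := count_SH hd A₀ hz hK1N hKd (c₁ := 0.6) hApos (by
    intro j hj
    have e1 : (3 : ℝ) ^ j ≤ Real.exp (0.96 * (K * Real.log 2)) := by
      have : (3 : ℝ) ^ j = Real.exp (j * Real.log 3) := by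
        rw [Real.exp_nat_mul, Real.exp_log (by norm_num)]
      rw [this]
      apply Real.exp_le_exp.2
      calc (j : ℝ) * Real.log 3 ≤ (0.6 * K) * (8 / 5 * Real.log 2) := by
            apply mul_le_mul hj.le hln3 (Real.log_nonneg (by norm_num)) (by positivity)
        _ = _ := by ring
    have e2 : 4 * A * 3 ^ j ≤ Real.exp (2 * Real.log 2) * (z * Real.exp (3 * u))
        * Real.exp (0.96 * (K * Real.log 2)) := by
      have : Real.exp (2 * Real.log 2) = 4 := by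
        rw [show (2 : ℝ) * Real.log 2 = ((2 : ℕ) : ℝ) * Real.log 2 by norm_num, Real.exp_nat_mul,
          Real.exp_log (by norm_num)]
        norm_num
      rw [this]
      apply mul_le_mul _ e1 (by positivity) (by positivity)
      linarith
    refine e2.trans_lt ?_
    have e3 : Real.exp (2 * Real.log 2) * (z * Real.exp (3 * u)) * Real.exp (0.96 * (K * Real.log 2))
        = z * Real.exp (2 * Real.log 2 + 3 * u + 0.96 * (K * Real.log 2)) := by
      rw [Real.exp_add, Real.exp_add]; ring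
    rw [e3, h2K]
    apply mul_lt_mul_of_pos_left _ hz
    apply Real.exp_lt_exp.2
    have e4 : 200 * u * 0.69 ≤ K * Real.log 2 := mul_le_mul hK1 (by linarith) (by norm_num) (by positivity)
    linarith) hφ hR h m hmM cc
  have h24 : 2.4 * Real.sqrt u ≤ -(100 * Real.log ρ) * u := by
    set c' := -(100 * Real.log ρ) with hc'
    have hc'0 : 0 < c' := by linarith
    have e1 : 2.4 / c' ≤ Real.sqrt u := Real.le_sqrt_of_sq_le h3
    rw [div_le_iff₀ hc'0] at e1
    have e2 : Real.sqrt u * Real.sqrt u = u := Real.mul_self_sqrt hupos.le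
    nlinarith [Real.sqrt_nonneg u]
  set E := Real.exp (-c * u) with hE
  have hE0 : 0 < E := Real.exp_pos _
  have hP : l ^ B = u ^ ((B : ℝ) / γ) := by
    rw [hu, ← Real.rpow_mul hl0.le, mul_div_cancel₀ _ hγ0.ne', Real.rpow_natCast]
  have hPE : l ^ B * E ≤ 1 / 8 := by rw [hP]; exact h1
  have hE2 : (3 : ℝ) ^ m * ρ ^ K ≤ E := by
    have e0 : ρ ^ K = Real.exp (K * Real.log ρ) := by
      rw [Real.exp_nat_mul, Real.exp_log hρ0]
    rw [e0]
    calc (3 : ℝ) ^ m * Real.exp (K * Real.log ρ)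
        ≤ Real.exp (2.4 * Real.sqrt u) * Real.exp (K * Real.log ρ) :=
          mul_le_mul_of_nonneg_right h3m (Real.exp_pos _).le
      _ ≤ E := by
          rw [← Real.exp_add, hE]
          apply Real.exp_le_exp.2
          have e1 : (K : ℝ) * Real.log ρ ≤ 200 * u * Real.log ρ :=
            mul_le_mul_of_nonpos_right hK1 hlogρ.le
          have e2 : c * u ≤ -(100 * Real.log ρ) * u := mul_le_mul_of_nonneg_right hc2 hupos.le
          linarith
  have hodA := hod K A hApos.le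
  have h3m0 : (0 : ℝ) < 3 ^ m := by positivity
  have hlB : 0 < l ^ B := by positivity
  have hS2 : (A + 2 ^ K) * ρ ^ K ≤ 1 / 2 * (1 / l ^ B) * (A / (2 * 3 ^ m)) := by
    have e1 : E ≤ 1 / 8 / l ^ B := by
      rw [le_div_iff₀ hlB, mul_comm]; exact hPE
    calc (A + 2 ^ K) * ρ ^ K ≤ (2 * A) * (3 ^ m * ρ ^ K / 3 ^ m) := by
          rw [mul_div_cancel_left₀ _ h3m0.ne']
          apply mul_le_mul_of_nonneg_right _ (by positivity)
          linarith
      _ ≤ 2 * A * (E / 3 ^ m) := by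
          apply mul_le_mul_of_nonneg_left _ (by positivity)
          exact div_le_div_of_nonneg_right hE2 h3m0.le
      _ = 2 * A / 3 ^ m * E := by ring
      _ ≤ 2 * A / 3 ^ m * (1 / 8 / l ^ B) := mul_le_mul_of_nonneg_left e1 (by positivity)
      _ = _ := by field_simp; norm_num
  -- the boundary terms
  have h5K : (5 : ℝ) ^ K * 3 ^ m ≤ Real.exp (0.34 * l) := by
    have e0 : (5 : ℝ) ^ K ≤ Real.exp (K * 1.625) := by
      rw [Real.exp_nat_mul]
      apply pow_le_pow_left₀ (by norm_num)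
      have a1 : Real.exp (1.625 : ℝ) = Real.exp (13 / 8) := by norm_num
      have a2 : (5 : ℝ) ^ 8 ≤ (Real.exp (13 / 8)) ^ 8 := by
        rw [← Real.exp_nat_mul, show ((8 : ℕ) : ℝ) * (13 / 8) = ((13 : ℕ) : ℝ) * 1 by norm_num,
          Real.exp_nat_mul]
        have := Real.exp_one_gt_d9
        calc (5 : ℝ) ^ 8 ≤ 2.7182818 ^ 13 := by norm_num
          _ ≤ (Real.exp 1) ^ 13 := pow_le_pow_left₀ (by norm_num) (by linarith) 13
      rw [a1]
      exact le_of_pow_le_pow_left₀ (by norm_num) (Real.exp_pos _).le a2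
    calc (5 : ℝ) ^ K * 3 ^ m ≤ Real.exp (K * 1.625) * Real.exp (2.4 * Real.sqrt u) :=
          mul_le_mul e0 h3m (by positivity) (Real.exp_pos _).le
      _ = Real.exp (K * 1.625 + 2.4 * Real.sqrt u) := by rw [Real.exp_add]
      _ ≤ _ := by
          apply Real.exp_le_exp.2
          nlinarith
  have hS1 : (5 : ℝ) ^ K * |(d : ℝ)| ≤ 1 / 2 * (1 / l ^ B) * (A / (2 * 3 ^ m)) := by
    have e1 : 1 / 2 * (1 / l ^ B) * (A / (2 * 3 ^ m)) = A / (4 * l ^ B * 3 ^ m) := by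
      field_simp; norm_num
    rw [e1, le_div_iff₀ (by positivity)]
    have e2 : l ^ ((B : ℝ) + 1) = l ^ B * l := by
      rw [Real.rpow_add hl0, Real.rpow_natCast, Real.rpow_one]
    rw [e2] at h4
    have e3 : Real.exp (-(1 / 4) * l) * Real.exp (1 / 4 * l) = 1 := by
      rw [← Real.exp_add, show -(1 / 4) * l + 1 / 4 * l = 0 by ring, Real.exp_zero]
    have e4 : l ^ B * l ≤ 1 / 100 * Real.exp (1 / 4 * l) := by
      calc l ^ B * l = l ^ B * l * Real.exp (-(1 / 4) * l) * Real.exp (1 / 4 * l) := by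
            rw [mul_assoc, e3, mul_one]
        _ ≤ _ := mul_le_mul_of_nonneg_right h4 (Real.exp_pos _).le
    calc (5 : ℝ) ^ K * |(d : ℝ)| * (4 * l ^ B * 3 ^ m) = 4 * (5 ^ K * 3 ^ m) * (l ^ B * |(d : ℝ)|) := by ring
      _ ≤ 4 * Real.exp (0.34 * l) * (l ^ B * (l / 2)) := by
          apply mul_le_mul _ _ (by positivity) (by positivity)
          · linarith
          · exact mul_le_mul_of_nonneg_left (by linarith) hlB.le
      _ = 2 * Real.exp (0.34 * l) * (l ^ B * l) := by ring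
      _ ≤ 2 * Real.exp (0.34 * l) * (1 / 100 * Real.exp (1 / 4 * l)) :=
          mul_le_mul_of_nonneg_left e4 (by positivity)
      _ = 1 / 50 * Real.exp (0.34 * l + 1 / 4 * l) := by rw [Real.exp_add]; ring
      _ ≤ 1 / 50 * Real.exp l := by
          apply mul_le_mul_of_nonneg_left _ (by norm_num)
          apply Real.exp_le_exp.2
          linarith
      _ ≤ A := by rw [hexpz]; linarith
  have hS1' : (100 / 101 : ℝ) ^ h * (5 ^ K * |(d : ℝ)|) ≤ 1 / 2 * (1 / l ^ B) * (A / (2 * 3 ^ m)) := by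
    have e : (100 / 101 : ℝ) ^ h ≤ 1 := pow_le_one₀ (by norm_num) (by norm_num)
    exact (mul_le_of_le_one_left (by positivity) e).trans hS1
  have hfin : (100 / 101 : ℝ) ^ h * (100 * φ * (A / 3 ^ m)) = 200 * φ * (100 / 101) ^ h * (A / (2 * 3 ^ m)) := by
    field_simp; ring
  have e9 : (200 * φ * (100 / 101) ^ h + 1 / l ^ B) * (A / (2 * 3 ^ m))
      = 200 * φ * (100 / 101) ^ h * (A / (2 * 3 ^ m)) + 1 / l ^ B * (A / (2 * 3 ^ m)) := by ring
  rw [e9]
  rw [mul_add, hfin] at hbc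
  linarith

end Pool.Agent.H998_BC
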