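import Pool.Agent.H998_BC.Base

/-! Visits of trajectories to regular sets, part 3: all scales. -/

set_option autoImplicit false

namespace Pool.Agent.H998_BC

open Finset
open Pool.Agent.H320R2.PD Pool.Agent.H499R2.ND
open Pool.Agent.H499R2.CO (Tz)
open Pool.Agent.R344.TH
open Pool.Agent.R344.SP

/-- a bound at the lowest scales passes to all scales, for sets that are closed under the map above
the level `2z` -/
theorem chain_PB {d : ℤ} (hd : Odd d) (hd3 : IsCoprime d 3) {γ : ℝ} (hγ0 : 0 < γ) (hγ : γ ≤ 1 / 2)
    (B : ℕ) (hB : 1 ≤ B) :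
    ∃ l₀ K : ℝ, 0 < l₀ ∧ 0 < K ∧ ∀ z : ℝ, 0 < z → l₀ ≤ Real.log z → ∀ (S : Set ℤ) (ρ₀ : ℝ), 0 ≤ ρ₀ →
      FwdA d (2 * z) S →
      (∀ A : ℝ, z / 2 ≤ A → Real.log A ≤ Real.log z + 3 * (Real.log z) ^ γ → ∀ m : ℕ,
        (m : ℝ) ≤ (Real.log A) ^ (γ / 2) → PB S A m ρ₀) →
      ∀ A : ℝ, z / 2 ≤ A → ∀ m : ℕ,
        (m : ℝ) ≤ (Real.log A) ^ (γ / 2) → PB S A m (ρ₀ + K / (Real.log z) ^ B) := by
  obtain ⟨C, hC, herr⟩ := err_bound2 hγ0 hγ (B + 1) d
  refine ⟨max 1000 (max ((16 : ℝ) ^ (1 / γ)) |(d : ℝ)|), 2 * C, by positivity, by positivity, ?_⟩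
  intro z hz hl S ρ₀ hρ₀ hfwd hbase
  set l := Real.log z with hldef
  have hl1000 : 1000 ≤ l := (le_max_left _ _).trans hl
  have hl16 : (16 : ℝ) ^ (1 / γ) ≤ l := (le_max_left _ _).trans ((le_max_right _ _).trans hl)
  have hld : |(d : ℝ)| ≤ l := (le_max_right _ _).trans ((le_max_right _ _).trans hl)
  have hl0 : 0 < l := by linarith
  have hexpz : Real.exp l = z := Real.exp_log hz
  have hdz : |(d : ℝ)| ≤ z := by
    rw [← hexpz]; linarith [Real.add_one_le_exp l]
  have h16 : ∀ t : ℝ, l ≤ t → 16 ≤ t ^ γ := by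
    intro t ht
    have h1 : ((16 : ℝ) ^ (1 / γ)) ^ γ ≤ t ^ γ :=
      Real.rpow_le_rpow (by positivity) (hl16.trans ht) hγ0.le
    rwa [← Real.rpow_mul (by positivity), one_div, inv_mul_cancel₀ hγ0.ne', Real.rpow_one] at h1
  have hln2a := Real.log_two_gt_d9
  have hln2b := Real.log_two_lt_d9
  have hplB : 0 < l ^ B := by positivity
  have hmono : ∀ s : ℝ, l ≤ s → 1 / s ^ B ≤ 1 / l ^ B := fun s hs =>
    one_div_le_one_div_of_le hplB (pow_le_pow_left₀ hl0.le hs B)
  have main : ∀ n : ℕ, ∀ A : ℝ, 0 < A → l ≤ Real.log A → Real.log A ≤ l + n → ∀ m : ℕ,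
      (m : ℝ) ≤ (Real.log A) ^ (γ / 2) →
        PB S A m (ρ₀ + C * (2 * (1 / l ^ B) - 1 / (Real.log A) ^ B)) := by
    intro n
    induction n with
    | zero =>
      intro A hA hlA hAn m hm
      rw [Nat.cast_zero, add_zero] at hAn
      have hAz : z / 2 ≤ A := by
        have : z ≤ A := by
          rw [← hexpz, ← Real.exp_log hA]; exact Real.exp_le_exp.2 hlA
        linarith
      have h1 := hbase A hAz (by
        have : 0 < l ^ γ := by positivity
        linarith) m hm
      intro u v hu
      refine (h1 u v hu).trans ?_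
      apply mul_le_mul_of_nonneg_right _ (by positivity)
      have h2 := hmono _ hlA
      have h3 : 0 ≤ C * (2 * (1 / l ^ B) - 1 / Real.log A ^ B) := by
        apply mul_nonneg hC.le
        have : 0 < 1 / l ^ B := by positivity
        linarith
      linarith
    | succ n ih =>
      intro A hA hlA hAn m hm
      set t := Real.log A with htdef
      have ht0 : 0 < t := by linarith
      have hexpA : Real.exp t = A := Real.exp_log hA
      rcases le_or_gt t (l + 3 * l ^ γ) with hcase | hcase
      · have hAz : z / 2 ≤ A := by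
          have : z ≤ A := by
            rw [← hexpz, ← hexpA]; exact Real.exp_le_exp.2 hlA
          linarith
        have h1 := hbase A hAz hcase m hm
        intro u v hu
        refine (h1 u v hu).trans ?_
        apply mul_le_mul_of_nonneg_right _ (by positivity)
        have h2 := hmono _ hlA
        have h3 : 0 ≤ C * (2 * (1 / l ^ B) - 1 / t ^ B) := by
          apply mul_nonneg hC.le
          have : 0 < 1 / l ^ B := by positivity
          linarith
        linarith
      · obtain ⟨k, hk⟩ : ∃ k : ℕ, k = ⌊t ^ γ⌋₊ := ⟨_, rfl⟩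
        obtain ⟨m', hm'⟩ : ∃ m' : ℕ, m' = ⌊(0.9 * t) ^ (γ / 2)⌋₊ := ⟨_, rfl⟩
        have ht1000 : 1000 ≤ t := by linarith
        set r := t ^ (γ / 2) with hr
        have hrsq : r ^ 2 = t ^ γ := by
          rw [hr, ← Real.rpow_natCast, ← Real.rpow_mul ht0.le]; congr 1; push_cast; ring
        have hr0 : 0 < r := by positivity
        have ht16 := h16 t hlA
        have hr4 : 4 ≤ r := by
          by_contra hcon
          push Not at hcon
          nlinarith
        have hsqrt : t ^ γ ≤ Real.sqrt t := by
          rw [Real.sqrt_eq_rpow]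
          exact Real.rpow_le_rpow_of_exponent_le (by linarith) hγ
        have hsq31 : Real.sqrt t ≤ t / 31 := by
          rw [Real.sqrt_le_left (by positivity)]
          nlinarith
        have hk1 : (k : ℝ) ≤ t ^ γ := by rw [hk]; exact Nat.floor_le (by positivity)
        have hk2 : t ^ γ - 1 ≤ k := by rw [hk]; linarith [Nat.lt_floor_add_one (t ^ γ)]
        have hk15 : (15 : ℝ) ≤ k := by linarith
        have hk1N : 1 ≤ k := by
          have : (1 : ℝ) ≤ k := by linarith
          exact_mod_cast this
        have hm'2 : (m' : ℝ) ≤ r := by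
          rw [hm']
          refine (Nat.floor_le (by positivity)).trans ?_
          exact Real.rpow_le_rpow (by positivity) (by linarith) (by positivity)
        have hm'k : m' ≤ k := by
          have : (m' : ℝ) ≤ k := by nlinarith
          exact_mod_cast this
        -- the room between `t` and `l`
        have hroom : l + 1.43 * t ^ γ + 0.7 ≤ t := by
          rcases le_or_gt t (4 * l) with h4 | h4
          · have e1 : t ^ γ ≤ 2 * l ^ γ := by
              calc t ^ γ ≤ (4 * l) ^ γ := Real.rpow_le_rpow ht0.le h4 hγ0.le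
                _ = 4 ^ γ * l ^ γ := Real.mul_rpow (by norm_num) hl0.le
                _ ≤ 2 * l ^ γ := by
                    apply mul_le_mul_of_nonneg_right _ (by positivity)
                    calc (4 : ℝ) ^ γ ≤ 4 ^ (1 / 2 : ℝ) :=
                          Real.rpow_le_rpow_of_exponent_le (by norm_num) hγ
                      _ = 2 := by
                          rw [← Real.sqrt_eq_rpow, show (4 : ℝ) = 2 ^ 2 by norm_num]
                          exact Real.sqrt_sq (by norm_num)
            have e2 := h16 l le_rfl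
            linarith
          · linarith
        have hpath : (2 : ℝ) ^ (41 * k / 20) * (2 * z) ≤ A := by
          have e1 : (2 : ℝ) ^ (41 * k / 20) = Real.exp (((41 * k / 20 : ℕ) : ℝ) * Real.log 2) := by
            rw [Real.exp_nat_mul, Real.exp_log (by norm_num)]
          have e2 : 2 * z = Real.exp (Real.log 2 + l) := by
            rw [Real.exp_add, Real.exp_log (by norm_num), hexpz]
          rw [e1, e2, ← hexpA, ← Real.exp_add]
          apply Real.exp_le_exp.2
          have e3 : 20 * (41 * k / 20) ≤ 41 * k := Nat.mul_div_le _ _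
          have e4 : (20 : ℝ) * ((41 * k / 20 : ℕ) : ℝ) ≤ 41 * k := by exact_mod_cast e3
          have e5 : ((41 * k / 20 : ℕ) : ℝ) * Real.log 2 ≤ (41 / 20 * t ^ γ) * 0.6931471808 :=
            mul_le_mul (by linarith) hln2b.le (by linarith) (by positivity)
          have e6 : 0 < t ^ γ := by positivity
          nlinarith
        have hE := herr A hA ht1000 hr4 k m m' hm hk hm'
        rw [← htdef] at hE
        have ht1l : l ≤ t - 1 := by
          have : 0 < t ^ γ := by positivity
          linarith
        have hρ : 0 ≤ ρ₀ + C * (2 * (1 / l ^ B) - 1 / (t - 1) ^ B) := by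
          have e1 := hmono (t - 1) ht1l
          have e2 : 0 < 1 / l ^ B := by positivity
          have e3 : 0 ≤ C * (2 * (1 / l ^ B) - 1 / (t - 1) ^ B) := mul_nonneg hC.le (by linarith)
          linarith
        have hst := stageA hd hd3 (Z := 2 * z) (by linarith) hfwd hA hk1N hm'k (m := m) hpath hρ (by
          intro T hT1 hT2
          have hn := next_scale2 hA hT1 hT2
          rw [← htdef] at hn
          have hA'pos : 0 < A * 3 ^ k / 2 ^ T := by positivity
          have hge : l ≤ Real.log (A * 3 ^ k / 2 ^ T) := by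
            have : 0 < t ^ γ := by positivity
            linarith [hn.1]
          have hih := ih (A * 3 ^ k / 2 ^ T) hA'pos hge (by
              push_cast at hAn
              linarith [hn.2]) m' (by
              rw [hm']
              refine (Nat.floor_le (by positivity)).trans ?_
              apply Real.rpow_le_rpow (by positivity) _ (by positivity)
              linarith [hn.1])
          intro u v hu
          refine (hih u v hu).trans ?_
          apply mul_le_mul_of_nonneg_right _ (by positivity)
          apply add_le_add_right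
          apply mul_le_mul_of_nonneg_left _ hC.le
          have : 1 / (t - 1) ^ B ≤ 1 / Real.log (A * 3 ^ k / 2 ^ T) ^ B :=
            one_div_le_one_div_of_le (pow_pos (by linarith) B)
              (pow_le_pow_left₀ (by linarith) (by linarith [hn.2]) B)
          linarith)
        intro u v hu
        refine (hst u v hu).trans ?_
        apply mul_le_mul_of_nonneg_right _ (by positivity)
        have e1 := pow_step B hB (t := t) (by linarith)
        have e2 := mul_le_mul_of_nonneg_left e1 hC.le
        have e3 : C / t ^ (B + 1) = C * (1 / t ^ (B + 1)) := by ring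
        rw [e3] at hE
        rw [mul_sub, mul_sub]
        linarith
  intro A hAz m hm
  have hA : 0 < A := by linarith
  rcases le_or_gt l (Real.log A) with hc | hc
  · obtain ⟨n, hn⟩ := exists_nat_ge (Real.log A - l)
    have h1 := main n A hA hc (by linarith) m hm
    intro u v hu
    refine (h1 u v hu).trans ?_
    apply mul_le_mul_of_nonneg_right _ (by positivity)
    have e1 : 0 < 1 / (Real.log A) ^ B := by
      have : 0 < Real.log A := by linarith
      positivity
    have e2 : (2 * C) / l ^ B = C * (2 * (1 / l ^ B)) := by ring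
    rw [e2]
    have := mul_nonneg hC.le e1.le
    rw [mul_sub]
    linarith
  · have h1 := hbase A hAz (by
      have : 0 < l ^ γ := by positivity
      linarith) m hm
    intro u v hu
    refine (h1 u v hu).trans ?_
    apply mul_le_mul_of_nonneg_right _ (by positivity)
    have : 0 ≤ 2 * C / l ^ B := by positivity
    linarith

/-- the trajectories that meet a regular set near the level `z` -/
theorem SH_PB {d : ℤ} (hd : Odd d) (hd3 : IsCoprime d 3) {γ : ℝ} (hγ0 : 0 < γ) (hγ : γ ≤ 1 / 2)
    (B : ℕ) (hB : 1 ≤ B) :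
    ∃ l₀ K : ℝ, 0 < l₀ ∧ 0 < K ∧ ∀ z : ℝ, 0 < z → l₀ ≤ Real.log z →
      ∀ (A₀ : Set ℤ) (M : ℕ) (φ : ℝ), 0 ≤ φ → Rg A₀ z M φ → 203 * (Real.log z) ^ γ ≤ M →
      ∀ (h : ℕ) (A : ℝ), z / 2 ≤ A → ∀ m : ℕ, (m : ℝ) ≤ (Real.log A) ^ (γ / 2) →
        PB (SH d A₀ z h) A m (200 * φ * (100 / 101) ^ h + K / (Real.log z) ^ B) := by
  have hd2 : d % 2 = 1 := Int.odd_iff.1 hd
  obtain ⟨l₀, hl₀, hbase⟩ := base_SH hd2 hγ0 hγ B
  obtain ⟨l₁, K, hl₁, hK, hchain⟩ := chain_PB hd hd3 hγ0 hγ B hB
  refine ⟨max l₀ l₁, 1 + K, by positivity, by positivity, ?_⟩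
  intro z hz hl A₀ M φ hφ hR hM h A hA m hm
  have h1 := hchain z hz ((le_max_right _ _).trans hl) (SH d A₀ z h)
    (200 * φ * (100 / 101) ^ h + 1 / (Real.log z) ^ B) (by
      have : 0 < Real.log z := lt_of_lt_of_le (lt_of_lt_of_le hl₀ (le_max_left _ _)) hl
      positivity) (SH_fwd hd2 hz h)
    (fun A' h1 h2 m' h3 => hbase z hz ((le_max_left _ _).trans hl) A₀ M φ hφ hR hM h A' h1 h2 m' h3)
    A hA m hm
  have e : 200 * φ * (100 / 101) ^ h + 1 / Real.log z ^ B + K / Real.log z ^ B
      = 200 * φ * (100 / 101) ^ h + (1 + K) / (Real.log z) ^ B := by ring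
  rw [e] at h1
  exact h1

end Pool.Agent.H998_BC
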