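import Pool.Agent.H998_BC.Count2

/-! Visits of trajectories to regular sets, part 6: the map with `3x+d`. -/

set_option autoImplicit false

namespace Pool.Agent.H998_BC

open Finset
open Pool.Agent.H499R2.CO (Tz)
open Pool.Agent.R344.TH

/-- the time of the shortcut map -/
def tau (d : ℤ) : ℕ → ℤ → ℕ
  | 0, _ => 0
  | 1, _ => 1
  | k + 2, x => if x % 2 = 0 then 1 + tau d (k + 1) (Tz d x) else 1 + tau d k (Tz d x)

theorem tau_mono (d : ℤ) : ∀ (k : ℕ) (x : ℤ), tau d k x ≤ tau d (k + 1) x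
  | 0, x => by simp [tau]
  | 1, x => by
    simp only [tau]
    split_ifs <;> omega
  | k + 2, x => by
    have h1 := tau_mono d (k + 1) (Tz d x)
    have h2 := tau_mono d k (Tz d x)
    rw [tau, tau]
    split_ifs <;> omega

theorem tau_two (d : ℤ) : ∀ (k : ℕ) (x : ℤ), tau d k x + 1 ≤ tau d (k + 2) x
  | 0, x => by
    simp only [tau]
    split_ifs <;> omega
  | 1, x => by
    rw [tau]
    simp only [tau]
    split_ifs <;> omega
  | k + 2, x => by
    have h1 : tau d (k + 1) (Tz d x) + 1 ≤ tau d (k + 2 + 1) (Tz d x) := tau_two d (k + 1) (Tz d x)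
    have h2 := tau_two d k (Tz d x)
    rw [tau, tau]
    split_ifs <;> omega

theorem tau_le (d : ℤ) (x : ℤ) : Monotone (fun k => tau d k x) :=
  monotone_nat_of_le_succ fun k => tau_mono d k x

theorem tau_val {d : ℤ} (hd : d % 2 = 1) : ∀ (k : ℕ) (x : ℤ),
    (Tz d)^[tau d k x] x = (Cz d)^[k] x ∨ 2 * (Tz d)^[tau d k x] x = (Cz d)^[k] x
  | 0, x => Or.inl rfl
  | 1, x => by
    rw [tau, Function.iterate_one, Function.iterate_one]
    by_cases hp : x % 2 = 0
    · exact Or.inl (Cz_even hp).symm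
    · exact Or.inr (by rw [Tz_odd hd hp, Cz_odd hp])
  | k + 2, x => by
    by_cases hp : x % 2 = 0
    · have ih := tau_val hd (k + 1) (Tz d x)
      rw [tau, if_pos hp, add_comm 1, Function.iterate_succ_apply,
        Function.iterate_succ_apply (Cz d) (k + 1), Cz_even hp]
      exact ih
    · have ih := tau_val hd k (Tz d x)
      rw [tau, if_neg hp, add_comm 1, Function.iterate_succ_apply,
        Function.iterate_succ_apply (Cz d) (k + 1), Function.iterate_succ_apply (Cz d) k,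
        Cz_Cz_odd hd hp]
      exact ih

theorem tau_ge {d : ℤ} (hd : d % 2 = 1) {Y : ℝ} (hY : |(d : ℝ)| ≤ Y) : ∀ (k : ℕ) (x : ℤ),
    (∀ j ≤ k, Y ≤ (((Cz d)^[j] x : ℤ) : ℝ)) → ∀ j ≤ tau d k x, Y ≤ (((Tz d)^[j] x : ℤ) : ℝ)
  | 0, x, h, j, hj => by
    have : j = 0 := by simpa [tau] using hj
    subst this
    exact h 0 le_rfl
  | 1, x, h, j, hj => by
    have hx := h 0 (by omega)
    rw [Function.iterate_zero, id] at hx
    have hx1 := h 1 le_rfl
    rw [Function.iterate_one] at hx1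
    rw [tau] at hj
    rcases Nat.eq_zero_or_pos j with rfl | hj0
    · exact hx
    · obtain rfl : j = 1 := by omega
      rw [Function.iterate_one]
      by_cases hp : x % 2 = 0
      · rwa [Cz_even hp] at hx1
      · have h3 := Tz_odd hd hp
        have h4 : (2 : ℝ) * ((Tz d x : ℤ) : ℝ) = 3 * x + d := by exact_mod_cast h3
        have := neg_abs_le (d : ℝ)
        linarith
  | k + 2, x, h, j, hj => by
    have hx := h 0 (by omega)
    rw [Function.iterate_zero, id] at hx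
    rcases Nat.eq_zero_or_pos j with rfl | hj0
    · exact hx
    · obtain ⟨i, rfl⟩ : ∃ i, j = i + 1 := ⟨j - 1, by omega⟩
      rw [Function.iterate_succ_apply]
      rw [tau] at hj
      by_cases hp : x % 2 = 0
      · rw [if_pos hp] at hj
        apply tau_ge hd hY (k + 1) (Tz d x) _ i (by omega)
        intro j' hj'
        have := h (j' + 1) (by omega)
        rwa [Function.iterate_succ_apply, Cz_even hp] at this
      · rw [if_neg hp] at hj
        apply tau_ge hd hY k (Tz d x) _ i (by omega)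
        intro j' hj'
        have := h (j' + 2) (by omega)
        rwa [Function.iterate_succ_apply, Function.iterate_succ_apply, Cz_Cz_odd hd hp] at this

/-- the trajectory of `x` under `x/2`, `3x+d` visits `A` at least `Q` times before it goes below `Y` -/
def VisC (d : ℤ) (A : Set ℤ) (Y : ℝ) (Q : ℕ) : Set ℤ := {x : ℤ | ∃ s : Finset ℕ, Q ≤ s.card ∧
  ∀ k ∈ s, (Cz d)^[k] x ∈ A ∧ ∀ j ≤ k, Y ≤ (((Cz d)^[j] x : ℤ) : ℝ)}

theorem VisC_hal {d : ℤ} (hd : d % 2 = 1) {A : Set ℤ} {Y : ℝ} (hY : |(d : ℝ)| ≤ Y) {Q : ℕ} {x : ℤ}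
    (h : x ∈ VisC d A Y Q) : x ∈ Vis d (hal A) Y ((Q + 1) / 2) := by
  obtain ⟨s, hs1, hs2⟩ := h
  refine ⟨s.image (fun k => tau d k x), ?_, ?_⟩
  · have h1 : s.card ≤ 2 * (s.image (fun k => tau d k x)).card := by
      apply Finset.card_le_mul_card_image
      intro t _
      by_contra hcon
      push Not at hcon
      obtain ⟨a, b, c, ha, hb, hc, hab, hac, hbc⟩ := two_lt_card_iff.1 hcon
      rw [mem_filter] at ha hb hc
      have key : ∀ p q : ℕ, p + 2 ≤ q → tau d p x = t → tau d q x = t → False := by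
        intro p q hpq hp hq
        have e1 := tau_two d p x
        have e2 := tau_le d x hpq
        simp only at e2
        omega
      have hcase : a + 2 ≤ b ∨ a + 2 ≤ c ∨ b + 2 ≤ a ∨ b + 2 ≤ c ∨ c + 2 ≤ a ∨ c + 2 ≤ b := by omega
      rcases hcase with h | h | h | h | h | h
      · exact key a b h ha.2 hb.2
      · exact key a c h ha.2 hc.2
      · exact key b a h hb.2 ha.2
      · exact key b c h hb.2 hc.2
      · exact key c a h hc.2 ha.2
      · exact key c b h hc.2 hb.2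
    omega
  · intro t ht
    rw [mem_image] at ht
    obtain ⟨k, hk, rfl⟩ := ht
    obtain ⟨h1, h2⟩ := hs2 k hk
    refine ⟨?_, tau_ge hd hY k x h2⟩
    rcases tau_val hd k x with h3 | h3
    · left; rwa [h3]
    · right; rwa [h3]

open scoped Classical in
/-- a set with the proportion `φ X` of every class modulo `3^j` in `[X, 2X)` -/
def Rgz (A : Set ℤ) (ε Y : ℝ) (φ : ℝ → ℝ) : Prop :=
  ∀ X : ℝ, Y ≤ X → ∀ (j : ℕ) (v : ℤ), (j : ℝ) ≤ (Real.log X) ^ ε →
    (((WC X j v).filter (fun x : ℤ => x ∈ A)).card : ℝ) ≤ φ X * (X / 3 ^ j)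

open scoped Classical in
theorem Rg_hal {A : Set ℤ} {ε Y : ℝ} {φ : ℝ → ℝ} (hε : 0 < ε) (hY : 1 ≤ Y) (hφ : AntitoneOn φ (Set.Ici Y))
    (hφ0 : ∀ X, Y ≤ X → 0 ≤ φ X) (hA : Rgz A ε Y φ) {z : ℝ} (hz : Y ≤ z) {M : ℕ}
    (hM : (M : ℝ) ≤ (Real.log z) ^ ε) : Rg (hal A) z M (6 * φ z) := by
  -- the count in `[X, 2X)`
  have key : ∀ X : ℝ, z ≤ X → ∀ j ≤ M, ∀ v : ℤ,
      (((WC X j v).filter (fun x : ℤ => x ∈ hal A)).card : ℝ) ≤ 3 * φ z * (X / 3 ^ j) := by
    intro X hX j hj v
    have hX0 : 0 < X := by linarith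
    have hjz : (j : ℝ) ≤ (Real.log z) ^ ε := le_trans (by exact_mod_cast hj) hM
    have hlz : 0 ≤ Real.log z := Real.log_nonneg (by linarith)
    have hl1 : Real.log z ≤ Real.log X := Real.log_le_log (by linarith) hX
    have hl2 : Real.log z ≤ Real.log (2 * X) := Real.log_le_log (by linarith) (by linarith)
    have h1 := hA X (by linarith) j v (hjz.trans (Real.rpow_le_rpow hlz hl1 hε.le))
    have h2 := hA (2 * X) (by linarith) j (2 * v) (hjz.trans (Real.rpow_le_rpow hlz hl2 hε.le))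
    have hsub : (WC X j v).filter (fun x : ℤ => x ∈ hal A) ⊆ (WC X j v).filter (fun x : ℤ => x ∈ A)
        ∪ ((WC (2 * X) j (2 * v)).filter (fun x : ℤ => x ∈ A)).image (fun x => x / 2) := by
      intro x hx
      rw [mem_filter, mem_WC] at hx
      rw [mem_union, mem_image, mem_filter, mem_WC]
      rcases hx.2 with h | h
      · left; exact ⟨hx.1, h⟩
      · right
        refine ⟨2 * x, ?_, by omega⟩
        rw [mem_filter, mem_WC]
        push_cast
        refine ⟨⟨⟨by linarith [hx.1.1.1], by linarith [hx.1.1.2]⟩, ?_⟩, h⟩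
        rw [← mul_sub]
        exact Dvd.dvd.mul_left hx.1.2 2
    have h3 : (((WC X j v).filter (fun x : ℤ => x ∈ hal A)).card : ℝ)
        ≤ (((WC X j v).filter (fun x : ℤ => x ∈ A)).card : ℝ)
          + (((WC (2 * X) j (2 * v)).filter (fun x : ℤ => x ∈ A)).card : ℝ) := by
      have := (card_le_card hsub).trans ((card_union_le _ _).trans
        (Nat.add_le_add_left card_image_le _))
      exact_mod_cast this
    have h4 : φ X ≤ φ z := hφ (Set.mem_Ici.2 hz) (Set.mem_Ici.2 (by linarith)) hX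
    have h5 : φ (2 * X) ≤ φ z := hφ (Set.mem_Ici.2 hz) (Set.mem_Ici.2 (by linarith)) (by linarith)
    have h6 : 0 ≤ X / 3 ^ j := by positivity
    have h7 : φ X * (X / 3 ^ j) ≤ φ z * (X / 3 ^ j) := mul_le_mul_of_nonneg_right h4 h6
    have h8 : φ (2 * X) * (2 * X / 3 ^ j) ≤ φ z * (2 * (X / 3 ^ j)) := by
      have : 2 * X / 3 ^ j = 2 * (X / 3 ^ j) := by ring
      rw [this]
      exact mul_le_mul_of_nonneg_right h5 (by positivity)
    linarith
  intro X hX j hj v
  have h0 := hφ0 z hz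
  rcases le_or_gt z X with hc | hc
  · have h1 := key X hc j hj v
    have h2 : (WC X j v).filter (fun x : ℤ => z ≤ (x : ℝ) ∧ x ∈ hal A)
        ⊆ (WC X j v).filter (fun x : ℤ => x ∈ hal A) := by
      intro x hx
      rw [mem_filter] at hx ⊢
      exact ⟨hx.1, hx.2.2⟩
    have h3 : (((WC X j v).filter (fun x : ℤ => z ≤ (x : ℝ) ∧ x ∈ hal A)).card : ℝ)
        ≤ (((WC X j v).filter (fun x : ℤ => x ∈ hal A)).card : ℝ) := by exact_mod_cast card_le_card h2
    have h4 : 0 ≤ φ z * (X / 3 ^ j) := by positivity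
    linarith
  · rcases le_or_gt (2 * X) z with hc2 | hc2
    · have : (WC X j v).filter (fun x : ℤ => z ≤ (x : ℝ) ∧ x ∈ hal A) = ∅ := by
        rw [Finset.eq_empty_iff_forall_notMem]
        intro x hx
        rw [mem_filter, mem_WC] at hx
        linarith [hx.1.1.2, hx.2.1]
      rw [this, card_empty, Nat.cast_zero]
      positivity
    · have h1 := key z le_rfl j hj v
      have h2 : (WC X j v).filter (fun x : ℤ => z ≤ (x : ℝ) ∧ x ∈ hal A)
          ⊆ (WC z j v).filter (fun x : ℤ => x ∈ hal A) := by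
        intro x hx
        rw [mem_filter, mem_WC] at hx ⊢
        exact ⟨⟨⟨hx.2.1, by linarith [hx.1.1.2]⟩, hx.1.2⟩, hx.2.2⟩
      have h3 : (((WC X j v).filter (fun x : ℤ => z ≤ (x : ℝ) ∧ x ∈ hal A)).card : ℝ)
          ≤ (((WC z j v).filter (fun x : ℤ => x ∈ hal A)).card : ℝ) := by exact_mod_cast card_le_card h2
      have h4 : z / 3 ^ j ≤ 2 * (X / 3 ^ j) := by
        rw [← mul_div_assoc]
        exact div_le_div_of_nonneg_right hc2.le (by positivity)
      have h5 : 3 * φ z * (z / 3 ^ j) ≤ 3 * φ z * (2 * (X / 3 ^ j)) :=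
        mul_le_mul_of_nonneg_left h4 (by positivity)
      linarith

open scoped Classical in
/-- the number of visits of Collatz trajectories to regular sets -/
theorem VisC_count {d : ℤ} (hd : Odd d) (hd3 : IsCoprime d 3) {ε : ℝ} (hε : 0 < ε) (B : ℕ) :
    ∃ K : ℝ, 0 < K ∧ ∀ Y : ℝ, 2 ≤ Y → ∀ φ : ℝ → ℝ, AntitoneOn φ (Set.Ici Y) →
      (∀ X, Y ≤ X → 0 ≤ φ X ∧ φ X ≤ 1) → ∀ A : Set ℤ, Rgz A ε Y φ →
      ∀ (Q : ℕ), 1 ≤ Q → ∀ (N I : ℕ), (N : ℝ) < Y * 2 ^ I →
        (((Icc (1 : ℤ) N).filter (fun x => x ∈ VisC d A Y Q)).card : ℝ)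
          ≤ K * N * ((∑ i ∈ range I, φ (Y * 2 ^ i)) / Q + 1 / (Real.log Y) ^ B) := by
  set γ : ℝ := min ε 1 / 4 with hγdef
  have hγ0 : 0 < γ := by positivity
  have hγ1 : γ ≤ 1 / 2 := by
    have := min_le_right ε 1
    rw [hγdef]; linarith
  have hγε : 4 * γ ≤ ε := by
    have := min_le_left ε 1
    rw [hγdef]; linarith
  obtain ⟨l₀, K, hl₀, hK, hH⟩ := Vis_count hd hd3 hγ0 hγ1 B
  set L : ℝ := max (max l₀ (6 ^ (1 / γ))) (max 1 |(d : ℝ)|) with hL
  have hL0 : 0 < L := by rw [hL]; positivity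
  refine ⟨max (12 * K) (L ^ B), by positivity, ?_⟩
  intro Y hY φ hφ hφ01 A hA Q hQ N I hNI
  have hlog : 0 < Real.log Y := Real.log_pos (by linarith)
  have hN0 : (0 : ℝ) ≤ N := Nat.cast_nonneg N
  have hQ0 : (0 : ℝ) < Q := by exact_mod_cast hQ
  have hYi : ∀ i : ℕ, Y ≤ Y * 2 ^ i := fun i => le_mul_of_one_le_right (by linarith) (one_le_pow₀ (by norm_num))
  have hS0 : 0 ≤ ∑ i ∈ range I, φ (Y * 2 ^ i) := sum_nonneg fun i _ => (hφ01 _ (hYi i)).1
  rcases le_or_gt L (Real.log Y) with hc | hc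
  · have hc1 : l₀ ≤ Real.log Y := (le_max_left _ _).trans ((le_max_left _ _).trans hc)
    have hc2 : 6 ^ (1 / γ) ≤ Real.log Y := (le_max_right _ _).trans ((le_max_left _ _).trans hc)
    have hc3 : 1 ≤ Real.log Y := (le_max_left _ _).trans ((le_max_right _ _).trans hc)
    have hc4 : |(d : ℝ)| ≤ Real.log Y := (le_max_right _ _).trans ((le_max_right _ _).trans hc)
    have hdY : |(d : ℝ)| ≤ Y := by
      have h3 := Real.add_one_le_exp (Real.log Y)
      rw [Real.exp_log (by linarith)] at h3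
      linarith
    have hlogi : ∀ i : ℕ, Real.log Y ≤ Real.log (Y * 2 ^ i) := fun i =>
      Real.log_le_log (by linarith) (hYi i)
    set M : ℕ → ℕ := fun i => ⌊(Real.log (Y * 2 ^ i)) ^ ε⌋₊ with hMdef
    have hM1 : ∀ i, (M i : ℝ) ≤ (Real.log (Y * 2 ^ i)) ^ ε := fun i =>
      Nat.floor_le (Real.rpow_nonneg (by linarith [hlogi i]) _)
    have hM2 : ∀ i, 203 * (Real.log (Y * 2 ^ i)) ^ γ ≤ M i := by
      intro i
      set t := Real.log (Y * 2 ^ i) with ht
      have ht1 : 1 ≤ t := hc3.trans (hlogi i)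
      have ht0 : 0 < t := by linarith
      have hu : 6 ≤ t ^ γ := by
        have h1 : ((6 : ℝ) ^ (1 / γ)) ^ γ ≤ t ^ γ :=
          Real.rpow_le_rpow (by positivity) (hc2.trans (hlogi i)) hγ0.le
        rwa [← Real.rpow_mul (by positivity), one_div, inv_mul_cancel₀ hγ0.ne', Real.rpow_one] at h1
      have h2 : (t ^ γ) ^ 4 ≤ t ^ ε := by
        rw [← Real.rpow_natCast, ← Real.rpow_mul ht0.le]
        apply Real.rpow_le_rpow_of_exponent_le ht1
        push_cast
        linarith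
      have h3 : t ^ ε - 1 ≤ M i := by
        rw [hMdef]
        simp only
        linarith [Nat.lt_floor_add_one ((Real.log (Y * 2 ^ i)) ^ ε)]
      have h4 : 216 * t ^ γ ≤ (t ^ γ) ^ 4 := by
        have : (6 : ℝ) ^ 3 ≤ (t ^ γ) ^ 3 := pow_le_pow_left₀ (by norm_num) hu 3
        calc 216 * t ^ γ = 6 ^ 3 * t ^ γ := by norm_num
          _ ≤ (t ^ γ) ^ 3 * t ^ γ := mul_le_mul_of_nonneg_right this (by linarith)
          _ = _ := by ring
      linarith
    have hQ' : 1 ≤ (Q + 1) / 2 := by omega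
    have h1 := hH Y (by linarith) hc1 (hal A) M (fun i => 6 * φ (Y * 2 ^ i))
      (fun i => by have := (hφ01 _ (hYi i)).1; positivity)
      (fun i => by have := (hφ01 _ (hYi i)).2; linarith)
      (fun i => Rg_hal hε (by linarith) hφ (fun X hX => (hφ01 X hX).1) hA (hYi i) (hM1 i))
      hM2 ((Q + 1) / 2) hQ' N I hNI
    have h2 : (((Icc (1 : ℤ) N).filter (fun x => x ∈ VisC d A Y Q)).card : ℝ)
        ≤ (((Icc (1 : ℤ) N).filter (fun n => n ∈ Vis d (hal A) Y ((Q + 1) / 2))).card : ℝ) := by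
      have : (Icc (1 : ℤ) N).filter (fun x => x ∈ VisC d A Y Q)
          ⊆ (Icc (1 : ℤ) N).filter (fun n => n ∈ Vis d (hal A) Y ((Q + 1) / 2)) := by
        intro x hx
        rw [mem_filter] at hx ⊢
        exact ⟨hx.1, VisC_hal (Int.odd_iff.1 hd) hdY hx.2⟩
      exact_mod_cast card_le_card this
    refine h2.trans (h1.trans ?_)
    have hQQ : (Q : ℝ) ≤ 2 * (((Q + 1) / 2 : ℕ) : ℝ) := by
      have : Q ≤ 2 * ((Q + 1) / 2) := by omega
      exact_mod_cast this
    have hQ'R : (0 : ℝ) < (((Q + 1) / 2 : ℕ) : ℝ) := by exact_mod_cast hQ'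
    rw [← mul_sum]
    set S := ∑ i ∈ range I, φ (Y * 2 ^ i) with hS
    have e1 : 6 * S / (((Q + 1) / 2 : ℕ) : ℝ) ≤ 12 * (S / Q) := by
      rw [div_le_iff₀ hQ'R]
      have e2 : 12 * (S / Q) * (((Q + 1) / 2 : ℕ) : ℝ) = 6 * S * (2 * (((Q + 1) / 2 : ℕ) : ℝ) / Q) := by
        field_simp; ring
      rw [e2]
      apply le_mul_of_one_le_right (by positivity)
      rw [le_div_iff₀ hQ0]; linarith
    have e3 : 0 < 1 / Real.log Y ^ B := by positivity
    calc K * N * (6 * S / (((Q + 1) / 2 : ℕ) : ℝ) + 1 / Real.log Y ^ B)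
        ≤ K * N * (12 * (S / Q) + 12 * (1 / Real.log Y ^ B)) := by
          apply mul_le_mul_of_nonneg_left _ (by positivity)
          linarith
      _ = 12 * K * N * (S / Q + 1 / Real.log Y ^ B) := by ring
      _ ≤ _ := by
          apply mul_le_mul_of_nonneg_right _ (by positivity)
          exact mul_le_mul_of_nonneg_right (le_max_left _ _) hN0
  · have h1 : (((Icc (1 : ℤ) N).filter (fun x => x ∈ VisC d A Y Q)).card : ℝ) ≤ N := by
      have : ((Icc (1 : ℤ) N).filter (fun x => x ∈ VisC d A Y Q)).card ≤ N := by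
        refine (card_filter_le _ _).trans ?_
        rw [Int.card_Icc]; omega
      exact_mod_cast this
    refine h1.trans ?_
    have h2 : (N : ℝ) ≤ L ^ B * N * (1 / Real.log Y ^ B) := by
      rw [mul_one_div, le_div_iff₀ (by positivity), mul_comm]
      apply mul_le_mul_of_nonneg_right _ hN0
      exact pow_le_pow_left₀ hlog.le hc.le B
    refine h2.trans ?_
    have h3 : 0 ≤ (∑ i ∈ range I, φ (Y * 2 ^ i)) / Q := by positivity
    calc L ^ B * N * (1 / Real.log Y ^ B) ≤ L ^ B * N * ((∑ i ∈ range I, φ (Y * 2 ^ i)) / Q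
          + 1 / Real.log Y ^ B) := mul_le_mul_of_nonneg_left (by linarith) (by positivity)
      _ ≤ _ := by
          apply mul_le_mul_of_nonneg_right _ (by positivity)
          exact mul_le_mul_of_nonneg_right (le_max_right _ _) hN0

end Pool.Agent.H998_BC
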