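import Pool.Agent.H998_BC.Chain

/-! Visits of trajectories to regular sets, part 4: the number of visits. -/

set_option autoImplicit false

namespace Pool.Agent.H998_BC

open Finset
open Pool.Agent.H320R2.PD Pool.Agent.H499R2.ND
open Pool.Agent.H499R2.CO (Tz)
open Pool.Agent.R344.TH
open Pool.Agent.R344.SP

/-- the trajectory of `x` visits `A₀` at least `Q` times before it goes below `Y` -/
def Vis (d : ℤ) (A₀ : Set ℤ) (Y : ℝ) (Q : ℕ) : Set ℤ := {x : ℤ | ∃ s : Finset ℕ, Q ≤ s.card ∧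
  ∀ k ∈ s, (Tz d)^[k] x ∈ A₀ ∧ ∀ j ≤ k, Y ≤ (((Tz d)^[j] x : ℤ) : ℝ)}

theorem SH_anti {d : ℤ} {A₀ : Set ℤ} {z : ℝ} {h h' : ℕ} (hh : h ≤ h') {x : ℤ}
    (hx : x ∈ SH d A₀ z h') : x ∈ SH d A₀ z h := by
  obtain ⟨k, j₀, h1, h2⟩ := hx
  exact ⟨k, j₀, by omega, h2⟩

open scoped Classical in
/-- the number of visits is at most the number of pairs `(i, h)` with `x ∈ SH (Y 2^i) h` -/
theorem Vis_le {d : ℤ} {A₀ : Set ℤ} {Y : ℝ} (hY : 0 < Y) {Q : ℕ} {x : ℤ} (hx : x ∈ Vis d A₀ Y Q)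
    {I : ℕ} (hI : (x : ℝ) < Y * 2 ^ I) (H : ℕ → ℕ) (hH : ∀ i < I, x ∉ SH d A₀ (Y * 2 ^ i) (H i)) :
    (Q : ℝ) ≤ ∑ i ∈ range I, ∑ h ∈ range (H i), (if x ∈ SH d A₀ (Y * 2 ^ i) h then (1 : ℝ) else 0) := by
  obtain ⟨s, hQ, hs⟩ := hx
  -- the phase of a visit
  have hph : ∀ k ∈ s, ∃ i : ℕ, i < I ∧ (∀ j ≤ k, Y * 2 ^ i ≤ (((Tz d)^[j] x : ℤ) : ℝ)) ∧
      ∃ j ≤ k, (((Tz d)^[j] x : ℤ) : ℝ) < 2 * (Y * 2 ^ i) := by
    intro k hk
    obtain ⟨_, h2⟩ := hs k hk
    obtain ⟨j₀, hj₀, hmin⟩ := Finset.exists_min_image (range (k + 1)) (fun j => (Tz d)^[j] x)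
      ⟨0, by simp⟩
    rw [mem_range] at hj₀
    have hμ := h2 j₀ (by omega)
    obtain ⟨i, hi1, hi2⟩ := exists_nat_pow_near (x := (((Tz d)^[j₀] x : ℤ) : ℝ) / Y) (y := 2)
      (by rw [le_div_iff₀ hY]; linarith) (by norm_num)
    rw [le_div_iff₀ hY] at hi1
    rw [div_lt_iff₀ hY] at hi2
    have hall : ∀ j ≤ k, Y * 2 ^ i ≤ (((Tz d)^[j] x : ℤ) : ℝ) := by
      intro j hj
      have h3 := hmin j (mem_range.2 (by omega))
      have h4 : (((Tz d)^[j₀] x : ℤ) : ℝ) ≤ (((Tz d)^[j] x : ℤ) : ℝ) := by exact_mod_cast h3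
      linarith
    refine ⟨i, ?_, hall, j₀, by omega, by rw [pow_succ] at hi2; linarith⟩
    by_contra hcon
    push Not at hcon
    have h5 := hall 0 (Nat.zero_le _)
    rw [Function.iterate_zero, id] at h5
    have h6 : (2 : ℝ) ^ I ≤ 2 ^ i := pow_le_pow_right₀ (by norm_num) hcon
    have h7 : Y * 2 ^ I ≤ Y * 2 ^ i := mul_le_mul_of_nonneg_left h6 hY.le
    linarith
  -- first time below `2 Y 2^i`
  set P : ℕ → ℕ → Prop := fun i j => (((Tz d)^[j] x : ℤ) : ℝ) < 2 * (Y * 2 ^ i) with hP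
  choose! ph hph1 hph2 hph3 using hph
  have hex : ∀ k ∈ s, ∃ j, P (ph k) j := fun k hk => by
    obtain ⟨j, _, hj⟩ := hph3 k hk
    exact ⟨j, hj⟩
  set j₀ : ℕ → ℕ := fun i => if h : ∃ j, P i j then Nat.find h else 0 with hj₀
  have hj₀spec : ∀ k ∈ s, P (ph k) (j₀ (ph k)) := by
    intro k hk
    simp only [hj₀, dif_pos (hex k hk)]
    exact Nat.find_spec (hex k hk)
  have hj₀le : ∀ k ∈ s, j₀ (ph k) ≤ k := by
    intro k hk
    obtain ⟨j, hj1, hj2⟩ := hph3 k hk
    simp only [hj₀, dif_pos (hex k hk)]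
    exact (Nat.find_min' (hex k hk) hj2).trans hj1
  have hSH : ∀ k ∈ s, x ∈ SH d A₀ (Y * 2 ^ (ph k)) (k - j₀ (ph k)) := by
    intro k hk
    have := hj₀le k hk
    exact ⟨k, j₀ (ph k), by omega, (hs k hk).1, hph2 k hk, hj₀spec k hk⟩
  set W : Finset (Sigma fun _ : ℕ => ℕ) := (range I).sigma (fun i => (range (H i)).filter
    (fun h => x ∈ SH d A₀ (Y * 2 ^ i) h)) with hW
  have hcard : s.card ≤ W.card := by
    apply card_le_card_of_injOn (fun k => (⟨ph k, k - j₀ (ph k)⟩ : Sigma fun _ : ℕ => ℕ))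
    · intro k hk
      have hk' : k ∈ s := hk
      simp only [hW, coe_sigma, Set.mem_sigma_iff, mem_coe, mem_range, mem_filter]
      refine ⟨hph1 k hk', ?_, hSH k hk'⟩
      by_contra hcon
      push Not at hcon
      exact hH (ph k) (hph1 k hk') (SH_anti hcon (hSH k hk'))
    · intro k hk k' hk' hkk
      have hk1 : k ∈ s := hk
      have hk1' : k' ∈ s := hk'
      simp only [Sigma.mk.injEq, heq_eq_eq] at hkk
      obtain ⟨e1, e2⟩ := hkk
      have a1 := hj₀le k hk1
      have a2 := hj₀le k' hk1'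
      rw [e1] at e2 a1
      omega
  have hWc : (W.card : ℝ) = ∑ i ∈ range I, ∑ h ∈ range (H i),
      (if x ∈ SH d A₀ (Y * 2 ^ i) h then (1 : ℝ) else 0) := by
    rw [hW, card_sigma]
    push_cast
    apply sum_congr rfl
    intro i _
    rw [card_filter]
    push_cast
    rfl
  rw [← hWc]
  exact_mod_cast hQ.trans hcard

theorem geom_101 (n : ℕ) : ∑ h ∈ range n, (100 / 101 : ℝ) ^ h ≤ 101 := by
  have h := Summable.sum_le_tsum (f := fun j : ℕ => (100 / 101 : ℝ) ^ j) (range n)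
    (fun j _ => by positivity) (summable_geometric_of_lt_one (by norm_num) (by norm_num))
  rw [tsum_geometric_of_lt_one (by norm_num) (by norm_num)] at h
  norm_num at h
  linarith

open scoped Classical in
/-- odd starting points -/
theorem Vis_odd {d : ℤ} (hd : Odd d) (hd3 : IsCoprime d 3) {γ : ℝ} (hγ0 : 0 < γ) (hγ : γ ≤ 1 / 2)
    (B : ℕ) :
    ∃ l₀ K : ℝ, 0 < l₀ ∧ 0 < K ∧ ∀ Y : ℝ, 0 < Y → l₀ ≤ Real.log Y →
      ∀ (A₀ : Set ℤ) (M : ℕ → ℕ) (φ : ℕ → ℝ), (∀ i, 0 ≤ φ i) → (∀ i, φ i ≤ 6) →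
      (∀ i, Rg A₀ (Y * 2 ^ i) (M i) (φ i)) → (∀ i, 203 * (Real.log (Y * 2 ^ i)) ^ γ ≤ M i) →
      ∀ (Q : ℕ), 1 ≤ Q → ∀ (X : ℝ) (I : ℕ), 0 < X → X < Y * 2 ^ I →
        (((Icc (1 : ℤ) ⌊X⌋).filter (fun x => Odd x ∧ x ∈ Vis d A₀ Y Q)).card : ℝ)
          ≤ K * X * ((∑ i ∈ range I, φ i) / Q + 1 / (Real.log Y) ^ B) := by
  obtain ⟨l₀, K, hl₀, hK, hPB⟩ := SH_PB hd hd3 hγ0 hγ (B + 3) (by omega)
  set D : ℝ := ((B + 2).factorial * 101 ^ (B + 2) : ℝ) with hD
  have hD0 : 0 < D := by rw [hD]; positivity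
  refine ⟨max l₀ 1, 20200 + 4 * (2 * K) + 4 * (1200 * D + K), by positivity, by positivity, ?_⟩
  intro Y hY hl A₀ M φ hφ0 hφ1 hR hM Q hQ X I hX hXI
  set l := Real.log Y with hldef
  have hll : l₀ ≤ l := (le_max_left _ _).trans hl
  have hl1 : 1 ≤ l := (le_max_right _ _).trans hl
  have hl0 : 0 < l := by linarith
  have hlog : ∀ i : ℕ, Real.log (Y * 2 ^ i) = l + i * Real.log 2 := by
    intro i
    rw [Real.log_mul hY.ne' (by positivity), Real.log_pow]
  have hlog2 : ∀ i : ℕ, 0 ≤ (i : ℝ) * Real.log 2 := fun i => by positivity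
  set H : ℕ → ℕ := fun i => ⌈l + i * Real.log 2⌉₊ with hHdef
  set F := (Icc (1 : ℤ) ⌊X⌋).filter (fun x => Odd x ∧ x ∈ Vis d A₀ Y Q) with hF
  set G : ℕ → ℕ → Finset ℤ := fun i h => (Icc (1 : ℤ) ⌊X⌋).filter
    (fun x => Odd x ∧ x ∈ SH d A₀ (Y * 2 ^ i) h) with hG
  -- the counts
  have hGc : ∀ i h, ((G i h).card : ℝ) ≤ (200 * φ i * (100 / 101) ^ h
      + K / (l + i * Real.log 2) ^ (B + 3)) * X := by
    intro i h
    have hYi : 0 < Y * 2 ^ i := by positivity
    have h3 := odd_count (S := SH d A₀ (Y * 2 ^ i) h) (z := Y * 2 ^ i)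
      (ρ := 200 * φ i * (100 / 101) ^ h + K / (Real.log (Y * 2 ^ i)) ^ (B + 3)) (X := X)
      (by
        rw [hlog]
        have := hlog2 i
        have := hφ0 i
        positivity) (fun x hx => SH_ge hx)
      (fun A hA => hPB (Y * 2 ^ i) hYi (by rw [hlog]; linarith [hlog2 i]) A₀ (M i) (φ i) (hφ0 i)
        (hR i) (hM i) h A hA 0 (by
          rw [Nat.cast_zero]
          apply Real.rpow_nonneg
          apply Real.log_nonneg
          have h2Y : 2 ≤ Y := by
            have := Real.add_one_le_exp l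
            rw [Real.exp_log hY] at this
            linarith
          have : (1 : ℝ) ≤ 2 ^ i := one_le_pow₀ (by norm_num)
          nlinarith)) hX
    rw [hlog] at h3
    exact h3
  -- the exceptional set
  set E := (range I).biUnion (fun i => G i (H i)) with hE
  have hEc : (E.card : ℝ) ≤ 4 * (1200 * D + K) * X / l ^ B := by
    have h1 : (E.card : ℝ) ≤ ∑ i ∈ range I, ((G i (H i)).card : ℝ) := by
      rw [hE]
      exact_mod_cast card_biUnion_le
    refine h1.trans ?_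
    have h2 : ∀ i ∈ range I, ((G i (H i)).card : ℝ)
        ≤ (1200 * D + K) * X * (1 / (l + i * Real.log 2) ^ (B + 2)) := by
      intro i _
      refine (hGc i (H i)).trans ?_
      set t := l + i * Real.log 2 with ht
      have ht1 : 1 ≤ t := by rw [ht]; linarith [hlog2 i]
      have ht0 : 0 < t := by linarith
      have hH1 : t ≤ H i := by rw [hHdef]; exact Nat.le_ceil _
      have hpow : (100 / 101 : ℝ) ^ (H i) ≤ D / t ^ (B + 2) := by
        have e1 : (100 / 101 : ℝ) ≤ Real.exp (-(1 / 101)) := by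
          have := Real.add_one_le_exp (-(1 / 101 : ℝ))
          linarith
        calc (100 / 101 : ℝ) ^ (H i) ≤ (Real.exp (-(1 / 101))) ^ (H i) :=
              pow_le_pow_left₀ (by norm_num) e1 _
          _ = Real.exp (H i * -(1 / 101)) := by rw [← Real.exp_nat_mul]
          _ ≤ Real.exp (-(t / 101)) := by
              apply Real.exp_le_exp.2
              linarith
          _ ≤ D / t ^ (B + 2) := exp_neg_le (B + 2) (by norm_num) ht0
      have e2 : 200 * φ i * (100 / 101) ^ (H i) ≤ 200 * 6 * (D / t ^ (B + 2)) := by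
        apply mul_le_mul _ hpow (by positivity) (by norm_num)
        have := hφ1 i
        linarith
      have e3 : K / t ^ (B + 3) ≤ K / t ^ (B + 2) := by
        apply div_le_div_of_nonneg_left hK.le (by positivity)
        exact pow_le_pow_right₀ ht1 (by omega)
      calc (200 * φ i * (100 / 101) ^ (H i) + K / t ^ (B + 3)) * X
          ≤ (200 * 6 * (D / t ^ (B + 2)) + K / t ^ (B + 2)) * X :=
            mul_le_mul_of_nonneg_right (add_le_add e2 e3) hX.le
        _ = _ := by ring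
    refine (sum_le_sum h2).trans ?_
    rw [← mul_sum]
    have h4 := sum_scales B hl1 I
    calc (1200 * D + K) * X * ∑ i ∈ range I, 1 / (l + i * Real.log 2) ^ (B + 2)
        ≤ (1200 * D + K) * X * (4 / l ^ B) := mul_le_mul_of_nonneg_left h4 (by positivity)
      _ = _ := by ring
  -- the other integers
  have hQ0 : (0 : ℝ) < Q := by exact_mod_cast hQ
  have hrest : (((F \ E).card : ℕ) : ℝ) * Q ≤ ∑ i ∈ range I, ∑ h ∈ range (H i), ((G i h).card : ℝ) := by
    have h1 : ∀ x ∈ F \ E, (Q : ℝ) ≤ ∑ i ∈ range I, ∑ h ∈ range (H i),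
        (if x ∈ SH d A₀ (Y * 2 ^ i) h then (1 : ℝ) else 0) := by
      intro x hx
      rw [mem_sdiff] at hx
      obtain ⟨hxF, hxE⟩ := hx
      rw [hF, mem_filter, Finset.mem_Icc, Int.le_floor] at hxF
      apply Vis_le hY hxF.2.2 (lt_of_le_of_lt hxF.1.2 hXI) H
      intro i hi hcon
      apply hxE
      rw [hE, mem_biUnion]
      refine ⟨i, mem_range.2 hi, ?_⟩
      rw [hG]
      simp only [mem_filter, Finset.mem_Icc, Int.le_floor]
      exact ⟨hxF.1, hxF.2.1, hcon⟩
    calc (((F \ E).card : ℕ) : ℝ) * Q = ∑ _x ∈ F \ E, (Q : ℝ) := by rw [sum_const, nsmul_eq_mul]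
      _ ≤ ∑ x ∈ F \ E, ∑ i ∈ range I, ∑ h ∈ range (H i),
          (if x ∈ SH d A₀ (Y * 2 ^ i) h then (1 : ℝ) else 0) := sum_le_sum h1
      _ = ∑ i ∈ range I, ∑ h ∈ range (H i), ∑ x ∈ F \ E,
          (if x ∈ SH d A₀ (Y * 2 ^ i) h then (1 : ℝ) else 0) := by
          rw [sum_comm]
          apply sum_congr rfl
          intro i _
          rw [sum_comm]
      _ ≤ _ := by
          apply sum_le_sum
          intro i _
          apply sum_le_sum
          intro h _
          have : ∑ x ∈ F \ E, (if x ∈ SH d A₀ (Y * 2 ^ i) h then (1 : ℝ) else 0)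
              = (((F \ E).filter (fun x => x ∈ SH d A₀ (Y * 2 ^ i) h)).card : ℝ) := by
            rw [card_filter]; push_cast; rfl
          rw [this]
          have hsub : (F \ E).filter (fun x => x ∈ SH d A₀ (Y * 2 ^ i) h) ⊆ G i h := by
            intro x hx
            rw [mem_filter, mem_sdiff] at hx
            obtain ⟨⟨hxF, _⟩, hx2⟩ := hx
            rw [hF, mem_filter] at hxF
            rw [hG]
            simp only [mem_filter]
            exact ⟨hxF.1, hxF.2.1, hx2⟩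
          exact_mod_cast card_le_card hsub
  have hsum : ∑ i ∈ range I, ∑ h ∈ range (H i), ((G i h).card : ℝ)
      ≤ 20200 * X * (∑ i ∈ range I, φ i) + 4 * (2 * K) * X / l ^ B := by
    have h2 : ∀ i ∈ range I, ∑ h ∈ range (H i), ((G i h).card : ℝ)
        ≤ 20200 * X * φ i + 2 * K * X * (1 / (l + i * Real.log 2) ^ (B + 2)) := by
      intro i _
      set t := l + i * Real.log 2 with ht
      have ht1 : 1 ≤ t := by rw [ht]; linarith [hlog2 i]
      have ht0 : 0 < t := by linarith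
      have hH2 : (H i : ℝ) ≤ 2 * t := by
        rw [hHdef]
        have := (Nat.ceil_lt_add_one ht0.le).le
        simp only
        linarith
      calc ∑ h ∈ range (H i), ((G i h).card : ℝ)
          ≤ ∑ h ∈ range (H i), (200 * φ i * (100 / 101) ^ h + K / t ^ (B + 3)) * X :=
            sum_le_sum fun h _ => hGc i h
        _ = 200 * φ i * X * (∑ h ∈ range (H i), (100 / 101 : ℝ) ^ h) + (H i) * (K / t ^ (B + 3) * X) := by
            rw [mul_sum, ← nsmul_eq_mul, ← card_range (H i), ← sum_const, card_range, ← sum_add_distrib]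
            apply sum_congr rfl
            intro h _
            ring
        _ ≤ 200 * φ i * X * 101 + (2 * t) * (K / t ^ (B + 3) * X) := by
            apply add_le_add
            · have := hφ0 i
              exact mul_le_mul_of_nonneg_left (geom_101 _) (by positivity)
            · exact mul_le_mul_of_nonneg_right hH2 (by positivity)
        _ = _ := by
            rw [pow_succ t (B + 2)]
            field_simp
            ring
    refine (sum_le_sum h2).trans ?_
    rw [sum_add_distrib, ← mul_sum, ← mul_sum]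
    have h4 := sum_scales B hl1 I
    have h5 : 2 * K * X * ∑ i ∈ range I, 1 / (l + i * Real.log 2) ^ (B + 2) ≤ 2 * K * X * (4 / l ^ B) :=
      mul_le_mul_of_nonneg_left h4 (by positivity)
    have h6 : 2 * K * X * (4 / l ^ B) = 4 * (2 * K) * X / l ^ B := by ring
    linarith
  have hFE : (F.card : ℝ) ≤ ((F \ E).card : ℝ) + (E.card : ℝ) := by
    have h1 : F ⊆ (F \ E) ∪ E := by
      intro x hx
      rw [mem_union, mem_sdiff]
      by_cases h : x ∈ E
      · exact Or.inr h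
      · exact Or.inl ⟨hx, h⟩
    have := (card_le_card h1).trans (card_union_le _ _)
    exact_mod_cast this
  have hS0 : 0 ≤ ∑ i ∈ range I, φ i := sum_nonneg fun i _ => hφ0 i
  have h7 : ((F \ E).card : ℝ) ≤ 20200 * X * ((∑ i ∈ range I, φ i) / Q) + 4 * (2 * K) * X / l ^ B := by
    have h8 := hrest.trans hsum
    have h9 : ((F \ E).card : ℝ) ≤ (20200 * X * (∑ i ∈ range I, φ i) + 4 * (2 * K) * X / l ^ B) / Q := by
      rw [le_div_iff₀ hQ0]; exact h8
    refine h9.trans ?_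
    rw [add_div]
    apply add_le_add
    · apply le_of_eq; ring
    · apply div_le_self (by positivity)
      exact_mod_cast hQ
  have hfin : (20200 + 4 * (2 * K) + 4 * (1200 * D + K)) * X * ((∑ i ∈ range I, φ i) / Q + 1 / l ^ B)
      = 20200 * X * ((∑ i ∈ range I, φ i) / Q) + 4 * (2 * K) * X / l ^ B + 4 * (1200 * D + K) * X / l ^ B
        + ((4 * (2 * K) + 4 * (1200 * D + K)) * X * ((∑ i ∈ range I, φ i) / Q) + 20200 * X / l ^ B) := by
    ring
  rw [hfin]
  have h10 : 0 ≤ (4 * (2 * K) + 4 * (1200 * D + K)) * X * ((∑ i ∈ range I, φ i) / Q) + 20200 * X / l ^ B := by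
    positivity
  linarith

end Pool.Agent.H998_BC
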