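import Pool.Agent.H998_BC.Count

/-! Visits of trajectories to regular sets, part 5: all starting points. -/

set_option autoImplicit false

namespace Pool.Agent.H998_BC

open Finset
open Pool.Agent.H320R2.PD Pool.Agent.H499R2.ND
open Pool.Agent.H499R2.CO (Tz)
open Pool.Agent.R344.TH
open Pool.Agent.R344.SP

/-- the elements of a regular set -/
theorem fA_le {A₀ : Set ℤ} {Y : ℝ} (hY : 0 < Y) {M : ℕ → ℕ} {φ : ℕ → ℝ} (hφ0 : ∀ i, 0 ≤ φ i)
    (hR : ∀ i, Rg A₀ (Y * 2 ^ i) (M i) (φ i)) {X : ℝ} {I : ℕ} (hX : 0 ≤ X) (hXI : X < Y * 2 ^ I) :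
    ((fA A₀ Y X).card : ℝ) ≤ X * ∑ i ∈ range I, φ i := by
  classical
  have hsub : fA A₀ Y X ⊆ ((range I).filter (fun i : ℕ => Y * 2 ^ i ≤ X)).biUnion
      (fun i => (WC (Y * 2 ^ i) 0 0).filter (fun x : ℤ => Y * 2 ^ i ≤ (x : ℝ) ∧ x ∈ A₀)) := by
    intro x hx
    rw [mem_fA] at hx
    obtain ⟨⟨h1, h2⟩, h3⟩ := hx
    obtain ⟨i, hi1, hi2⟩ := exists_nat_pow_near (x := (x : ℝ) / Y) (y := 2)
      (by rw [le_div_iff₀ hY]; linarith) (by norm_num)
    rw [le_div_iff₀ hY] at hi1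
    rw [div_lt_iff₀ hY] at hi2
    rw [mem_biUnion]
    refine ⟨i, ?_, ?_⟩
    · rw [mem_filter, mem_range]
      refine ⟨?_, by linarith⟩
      by_contra hcon
      push Not at hcon
      have h6 : (2 : ℝ) ^ I ≤ 2 ^ i := pow_le_pow_right₀ (by norm_num) hcon
      have h7 : Y * 2 ^ I ≤ Y * 2 ^ i := mul_le_mul_of_nonneg_left h6 hY.le
      linarith
    · rw [mem_filter, mem_WC]
      rw [pow_succ] at hi2
      exact ⟨⟨⟨by linarith, by linarith⟩, by simp⟩, by linarith, h3⟩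
  have h1 : ((fA A₀ Y X).card : ℝ) ≤ ∑ i ∈ (range I).filter (fun i : ℕ => Y * 2 ^ i ≤ X),
      (((WC (Y * 2 ^ i) 0 0).filter (fun x : ℤ => Y * 2 ^ i ≤ (x : ℝ) ∧ x ∈ A₀)).card : ℝ) := by
    exact_mod_cast (card_le_card hsub).trans card_biUnion_le
  refine h1.trans ?_
  calc ∑ i ∈ (range I).filter (fun i : ℕ => Y * 2 ^ i ≤ X),
      (((WC (Y * 2 ^ i) 0 0).filter (fun x : ℤ => Y * 2 ^ i ≤ (x : ℝ) ∧ x ∈ A₀)).card : ℝ)
      ≤ ∑ i ∈ (range I).filter (fun i : ℕ => Y * 2 ^ i ≤ X), X * φ i := by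
        apply sum_le_sum
        intro i hi
        rw [mem_filter] at hi
        have h2 := hR i (Y * 2 ^ i) (by positivity) 0 (Nat.zero_le _) 0
        rw [pow_zero, div_one] at h2
        refine h2.trans ?_
        rw [mul_comm]
        exact mul_le_mul_of_nonneg_right hi.2 (hφ0 i)
    _ ≤ ∑ i ∈ range I, X * φ i :=
        sum_le_sum_of_subset_of_nonneg (filter_subset _ _) fun i _ _ => mul_nonneg hX (hφ0 i)
    _ = _ := by rw [mul_sum]

open scoped Classical in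
/-- all starting points -/
theorem Vis_count {d : ℤ} (hd : Odd d) (hd3 : IsCoprime d 3) {γ : ℝ} (hγ0 : 0 < γ) (hγ : γ ≤ 1 / 2)
    (B : ℕ) :
    ∃ l₀ K : ℝ, 0 < l₀ ∧ 0 < K ∧ ∀ Y : ℝ, 0 < Y → l₀ ≤ Real.log Y →
      ∀ (A₀ : Set ℤ) (M : ℕ → ℕ) (φ : ℕ → ℝ), (∀ i, 0 ≤ φ i) → (∀ i, φ i ≤ 6) →
      (∀ i, Rg A₀ (Y * 2 ^ i) (M i) (φ i)) → (∀ i, 203 * (Real.log (Y * 2 ^ i)) ^ γ ≤ M i) →
      ∀ (Q : ℕ), 1 ≤ Q → ∀ (N I : ℕ), (N : ℝ) < Y * 2 ^ I →
        (((Icc (1 : ℤ) N).filter (fun x => x ∈ Vis d A₀ Y Q)).card : ℝ)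
          ≤ K * N * ((∑ i ∈ range I, φ i) / Q + 1 / (Real.log Y) ^ B) := by
  obtain ⟨l₀, K, hl₀, hK, hO⟩ := Vis_odd hd hd3 hγ0 hγ B
  refine ⟨max l₀ 1, 4 * K + 4, by positivity, by positivity, ?_⟩
  intro Y hY hl A₀ M φ hφ0 hφ1 hR hM Q hQ N I hNI
  set l := Real.log Y with hldef
  have hll : l₀ ≤ l := (le_max_left _ _).trans hl
  have hl1 : 1 ≤ l := (le_max_right _ _).trans hl
  have hl0 : 0 < l := by linarith
  rcases Nat.eq_zero_or_pos N with rfl | hN
  · simp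
  have hNR : (0 : ℝ) < N := by exact_mod_cast hN
  obtain ⟨Q', hQ'⟩ : ∃ Q' : ℕ, Q' = (Q + 1) / 2 := ⟨_, rfl⟩
  have hQ'1 : 1 ≤ Q' := by omega
  have hQQ' : Q ≤ 2 * Q' := by omega
  have hQR : (0 : ℝ) < Q := by exact_mod_cast hQ
  have hQ'R : (0 : ℝ) < Q' := by exact_mod_cast hQ'1
  have hQQ'R : (Q : ℝ) ≤ 2 * Q' := by exact_mod_cast hQQ'
  set Sφ : ℝ := ∑ i ∈ range I, φ i with hS
  have hS0 : 0 ≤ Sφ := sum_nonneg fun i _ => hφ0 i
  obtain ⟨E, hE⟩ : ∃ E : ℕ, (N : ℝ) < 2 ^ E := pow_unbounded_of_one_lt _ (by norm_num)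
  have hhalf : ∀ e : ℕ, (N : ℝ) * (1 / 2) ^ e ≤ N := fun e =>
    mul_le_of_le_one_right hNR.le (pow_le_one₀ (by norm_num) (by norm_num))
  set F₁ : ℕ → Finset ℤ := fun e => ((Icc (1 : ℤ) ⌊(N : ℝ) * (1 / 2) ^ e⌋).filter
    (fun x => Odd x ∧ x ∈ Vis d A₀ Y Q')).image (fun x => 2 ^ e * x) with hF₁
  -- visits during the first halvings
  set G : ℕ → Finset ℤ := fun k => (Icc (1 : ℤ) N).filter
    (fun n => ∃ a ∈ fA A₀ Y ((N : ℝ) * (1 / 2) ^ k), n = 2 ^ k * a) with hG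
  set F₂ : Finset ℤ := (Icc (1 : ℤ) N).filter
    (fun n => (Q' : ℝ) ≤ ∑ k ∈ range E, (if n ∈ G k then (1 : ℝ) else 0)) with hF₂
  have hsub : (Icc (1 : ℤ) N).filter (fun n => n ∈ Vis d A₀ Y Q) ⊆ (range E).biUnion F₁ ∪ F₂ := by
    intro n hn
    rw [mem_filter] at hn
    obtain ⟨hnI, s, hs1, hs2⟩ := hn
    have hnI' := hnI
    rw [Finset.mem_Icc] at hnI
    obtain ⟨hn1, hn2⟩ := hnI
    obtain ⟨e, m, hmo, hm0, hnm⟩ := odd_part (by omega : 0 < n)
    have hnNR : (n : ℝ) ≤ N := by exact_mod_cast hn2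
    have hnmR : (n : ℝ) = 2 ^ e * m := by exact_mod_cast hnm
    have hm1 : (1 : ℝ) ≤ m := by
      have : (1 : ℤ) ≤ m := by omega
      exact_mod_cast this
    have hbnd : ∀ i ≤ e, i < E := by
      intro i hi
      by_contra hcon
      push Not at hcon
      have h1 : (2 : ℝ) ^ E ≤ 2 ^ e := pow_le_pow_right₀ (by norm_num) (by omega)
      have h2 : (2 : ℝ) ^ e ≤ n := by rw [hnmR]; exact le_mul_of_one_le_right (by positivity) hm1
      linarith
    have hcards := card_filter_add_card_filter_not (s := s) (fun k => k < e)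
    have hor : Q' ≤ (s.filter (fun k => ¬ k < e)).card ∨ Q' ≤ (s.filter (fun k => k < e)).card := by
      omega
    rw [mem_union, mem_biUnion]
    rcases hor with hor | hor
    · left
      refine ⟨e, mem_range.2 (hbnd e le_rfl), ?_⟩
      rw [hF₁]
      simp only [mem_image, mem_filter, Finset.mem_Icc, Int.le_floor]
      have hTe : (Tz d)^[e] n = m := by
        rw [hnm, iter_pow_two m e e le_rfl]; simp
      have hsh : ∀ j, (Tz d)^[j] m = (Tz d)^[j + e] n := by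
        intro j
        rw [Function.iterate_add_apply, hTe]
      refine ⟨m, ⟨⟨by omega, ?_⟩, hmo, (s.filter (fun k => ¬ k < e)).image (fun k => k - e), ?_, ?_⟩,
        hnm.symm⟩
      · rw [one_div, inv_pow, ← div_eq_mul_inv, le_div_iff₀ (by positivity)]
        linarith
      · rw [card_image_of_injOn]
        · exact hor
        · intro a ha b hb hab
          have ha' := (mem_filter.1 ha).2
          have hb' := (mem_filter.1 hb).2
          simp only at hab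
          omega
      · intro k hk
        rw [mem_image] at hk
        obtain ⟨k', hk', rfl⟩ := hk
        rw [mem_filter] at hk'
        have h4 := hs2 k' hk'.1
        refine ⟨?_, ?_⟩
        · rw [hsh, Nat.sub_add_cancel (by omega)]; exact h4.1
        · intro j hj
          rw [hsh]; exact h4.2 _ (by omega)
    · right
      rw [hF₂, mem_filter]
      refine ⟨hnI', ?_⟩
      have h5 : ((s.filter (fun k => k < e)).card : ℝ)
          ≤ ∑ k ∈ range E, (if n ∈ G k then (1 : ℝ) else 0) := by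
        have h6 : s.filter (fun k => k < e) ⊆ (range E).filter (fun k => n ∈ G k) := by
          intro k hk
          rw [mem_filter] at hk
          have hek := hk.2
          rw [mem_filter, mem_range]
          refine ⟨hbnd k hek.le, ?_⟩
          rw [hG]
          simp only [mem_filter]
          refine ⟨hnI', 2 ^ (e - k) * m, ?_, ?_⟩
          · have hTk : (Tz d)^[k] n = 2 ^ (e - k) * m := by
              rw [hnm, iter_pow_two m k e hek.le]
            rw [mem_fA, ← hTk]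
            refine ⟨⟨(hs2 k hk.1).2 k le_rfl, ?_⟩, (hs2 k hk.1).1⟩
            rw [hTk, one_div, inv_pow, ← div_eq_mul_inv, le_div_iff₀ (by positivity)]
            push_cast
            calc (2 : ℝ) ^ (e - k) * m * 2 ^ k = (2 ^ (e - k) * 2 ^ k) * m := by ring
              _ = 2 ^ e * m := by rw [← pow_add, Nat.sub_add_cancel hek.le]
              _ ≤ N := by rw [← hnmR]; exact hnNR
          · rw [← mul_assoc, ← pow_add, Nat.add_sub_cancel' hek.le]; exact hnm
        have h7 : ∑ k ∈ range E, (if n ∈ G k then (1 : ℝ) else 0)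
            = (((range E).filter (fun k => n ∈ G k)).card : ℝ) := by
          rw [card_filter]; push_cast; rfl
        rw [h7]
        exact_mod_cast card_le_card h6
      have h8 : (Q' : ℝ) ≤ ((s.filter (fun k => k < e)).card : ℝ) := by exact_mod_cast hor
      linarith
  have hc1 : (((Icc (1 : ℤ) N).filter (fun n => n ∈ Vis d A₀ Y Q)).card : ℝ)
      ≤ ∑ e ∈ range E, ((F₁ e).card : ℝ) + (F₂.card : ℝ) := by
    have h1 := (card_le_card hsub).trans (card_union_le _ _)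
    have h2 : ((range E).biUnion F₁).card ≤ ∑ e ∈ range E, (F₁ e).card := card_biUnion_le
    have h4 := h1.trans (add_le_add h2 (le_refl F₂.card))
    exact_mod_cast h4
  have hF₁c : ∀ e ∈ range E, ((F₁ e).card : ℝ)
      ≤ K * (Sφ / Q' + 1 / l ^ B) * N * (1 / 2) ^ e := by
    intro e _
    have h1 : ((F₁ e).card : ℝ) ≤ (((Icc (1 : ℤ) ⌊(N : ℝ) * (1 / 2) ^ e⌋).filter
      (fun x => Odd x ∧ x ∈ Vis d A₀ Y Q')).card : ℝ) := by exact_mod_cast card_image_le
    refine h1.trans ((hO Y hY hll A₀ M φ hφ0 hφ1 hR hM Q' hQ'1 ((N : ℝ) * (1 / 2) ^ e) I (by positivity)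
      (lt_of_le_of_lt (hhalf e) hNI)).trans (le_of_eq ?_))
    ring
  have hgeo := geom_half E
  have hs1 : ∑ e ∈ range E, ((F₁ e).card : ℝ) ≤ 4 * K * N * (Sφ / Q + 1 / l ^ B) := by
    refine (sum_le_sum hF₁c).trans ?_
    rw [← mul_sum]
    have h0 : 0 ≤ Sφ / Q' + 1 / l ^ B := by positivity
    have h1 : Sφ / Q' + 1 / l ^ B ≤ 2 * (Sφ / Q + 1 / l ^ B) := by
      have e1 : Sφ / Q' ≤ 2 * (Sφ / Q) := by
        rw [div_le_iff₀ hQ'R]
        have e2 : 2 * (Sφ / Q) * Q' = Sφ * (2 * Q' / Q) := by field_simp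
        rw [e2]
        apply le_mul_of_one_le_right hS0
        rw [le_div_iff₀ hQR]; linarith
      have e3 : 0 < 1 / l ^ B := by positivity
      linarith
    calc K * (Sφ / Q' + 1 / l ^ B) * N * ∑ i ∈ range E, (1 / 2 : ℝ) ^ i
        ≤ K * (Sφ / Q' + 1 / l ^ B) * N * 2 := mul_le_mul_of_nonneg_left hgeo (by positivity)
      _ = 2 * K * N * (Sφ / Q' + 1 / l ^ B) := by ring
      _ ≤ 2 * K * N * (2 * (Sφ / Q + 1 / l ^ B)) := mul_le_mul_of_nonneg_left h1 (by positivity)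
      _ = _ := by ring
  have hs2 : (F₂.card : ℝ) ≤ 4 * N * (Sφ / Q) := by
    have h1 : (F₂.card : ℝ) * Q' ≤ ∑ k ∈ range E, ((G k).card : ℝ) := by
      calc (F₂.card : ℝ) * Q' = ∑ _n ∈ F₂, (Q' : ℝ) := by rw [sum_const, nsmul_eq_mul]
        _ ≤ ∑ n ∈ F₂, ∑ k ∈ range E, (if n ∈ G k then (1 : ℝ) else 0) :=
            sum_le_sum fun n hn => (mem_filter.1 hn).2
        _ = ∑ k ∈ range E, ∑ n ∈ F₂, (if n ∈ G k then (1 : ℝ) else 0) := sum_comm
        _ ≤ _ := by
            apply sum_le_sum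
            intro k _
            have : ∑ n ∈ F₂, (if n ∈ G k then (1 : ℝ) else 0)
                = ((F₂.filter (fun n => n ∈ G k)).card : ℝ) := by
              rw [card_filter]; push_cast; rfl
            rw [this]
            have hsub2 : F₂.filter (fun n => n ∈ G k) ⊆ G k := fun n hn => (mem_filter.1 hn).2
            exact_mod_cast card_le_card hsub2
    have h2 : ∀ k ∈ range E, ((G k).card : ℝ) ≤ N * Sφ * (1 / 2) ^ k := by
      intro k _
      have h3 : G k ⊆ (fA A₀ Y ((N : ℝ) * (1 / 2) ^ k)).image (fun a => 2 ^ k * a) := by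
        intro n hn
        rw [hG] at hn
        simp only [mem_filter] at hn
        obtain ⟨_, a, ha, hna⟩ := hn
        rw [mem_image]
        exact ⟨a, ha, hna.symm⟩
      have h4 : ((G k).card : ℝ) ≤ ((fA A₀ Y ((N : ℝ) * (1 / 2) ^ k)).card : ℝ) := by
        exact_mod_cast (card_le_card h3).trans card_image_le
      have h5 := fA_le hY hφ0 hR (X := (N : ℝ) * (1 / 2) ^ k) (I := I) (by positivity)
        (lt_of_le_of_lt (hhalf k) hNI)
      refine h4.trans (h5.trans (le_of_eq ?_))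
      rw [hS]; ring
    have h6 : (F₂.card : ℝ) * Q' ≤ 2 * N * Sφ := by
      refine h1.trans ((sum_le_sum h2).trans ?_)
      rw [← mul_sum]
      calc N * Sφ * ∑ i ∈ range E, (1 / 2 : ℝ) ^ i ≤ N * Sφ * 2 :=
            mul_le_mul_of_nonneg_left hgeo (by positivity)
        _ = _ := by ring
    have h7 : (F₂.card : ℝ) * Q ≤ 4 * N * Sφ := by
      have : (F₂.card : ℝ) * Q ≤ (F₂.card : ℝ) * (2 * Q') :=
        mul_le_mul_of_nonneg_left hQQ'R (Nat.cast_nonneg _)
      linarith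
    have h8 : 4 * N * (Sφ / Q) = 4 * N * Sφ / Q := by ring
    rw [h8, le_div_iff₀ hQR]
    exact h7
  have hfin : (4 * K + 4) * N * (Sφ / Q + 1 / l ^ B)
      = 4 * K * N * (Sφ / Q + 1 / l ^ B) + 4 * N * (Sφ / Q) + 4 * N * (1 / l ^ B) := by ring
  rw [hfin]
  have h9 : 0 ≤ 4 * N * (1 / l ^ B) := by positivity
  linarith

end Pool.Agent.H998_BC
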