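import Pool.Agent.H998_BC.Pr

/-! Primes on trajectories: the counts. -/

set_option autoImplicit false

namespace Pool.Agent.H998_BC

open Finset Filter Topology

theorem tele_sum {f g : ℝ → ℝ} {a c : ℝ} (h : ∀ i : ℕ, g (a + i * c) ≤ f (a + i * c - c) - f (a + i * c)) :
    ∀ I : ℕ, ∑ i ∈ range I, g (a + i * c) ≤ f (a - c) - f (a + I * c - c)
  | 0 => by simp
  | I + 1 => by
    have ih := tele_sum h I
    have h1 := h I
    rw [sum_range_succ]
    have e : a + ((I + 1 : ℕ) : ℝ) * c - c = a + I * c := by push_cast; ring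
    rw [e]
    linarith

theorem log_diff {x c : ℝ} (hc : 0 ≤ c) (hx : c < x) : c / x ≤ Real.log x - Real.log (x - c) := by
  have hx0 : 0 < x := by linarith
  have h1 : 0 < x - c := by linarith
  rw [← Real.log_div hx0.ne' h1.ne']
  have h2 := Real.one_sub_inv_le_log_of_pos (x := x / (x - c)) (by positivity)
  have h3 : 1 - (x / (x - c))⁻¹ = c / x := by rw [inv_div]; field_simp; ring
  linarith

/-- visits of a set with the regularity `K g` -/
theorem quant_gen {S : Set ℕ} {K X₀ : ℝ} {g : ℝ → ℝ} (hK : 0 < K) (hX₀ : 2 ≤ X₀)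
    (hg : AntitoneOn g (Set.Ici X₀)) (hg0 : ∀ X, X₀ ≤ X → 0 ≤ g X) (hlim : Tendsto g atTop (𝓝 0))
    (hR : Regular S (1 / 2) X₀ (fun X => K * g X)) (B : ℕ) :
    ∃ K' Y₀ : ℝ, 0 < K' ∧ X₀ ≤ Y₀ ∧ ∀ Y : ℝ, Y₀ ≤ Y → ∀ Q : ℕ, 1 ≤ Q → ∀ N I : ℕ,
      (N : ℝ) < Y * 2 ^ I → (Set.ncard {n : ℕ | 1 ≤ n ∧ n ≤ N ∧ Visits S Y Q n} : ℝ)
        ≤ K' * N * ((∑ i ∈ range I, g (Y * 2 ^ i)) / Q + 1 / (Real.log Y) ^ B) := by
  obtain ⟨K₁, hK₁, h⟩ := Visits_count (ε := 1 / 2) (by norm_num) B
  obtain ⟨X₁, hX₁⟩ := Filter.eventually_atTop.1 (hlim.eventually_le_const (show (0 : ℝ) < 1 / K by positivity))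
  refine ⟨K₁ * (K + 1), max X₀ X₁, by positivity, le_max_left _ _, ?_⟩
  intro Y hY Q hQ N I hNI
  have hY0 : X₀ ≤ Y := (le_max_left _ _).trans hY
  have hY1 : X₁ ≤ Y := (le_max_right _ _).trans hY
  have h1 := h Y (by linarith) (fun X => K * g X)
    (fun x hx y hy hxy => mul_le_mul_of_nonneg_left (hg (Set.mem_Ici.2 (hY0.trans hx))
      (Set.mem_Ici.2 (hY0.trans hy)) hxy) hK.le)
    (fun X hX => ⟨mul_nonneg hK.le (hg0 X (hY0.trans hX)), by
      have := hX₁ X (hY1.trans hX)
      rw [le_div_iff₀ hK] at this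
      linarith⟩) S (fun X hX => hR X (hY0.trans hX)) Q hQ N I hNI
  refine h1.trans ?_
  have hS0 : 0 ≤ ∑ i ∈ range I, g (Y * 2 ^ i) := sum_nonneg fun i _ => by
    apply hg0
    have : (1 : ℝ) ≤ 2 ^ i := one_le_pow₀ (by norm_num)
    nlinarith
  have hQ0 : (0 : ℝ) < Q := by exact_mod_cast hQ
  have hlog : 0 < Real.log Y := Real.log_pos (by linarith)
  rw [← mul_sum]
  set T := ∑ i ∈ range I, g (Y * 2 ^ i) with hT
  have e1 : K * T / Q ≤ (K + 1) * (T / Q) := by
    rw [mul_div_assoc]
    exact mul_le_mul_of_nonneg_right (by linarith) (by positivity)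
  have e2 : 1 / Real.log Y ^ B ≤ (K + 1) * (1 / Real.log Y ^ B) :=
    le_mul_of_one_le_left (by positivity) (by linarith)
  calc K₁ * N * (K * T / Q + 1 / Real.log Y ^ B)
      ≤ K₁ * N * ((K + 1) * (T / Q) + (K + 1) * (1 / Real.log Y ^ B)) :=
        mul_le_mul_of_nonneg_left (add_le_add e1 e2) (by positivity)
    _ = _ := by ring

theorem trivial_bound (P : ℕ → Prop) (N : ℕ) :
    (Set.ncard {n : ℕ | 1 ≤ n ∧ n ≤ N ∧ P n} : ℝ) ≤ N := by
  have hsub : {n : ℕ | 1 ≤ n ∧ n ≤ N ∧ P n} ⊆ (Finset.Icc 1 N : Finset ℕ) := by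
    intro n hn
    rw [mem_coe, mem_Icc]
    exact ⟨hn.1, hn.2.1⟩
  have h1 := Set.ncard_le_ncard hsub (Finset.finite_toSet _)
  rw [Set.ncard_coe_finset, Nat.card_Icc, Nat.add_sub_cancel] at h1
  exact_mod_cast h1

theorem mono_bound {P P' : ℕ → Prop} (h : ∀ n, P n → P' n) (N : ℕ) :
    (Set.ncard {n : ℕ | 1 ≤ n ∧ n ≤ N ∧ P n} : ℝ) ≤ (Set.ncard {n : ℕ | 1 ≤ n ∧ n ≤ N ∧ P' n} : ℝ) := by
  have hfin : {n : ℕ | 1 ≤ n ∧ n ≤ N ∧ P' n}.Finite := by
    apply (Set.finite_Iic N).subset
    intro n hn
    exact hn.2.1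
  have hsub : {n : ℕ | 1 ≤ n ∧ n ≤ N ∧ P n} ⊆ {n : ℕ | 1 ≤ n ∧ n ≤ N ∧ P' n} :=
    fun n hn => ⟨hn.1, hn.2.1, h n hn.2.2⟩
  exact_mod_cast Set.ncard_le_ncard hsub hfin

theorem exists_scale {Y : ℝ} (hY : 1 ≤ Y) {N : ℕ} (hN : Y ≤ N) : ∃ I : ℕ, (N : ℝ) < Y * 2 ^ I ∧
    Real.log Y + I * Real.log 2 - Real.log 2 ≤ Real.log N := by
  obtain ⟨i, hi1, hi2⟩ := exists_nat_pow_near (x := (N : ℝ) / Y) (y := 2)
    (by rw [le_div_iff₀ (by linarith)]; linarith) (by norm_num)
  rw [le_div_iff₀ (by linarith)] at hi1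
  rw [div_lt_iff₀ (by linarith)] at hi2
  refine ⟨i + 1, by linarith, ?_⟩
  have h1 : Real.log (2 ^ i * Y) ≤ Real.log N := Real.log_le_log (by positivity) hi1
  rw [Real.log_mul (by positivity) (by linarith), Real.log_pow] at h1
  push_cast
  linarith

theorem log_scale {Y : ℝ} (hY : 0 < Y) (i : ℕ) : Real.log (Y * 2 ^ i) = Real.log Y + i * Real.log 2 := by
  rw [Real.log_mul hY.ne' (by positivity), Real.log_pow]

/-- few primes on trajectories -/
theorem primes_quant : ∃ K : ℝ, 0 < K ∧ ∀ (Y : ℝ) (N Q : ℕ), 2 ≤ Y → Y ≤ N → 1 ≤ Q →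
    (Set.ncard {n : ℕ | 1 ≤ n ∧ n ≤ N ∧ Visits {p : ℕ | p.Prime} Y Q n} : ℝ)
      ≤ K * N * ((1 + Real.log (Real.log N / Real.log Y)) / Q + 1 / Real.log Y) := by
  obtain ⟨K, X₀, hK, hX₀, hR⟩ := prime_reg
  have hX₀2 : (101 : ℝ) ≤ X₀ := by linarith [Real.add_one_le_exp (100 : ℝ)]
  have hl0 : ∀ X, X₀ ≤ X → 0 < Real.log X := fun X hX => Real.log_pos (by linarith)
  obtain ⟨K', Y₀, hK', hY₀, h⟩ := quant_gen (g := fun X => 1 / Real.log X) hK (by linarith)
    (fun x hx y hy hxy => one_div_le_one_div_of_le (hl0 x hx)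
      (Real.log_le_log (by linarith [Set.mem_Ici.1 hx]) hxy))
    (fun X hX => by have := hl0 X hX; positivity)
    (by
      have : (fun X : ℝ => 1 / Real.log X) = fun X : ℝ => (Real.log X)⁻¹ := by
        funext X; rw [one_div]
      rw [this]
      exact tendsto_inv_atTop_zero.comp Real.tendsto_log_atTop) hR 1
  refine ⟨max (4 * K') (Real.log Y₀), by positivity, ?_⟩
  intro Y N Q hY hYN hQ
  have hlog : 0 < Real.log Y := Real.log_pos (by linarith)
  have hN0 : (0 : ℝ) ≤ N := Nat.cast_nonneg N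
  have hQ0 : (0 : ℝ) < Q := by exact_mod_cast hQ
  have hlogN : Real.log Y ≤ Real.log N := Real.log_le_log (by linarith) hYN
  have hrat : 0 ≤ Real.log (Real.log N / Real.log Y) := by
    apply Real.log_nonneg
    rw [le_div_iff₀ hlog]; linarith
  rcases le_or_gt Y₀ Y with hc | hc
  · obtain ⟨I, hI1, hI2⟩ := exists_scale (by linarith) hYN
    have h1 := h Y hc Q hQ N I hI1
    refine h1.trans ?_
    rw [pow_one]
    set a := Real.log Y with ha
    set c := Real.log 2 with hcdef
    have hc0 : 0 < c := Real.log_pos (by norm_num)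
    have hca : 2 * c ≤ a := by
      have e1 : Real.log 4 ≤ a := Real.log_le_log (by norm_num) (by linarith)
      have e2 : Real.log 4 = 2 * c := by
        rw [hcdef, show (4 : ℝ) = 2 ^ 2 by norm_num, Real.log_pow]; norm_num
      linarith
    have hsum : ∑ i ∈ range I, 1 / Real.log (Y * 2 ^ i) ≤ 2 * (Real.log (Real.log N / a) + 1) := by
      have e1 : ∀ i ∈ range I, 1 / Real.log (Y * 2 ^ i) = (fun x => 1 / x) (a + i * c) := fun i _ => by
        rw [log_scale (by linarith)]
      rw [sum_congr rfl e1]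
      have ht := tele_sum (f := fun x => -(Real.log x / c)) (g := fun x => 1 / x) (a := a) (c := c)
        (fun i => by
          have hx : c < a + i * c := by
            have : 0 ≤ (i : ℝ) * c := by positivity
            linarith
          have hd := log_diff hc0.le hx
          have hx0 : 0 < a + i * c := by linarith
          have e2 : 1 / (a + i * c) = (c / (a + i * c)) / c := by field_simp
          rw [e2]
          have e3 : -(Real.log (a + i * c - c) / c) - -(Real.log (a + i * c) / c)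
              = (Real.log (a + i * c) - Real.log (a + i * c - c)) / c := by ring
          rw [e3]
          exact div_le_div_of_nonneg_right hd hc0.le) I
      refine ht.trans ?_
      have e4 : Real.log (a + I * c - c) ≤ Real.log (Real.log N) := by
        rcases Nat.eq_zero_or_pos I with rfl | hI
        · exfalso
          rw [pow_zero, mul_one] at hI1
          linarith
        · apply Real.log_le_log _ hI2
          have : (1 : ℝ) ≤ I := by exact_mod_cast hI
          nlinarith
      have e5 : Real.log a - 1 ≤ Real.log (a - c) := by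
        have : Real.log (a / 2) ≤ Real.log (a - c) := Real.log_le_log (by linarith) (by linarith)
        rw [Real.log_div (by linarith) (by norm_num)] at this
        have := Real.log_two_lt_d9
        linarith
      have e6 : Real.log (Real.log N / a) = Real.log (Real.log N) - Real.log a := by
        rw [Real.log_div (by linarith) (by linarith)]
      have e7 : -(Real.log (a - c) / c) - -(Real.log (a + I * c - c) / c)
          = (Real.log (a + I * c - c) - Real.log (a - c)) / c := by ring
      rw [e7, div_le_iff₀ hc0, e6]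
      have hc2 : 1 / 2 ≤ c := by have := Real.log_two_gt_d9; linarith
      rw [e6] at hrat
      nlinarith
    have h2 : (∑ i ∈ range I, 1 / Real.log (Y * 2 ^ i)) / Q ≤ 2 * ((1 + Real.log (Real.log N / a)) / Q) := by
      rw [← mul_div_assoc]
      apply div_le_div_of_nonneg_right _ hQ0.le
      linarith
    have h3 : 0 ≤ (1 + Real.log (Real.log N / a)) / Q := by positivity
    calc K' * N * ((∑ i ∈ range I, 1 / Real.log (Y * 2 ^ i)) / Q + 1 / a)
        ≤ K' * N * (4 * ((1 + Real.log (Real.log N / a)) / Q + 1 / a)) := by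
          apply mul_le_mul_of_nonneg_left _ (by positivity)
          have : 0 < 1 / a := by positivity
          linarith
      _ = 4 * K' * N * ((1 + Real.log (Real.log N / a)) / Q + 1 / a) := by ring
      _ ≤ _ := by
          apply mul_le_mul_of_nonneg_right _ (by positivity)
          exact mul_le_mul_of_nonneg_right (le_max_left _ _) hN0
  · refine (trivial_bound _ N).trans ?_
    have h1 : Real.log Y ≤ Real.log Y₀ := Real.log_le_log (by linarith) hc.le
    calc (N : ℝ) = Real.log Y * N * (1 / Real.log Y) := by field_simp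
      _ ≤ max (4 * K') (Real.log Y₀) * N * (1 / Real.log Y) := by
          apply mul_le_mul_of_nonneg_right _ (by positivity)
          exact mul_le_mul_of_nonneg_right (h1.trans (le_max_right _ _)) hN0
      _ ≤ _ := by
          apply mul_le_mul_of_nonneg_left _ (by positivity)
          have : 0 ≤ (1 + Real.log (Real.log N / Real.log Y)) / Q := by positivity
          linarith

/-- close primes on trajectories, quantitative -/
theorem gap_quant : ∃ K : ℝ, 0 < K ∧ ∀ (Y : ℝ) (N : ℕ), 16 ≤ Y →
    (Set.ncard {n : ℕ | 1 ≤ n ∧ n ≤ N ∧ Visits Sgap Y 1 n} : ℝ) ≤ K * N / Real.log (Real.log Y) := by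
  obtain ⟨K, X₀, hK, hX₀, hR⟩ := gap_reg
  have hl0 : ∀ X, X₀ ≤ X → 100 ≤ Real.log X := fun X hX => by
    rw [← Real.log_exp 100]; exact Real.log_le_log (Real.exp_pos _) (hX₀.trans hX)
  have hX₀2 : (101 : ℝ) ≤ X₀ := by linarith [Real.add_one_le_exp (100 : ℝ)]
  have hll0 : ∀ X, X₀ ≤ X → 0 < Real.log (Real.log X) := fun X hX =>
    Real.log_pos (by linarith [hl0 X hX])
  obtain ⟨K', Y₀, hK', hY₀, h⟩ := quant_gen
    (g := fun X => 1 / (Real.log X * (Real.log (Real.log X)) ^ 2)) hK (by linarith)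
    (fun x hx y hy hxy => by
      have a1 := hl0 x hx
      have a2 := hll0 x hx
      have a3 : Real.log x ≤ Real.log y := Real.log_le_log (by linarith [Set.mem_Ici.1 hx]) hxy
      have a4 : Real.log (Real.log x) ≤ Real.log (Real.log y) := Real.log_le_log (by linarith) a3
      apply one_div_le_one_div_of_le (by positivity)
      exact mul_le_mul a3 (pow_le_pow_left₀ a2.le a4 2) (by positivity) (by linarith))
    (fun X hX => by
      have a1 := hl0 X hX
      have a2 := hll0 X hX
      positivity)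
    (by
      have e1 : Tendsto (fun X : ℝ => Real.log X * (Real.log (Real.log X)) ^ 2) atTop atTop := by
        apply Tendsto.atTop_mul_atTop₀ Real.tendsto_log_atTop
        exact (tendsto_pow_atTop (by norm_num)).comp (Real.tendsto_log_atTop.comp Real.tendsto_log_atTop)
      have : (fun X : ℝ => 1 / (Real.log X * (Real.log (Real.log X)) ^ 2))
          = fun X : ℝ => (Real.log X * (Real.log (Real.log X)) ^ 2)⁻¹ := by
        funext X; rw [one_div]
      rw [this]
      exact tendsto_inv_atTop_zero.comp e1) hR 1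
  refine ⟨max (8 * K') (Real.log (Real.log Y₀)), by positivity, ?_⟩
  intro Y N hY
  have h16 : (1 : ℝ) < Real.log Y := by
    rw [Real.lt_log_iff_exp_lt (by linarith)]
    have := Real.exp_one_lt_d9
    linarith
  have hll : 0 < Real.log (Real.log Y) := Real.log_pos h16
  have hN0 : (0 : ℝ) ≤ N := Nat.cast_nonneg N
  rcases le_or_gt Y₀ Y with hc | hc
  · obtain ⟨I, hI⟩ : ∃ I : ℕ, (N : ℝ) / Y < 2 ^ I := pow_unbounded_of_one_lt _ (by norm_num)
    rw [div_lt_iff₀ (by linarith)] at hI
    have h1 := h Y hc 1 le_rfl N I (by linarith)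
    refine h1.trans ?_
    rw [pow_one, Nat.cast_one, div_one]
    set a := Real.log Y with ha
    have ha100 : 100 ≤ a := hl0 Y (hY₀.trans hc)
    set c := Real.log 2 with hcdef
    have hc0 : 0 < c := Real.log_pos (by norm_num)
    have hc1 : c ≤ 1 := by have := Real.log_two_lt_d9; linarith
    have hc2 : 1 / 2 ≤ c := by have := Real.log_two_gt_d9; linarith
    have hsum : ∑ i ∈ range I, 1 / (Real.log (Y * 2 ^ i) * (Real.log (Real.log (Y * 2 ^ i))) ^ 2)
        ≤ 4 / Real.log a := by
      have e1 : ∀ i ∈ range I, 1 / (Real.log (Y * 2 ^ i) * (Real.log (Real.log (Y * 2 ^ i))) ^ 2)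
          = (fun x => 1 / (x * (Real.log x) ^ 2)) (a + i * c) := fun i _ => by
        rw [log_scale (by linarith)]
      rw [sum_congr rfl e1]
      have ht := tele_sum (f := fun x => 1 / Real.log x / c) (g := fun x => 1 / (x * (Real.log x) ^ 2))
        (a := a) (c := c)
        (fun i => by
          have hic : 0 ≤ (i : ℝ) * c := by positivity
          have hx : c < a + i * c := by linarith
          have hd := log_diff hc0.le hx
          set x := a + i * c with hxdef
          have hx0 : 0 < x := by linarith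
          have hlx : 0 < Real.log (x - c) := Real.log_pos (by linarith)
          have hlx' : Real.log (x - c) ≤ Real.log x := Real.log_le_log (by linarith) (by linarith)
          have e3 : 1 / Real.log (x - c) / c - 1 / Real.log x / c
              = (Real.log x - Real.log (x - c)) / (c * (Real.log (x - c) * Real.log x)) := by
            have : 0 < Real.log x := by linarith
            field_simp
          rw [e3]
          calc 1 / (x * Real.log x ^ 2) = (c / x) / (c * (Real.log x * Real.log x)) := by field_simp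
            _ ≤ (Real.log x - Real.log (x - c)) / (c * (Real.log (x - c) * Real.log x)) := by
                have : 0 < Real.log x := by linarith
                apply div_le_div₀ (by linarith [div_pos hc0 hx0]) hd (by positivity)
                apply mul_le_mul_of_nonneg_left _ hc0.le
                exact mul_le_mul_of_nonneg_right hlx' this.le) I
      refine ht.trans ?_
      have e4 : 0 ≤ 1 / Real.log (a + I * c - c) / c := by
        have : 0 ≤ (I : ℝ) * c := by positivity
        have : 0 < Real.log (a + I * c - c) := Real.log_pos (by linarith)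
        positivity
      have e5 : Real.log a / 2 ≤ Real.log (a - c) := by
        have e6 : Real.log a - 1 ≤ Real.log (a - c) := by
          have : Real.log (a / 2) ≤ Real.log (a - c) := Real.log_le_log (by linarith) (by linarith)
          rw [Real.log_div (by linarith) (by norm_num)] at this
          have := Real.log_two_lt_d9
          linarith
        have e7 : 2 ≤ Real.log a := by
          rw [Real.le_log_iff_exp_le (by linarith)]
          have h1 : Real.exp 2 = Real.exp 1 ^ 2 := by rw [← Real.exp_nat_mul]; norm_num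
          rw [h1]
          calc Real.exp 1 ^ 2 ≤ 2.7182818286 ^ 2 :=
                pow_le_pow_left₀ (Real.exp_pos _).le Real.exp_one_lt_d9.le 2
            _ ≤ 100 := by norm_num
            _ ≤ a := ha100
        linarith
      have e8 : 1 / Real.log (a - c) / c ≤ 4 / Real.log a := by
        rw [div_div, div_le_div_iff₀ (by
          have : 0 < Real.log (a - c) := by linarith
          positivity) hll]
        nlinarith
      linarith
    have h2 : 1 / a ≤ 4 / Real.log a := by
      rw [div_le_div_iff₀ (by linarith) hll]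
      have := Real.log_le_sub_one_of_pos (show 0 < a by linarith)
      linarith
    calc K' * N * (∑ i ∈ range I, 1 / (Real.log (Y * 2 ^ i) * (Real.log (Real.log (Y * 2 ^ i))) ^ 2) + 1 / a)
        ≤ K' * N * (4 / Real.log a + 4 / Real.log a) :=
          mul_le_mul_of_nonneg_left (add_le_add hsum h2) (by positivity)
      _ = 8 * K' * N / Real.log a := by ring
      _ ≤ _ := by
          apply div_le_div_of_nonneg_right _ hll.le
          exact mul_le_mul_of_nonneg_right (le_max_left _ _) hN0
  · refine (trivial_bound _ N).trans ?_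
    rw [le_div_iff₀ hll, mul_comm]
    apply mul_le_mul_of_nonneg_right _ hN0
    refine le_trans ?_ (le_max_right _ _)
    exact Real.log_le_log (by linarith) (Real.log_le_log (by linarith) hc.le)

/-- prime patterns on trajectories, quantitative -/
theorem twin_quant (a b : ℕ) (ha : 1 ≤ a) (hb : 1 ≤ b) : ∃ K : ℝ, 0 < K ∧ ∀ (Y : ℝ) (N : ℕ), 2 ≤ Y →
    (Set.ncard {n : ℕ | 1 ≤ n ∧ n ≤ N ∧ Visits {p : ℕ | p.Prime ∧ (a * p + b).Prime} Y 1 n} : ℝ)
      ≤ K * N / Real.log Y := by
  obtain ⟨K, X₀, hK, hX₀, hR⟩ := twin_reg a b ha hb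
  have hl0 : ∀ X, X₀ ≤ X → 100 ≤ Real.log X := fun X hX => by
    rw [← Real.log_exp 100]; exact Real.log_le_log (Real.exp_pos _) (hX₀.trans hX)
  have hX₀2 : (101 : ℝ) ≤ X₀ := by linarith [Real.add_one_le_exp (100 : ℝ)]
  obtain ⟨K', Y₀, hK', hY₀, h⟩ := quant_gen (g := fun X => 1 / (Real.log X) ^ 2) hK (by linarith)
    (fun x hx y hy hxy => by
      have a1 := hl0 x hx
      have a3 : Real.log x ≤ Real.log y := Real.log_le_log (by linarith [Set.mem_Ici.1 hx]) hxy
      apply one_div_le_one_div_of_le (by positivity)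
      exact pow_le_pow_left₀ (by linarith) a3 2)
    (fun X hX => by positivity)
    (by
      have e1 : Tendsto (fun X : ℝ => (Real.log X) ^ 2) atTop atTop :=
        (tendsto_pow_atTop (by norm_num)).comp Real.tendsto_log_atTop
      have : (fun X : ℝ => 1 / (Real.log X) ^ 2) = fun X : ℝ => ((Real.log X) ^ 2)⁻¹ := by
        funext X; rw [one_div]
      rw [this]
      exact tendsto_inv_atTop_zero.comp e1) hR 1
  refine ⟨max (5 * K') (Real.log Y₀), by positivity, ?_⟩
  intro Y N hY
  have hlog : 0 < Real.log Y := Real.log_pos (by linarith)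
  have hN0 : (0 : ℝ) ≤ N := Nat.cast_nonneg N
  rcases le_or_gt Y₀ Y with hc | hc
  · obtain ⟨I, hI⟩ : ∃ I : ℕ, (N : ℝ) / Y < 2 ^ I := pow_unbounded_of_one_lt _ (by norm_num)
    rw [div_lt_iff₀ (by linarith)] at hI
    have h1 := h Y hc 1 le_rfl N I (by linarith)
    refine h1.trans ?_
    rw [pow_one, Nat.cast_one, div_one]
    set x₀ := Real.log Y with ha
    have ha100 : 100 ≤ x₀ := hl0 Y (hY₀.trans hc)
    set c := Real.log 2 with hcdef
    have hc0 : 0 < c := Real.log_pos (by norm_num)
    have hc1 : c ≤ 1 := by have := Real.log_two_lt_d9; linarith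
    have hc2 : 1 / 2 ≤ c := by have := Real.log_two_gt_d9; linarith
    have hsum : ∑ i ∈ range I, 1 / (Real.log (Y * 2 ^ i)) ^ 2 ≤ 4 / x₀ := by
      have e1 : ∀ i ∈ range I, 1 / (Real.log (Y * 2 ^ i)) ^ 2 = (fun x => 1 / x ^ 2) (x₀ + i * c) :=
        fun i _ => by rw [log_scale (by linarith)]
      rw [sum_congr rfl e1]
      have ht := tele_sum (f := fun x => 1 / x / c) (g := fun x => 1 / x ^ 2)
        (a := x₀) (c := c)
        (fun i => by
          have hic : 0 ≤ (i : ℝ) * c := by positivity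
          set x := x₀ + i * c with hxdef
          have hx0 : 0 < x := by linarith
          have hx1 : 0 < x - c := by linarith
          have e3 : 1 / (x - c) / c - 1 / x / c = 1 / ((x - c) * x) := by
            field_simp; ring
          rw [e3]
          apply one_div_le_one_div_of_le (by positivity)
          rw [sq]
          exact mul_le_mul_of_nonneg_right (by linarith) hx0.le) I
      refine ht.trans ?_
      have e4 : 0 ≤ 1 / (x₀ + I * c - c) / c := by
        have : 0 ≤ (I : ℝ) * c := by positivity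
        have : 0 < x₀ + I * c - c := by linarith
        positivity
      have e8 : 1 / (x₀ - c) / c ≤ 4 / x₀ := by
        rw [div_div, div_le_div_iff₀ (by
          have : 0 < x₀ - c := by linarith
          positivity) hlog]
        nlinarith
      linarith
    calc K' * N * (∑ i ∈ range I, 1 / (Real.log (Y * 2 ^ i)) ^ 2 + 1 / x₀)
        ≤ K' * N * (4 / x₀ + 1 / x₀) :=
          mul_le_mul_of_nonneg_left (add_le_add hsum le_rfl) (by positivity)
      _ = 5 * K' * N / x₀ := by ring
      _ ≤ _ := by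
          apply div_le_div_of_nonneg_right _ hlog.le
          exact mul_le_mul_of_nonneg_right (le_max_left _ _) hN0
  · refine (trivial_bound _ N).trans ?_
    rw [le_div_iff₀ hlog, mul_comm]
    apply mul_le_mul_of_nonneg_right _ hN0
    exact (Real.log_le_log (by linarith) hc.le).trans (le_max_right _ _)

/-- almost everywhere statements from quantitative ones -/
theorem ae_of_quant {P : ℝ → ℕ → Prop} (hmono : ∀ Y Y' n, Y ≤ Y' → P Y' n → P Y n)
    (h : ∀ η : ℝ, 0 < η → ∃ (Y : ℝ) (N₀ : ℕ), ∀ N : ℕ, N₀ ≤ N →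
      (Set.ncard {n : ℕ | 1 ≤ n ∧ n ≤ N ∧ P Y n} : ℝ) ≤ η * N)
    {f : ℕ → ℝ} (hf : Tendsto f atTop atTop) :
    Tendsto (fun N : ℕ => (Set.ncard {n : ℕ | 1 ≤ n ∧ n ≤ N ∧ P (f n) n} : ℝ) / N) atTop (𝓝 0) := by
  rw [Metric.tendsto_atTop]
  intro η hη
  obtain ⟨Y, N₀, hY⟩ := h (η / 4) (by positivity)
  obtain ⟨n₀, hn₀⟩ := Filter.eventually_atTop.1 (hf.eventually_ge_atTop Y)
  obtain ⟨N₁, hN₁⟩ := exists_nat_ge (4 * (n₀ : ℝ) / η)
  refine ⟨max (max N₁ 1) N₀, fun N hN => ?_⟩
  have hN1 : 1 ≤ N := (le_max_right _ _).trans ((le_max_left _ _).trans hN)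
  have hNR : (0 : ℝ) < N := by exact_mod_cast hN1
  have hNN : (N₁ : ℝ) ≤ N := by exact_mod_cast (le_max_left _ _).trans ((le_max_left _ _).trans hN)
  have hq := hY N ((le_max_right _ _).trans hN)
  rw [Real.dist_eq, sub_zero, abs_of_nonneg (by positivity), div_lt_iff₀ hNR]
  have hfin1 : (Finset.range n₀ : Set ℕ).Finite := Finset.finite_toSet _
  have hfin2 : {n : ℕ | 1 ≤ n ∧ n ≤ N ∧ P Y n}.Finite := by
    apply (Set.finite_Iic N).subset
    intro n hn
    exact hn.2.1
  have hsub : {n : ℕ | 1 ≤ n ∧ n ≤ N ∧ P (f n) n}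
      ⊆ (Finset.range n₀ : Set ℕ) ∪ {n : ℕ | 1 ≤ n ∧ n ≤ N ∧ P Y n} := by
    intro n hn
    by_cases hlt : n < n₀
    · left; simpa using hlt
    · right
      exact ⟨hn.1, hn.2.1, hmono _ _ _ (hn₀ n (not_lt.1 hlt)) hn.2.2⟩
  have hcard : (Set.ncard {n : ℕ | 1 ≤ n ∧ n ≤ N ∧ P (f n) n} : ℝ)
      ≤ n₀ + (Set.ncard {n : ℕ | 1 ≤ n ∧ n ≤ N ∧ P Y n} : ℝ) := by
    have h1 := (Set.ncard_le_ncard hsub (hfin1.union hfin2)).trans (Set.ncard_union_le _ _)
    rw [Set.ncard_coe_finset, Finset.card_range] at h1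
    exact_mod_cast h1
  have h8 : (n₀ : ℝ) ≤ η / 4 * N := by
    rw [div_le_iff₀ hη] at hN₁
    nlinarith
  nlinarith

end Pool.Agent.H998_BC
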