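import Pool.Agent.H998_BC.Pair2

/-! Close primes on trajectories. -/

set_option autoImplicit false

namespace Pool.Agent.H998_BC

open Finset Filter Topology

/-- primes `p` with another prime on their trajectory after at most `H p` steps -/
def Sg (H : ℝ → ℝ) : Set ℕ := {p : ℕ | p.Prime ∧ ∃ t : ℕ, 1 ≤ t ∧ (t : ℝ) ≤ H p ∧ (Ta^[t] p).Prime}

/-- the regularity of `Sg H` -/
theorem gap_reg2 : ∃ K X₀ : ℝ, 0 < K ∧ Real.exp 100 ≤ X₀ ∧ ∀ (Y : ℝ) (H : ℝ → ℝ), X₀ ≤ Y →
    AntitoneOn (fun X => H X / (Real.log X) ^ 2) (Set.Ici Y) →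
    (∀ X, Y ≤ X → 0 ≤ H X ∧ H X ≤ Real.log X / 10) →
    Regular (Sg H) (1 / 2) Y (fun X => K * (H X / (Real.log X) ^ 2)) := by
  classical
  obtain ⟨C, X₀, hC, hX₀, hpair⟩ := pair_count2
  refine ⟨4 * C, max X₀ (Real.exp 100), by positivity, le_max_right _ _, ?_⟩
  intro Y H hY hanti hH X hYX j v hj
  have hX : max X₀ (Real.exp 100) ≤ X := hY.trans hYX
  have hX1 : X₀ ≤ X := (le_max_left _ _).trans hX
  have hX2 : Real.exp 100 ≤ X := (le_max_right _ _).trans hX
  have hX0 : 0 < X := lt_of_lt_of_le (Real.exp_pos _) hX2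
  obtain ⟨hHX0, hHX1⟩ := hH X hYX
  set L := Real.log X with hL
  have hL100 : 100 ≤ L := by
    rw [hL, ← Real.log_exp 100]; exact Real.log_le_log (Real.exp_pos _) hX2
  have hLexp : Real.exp L = X := Real.exp_log hX0
  have hL0 : 0 < L := by linarith
  obtain ⟨T, hT⟩ : ∃ T : ℕ, T = ⌊4 * H X⌋₊ := ⟨_, rfl⟩
  have hT1 : (T : ℝ) ≤ 4 * H X := by rw [hT]; exact Nat.floor_le (by positivity)
  have hjL : (j : ℝ) ≤ Real.sqrt L := by rw [Real.sqrt_eq_rpow]; exact hj
  have hmod : ∀ t : ℕ, t ≤ T → (2 : ℝ) ^ t * 3 ^ j ≤ Real.sqrt X := by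
    intro t ht
    have e1 : (2 : ℝ) ^ t = Real.exp (t * Real.log 2) := by
      rw [Real.exp_nat_mul, Real.exp_log (by norm_num)]
    have e2 : (3 : ℝ) ^ j = Real.exp (j * Real.log 3) := by
      rw [Real.exp_nat_mul, Real.exp_log (by norm_num)]
    have e3 : Real.sqrt X = Real.exp (L / 2) := by
      rw [← hLexp, Real.sqrt_eq_rpow, ← Real.exp_mul]; congr 1; ring
    rw [e1, e2, e3, ← Real.exp_add]
    apply Real.exp_le_exp.2
    have h2 := Real.log_two_lt_d9
    have h3 := log3_le'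
    have e4 : (t : ℝ) ≤ 2 / 5 * L := by
      have : (t : ℝ) ≤ T := by exact_mod_cast ht
      linarith
    have e5 : Real.sqrt L ≤ L / 10 := by
      rw [Real.sqrt_le_left (by positivity)]
      nlinarith
    have e6 : (t : ℝ) * Real.log 2 ≤ 2 / 5 * L * 0.7 :=
      mul_le_mul e4 (by linarith) (Real.log_nonneg (by norm_num)) (by positivity)
    have e7 : (j : ℝ) * Real.log 3 ≤ L / 10 * 1.11 :=
      mul_le_mul (hjL.trans e5) h3 (Real.log_nonneg (by norm_num)) (by positivity)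
    linarith
  have hfin : {a : ℕ | a ∈ Sg H ∧ X ≤ (a : ℝ) ∧ (a : ℝ) < 2 * X ∧ a % 3 ^ j = v}.Finite := by
    apply (Set.finite_Iic ⌊2 * X⌋₊).subset
    intro a ha
    rw [Set.mem_Iic, Nat.le_floor_iff (by linarith)]
    exact ha.2.2.1.le
  rw [Set.ncard_eq_toFinset_card _ hfin]
  have hsub : hfin.toFinset ⊆ (Finset.Icc 1 T).biUnion (fun t =>
      (Finset.range (⌊2 * X⌋₊ + 1)).filter (fun p : ℕ => X ≤ (p : ℝ) ∧ p % 3 ^ j = v ∧
        p.Prime ∧ (Ta^[t] p).Prime)) := by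
    intro p hp
    rw [Set.Finite.mem_toFinset] at hp
    obtain ⟨⟨h1, t, h2, h3, h4⟩, h5, h6, h7⟩ := hp
    have hp0 : (0 : ℝ) < p := by linarith
    rw [mem_biUnion]
    refine ⟨t, ?_, ?_⟩
    · rw [mem_Icc]
      refine ⟨h2, ?_⟩
      rw [hT]
      apply Nat.le_floor
      refine h3.trans ?_
      have e1 : L ≤ Real.log p := Real.log_le_log hX0 h5
      have e2 : Real.log p ≤ 2 * L := by
        have : Real.log p ≤ Real.log (2 * X) := Real.log_le_log hp0 h6.le
        rw [Real.log_mul (by norm_num) hX0.ne'] at this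
        have := Real.log_two_lt_d9
        linarith
      have e3 := hanti (Set.mem_Ici.2 hYX) (Set.mem_Ici.2 (hYX.trans h5)) h5
      have hlp : 0 < Real.log p := by linarith
      simp only at e3
      rw [div_le_iff₀ (by positivity)] at e3
      calc H p ≤ H X / Real.log X ^ 2 * Real.log p ^ 2 := e3
        _ ≤ H X / L ^ 2 * (2 * L) ^ 2 := by
            apply mul_le_mul_of_nonneg_left _ (by positivity)
            exact pow_le_pow_left₀ hlp.le e2 2
        _ = 4 * H X := by field_simp; ring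
    · rw [mem_filter, mem_range]
      refine ⟨?_, h5, h7, h1, h4⟩
      have : p ≤ ⌊2 * X⌋₊ := Nat.le_floor h6.le
      omega
  have hcard : (hfin.toFinset.card : ℝ) ≤ ∑ t ∈ Finset.Icc 1 T,
      ((((Finset.range (⌊2 * X⌋₊ + 1)).filter (fun p : ℕ => X ≤ (p : ℝ) ∧ p % 3 ^ j = v ∧
        p.Prime ∧ (Ta^[t] p).Prime)).card : ℕ) : ℝ) := by
    exact_mod_cast (card_le_card hsub).trans card_biUnion_le
  refine hcard.trans ?_
  show _ ≤ 4 * C * (H X / L ^ 2) * (X / 3 ^ j)
  calc ∑ t ∈ Finset.Icc 1 T, ((((Finset.range (⌊2 * X⌋₊ + 1)).filter (fun p : ℕ => X ≤ (p : ℝ) ∧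
        p % 3 ^ j = v ∧ p.Prime ∧ (Ta^[t] p).Prime)).card : ℕ) : ℝ)
      ≤ ∑ _t ∈ Finset.Icc 1 T, C * (X / 3 ^ j) / L ^ 2 := by
        apply sum_le_sum
        intro t ht
        rw [mem_Icc] at ht
        exact hpair X hX1 t j v ht.1 (hmod t ht.2)
    _ = T * (C * (X / 3 ^ j) / L ^ 2) := by
        rw [sum_const, Nat.card_Icc, nsmul_eq_mul, Nat.add_sub_cancel]
    _ ≤ (4 * H X) * (C * (X / 3 ^ j) / L ^ 2) := by
        apply mul_le_mul_of_nonneg_right hT1 (by positivity)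
    _ = _ := by
        field_simp

/-- close primes on trajectories -/
theorem gap2_quant (B : ℕ) : ∃ K : ℝ, 0 < K ∧ ∀ (Y : ℝ) (H : ℝ → ℝ), 2 ≤ Y →
    AntitoneOn (fun X => H X / (Real.log X) ^ 2) (Set.Ici Y) →
    (∀ X, Y ≤ X → 0 ≤ H X ∧ H X ≤ Real.log X / 10) → ∀ N I : ℕ, (N : ℝ) < Y * 2 ^ I →
    (Set.ncard {n : ℕ | 1 ≤ n ∧ n ≤ N ∧ Visits (Sg H) Y 1 n} : ℝ)
      ≤ K * N * ((∑ i ∈ range I, H (Y * 2 ^ i) / (Real.log (Y * 2 ^ i)) ^ 2) + 1 / (Real.log Y) ^ B) := by
  obtain ⟨K, X₀, hK, hX₀, hR⟩ := gap_reg2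
  obtain ⟨K₁, hK₁, h⟩ := Visits_count (ε := 1 / 2) (by norm_num) B
  set Y₀ : ℝ := max X₀ (Real.exp K) with hY₀
  have hlogY₀ : 0 < Real.log Y₀ := by
    apply Real.log_pos
    have : Real.exp 100 ≤ Y₀ := hX₀.trans (le_max_left _ _)
    linarith [Real.add_one_le_exp (100 : ℝ)]
  refine ⟨max (K₁ * (K + 1)) ((Real.log Y₀) ^ B), by positivity, ?_⟩
  intro Y H hY hanti hH N I hNI
  have hlog : 0 < Real.log Y := Real.log_pos (by linarith)
  have hN0 : (0 : ℝ) ≤ N := Nat.cast_nonneg N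
  have hYi : ∀ i : ℕ, Y ≤ Y * 2 ^ i := fun i => le_mul_of_one_le_right (by linarith) (one_le_pow₀ (by norm_num))
  have hS0 : 0 ≤ ∑ i ∈ range I, H (Y * 2 ^ i) / (Real.log (Y * 2 ^ i)) ^ 2 := sum_nonneg fun i _ => by
    have := (hH _ (hYi i)).1
    positivity
  rcases le_or_gt Y₀ Y with hc | hc
  · have hYX : X₀ ≤ Y := (le_max_left _ _).trans hc
    have hYK : K ≤ Real.log Y := by
      rw [Real.le_log_iff_exp_le (by linarith)]
      exact (le_max_right _ _).trans hc
    have h1 := h Y hY (fun X => K * (H X / (Real.log X) ^ 2))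
      (fun x hx y hy hxy => mul_le_mul_of_nonneg_left (hanti hx hy hxy) hK.le)
      (fun X hX => by
        obtain ⟨g1, g2⟩ := hH X hX
        have g3 : Real.log Y ≤ Real.log X := Real.log_le_log (by linarith) hX
        have g4 : 0 < Real.log X := by linarith
        refine ⟨by positivity, ?_⟩
        rw [← mul_div_assoc, div_le_one (by positivity)]
        calc K * H X ≤ Real.log X * (Real.log X / 10) :=
              mul_le_mul (by linarith) g2 g1 g4.le
          _ ≤ Real.log X ^ 2 := by nlinarith [mul_pos g4 g4])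
      (Sg H) (hR Y H hYX hanti hH) 1 le_rfl N I hNI
    refine h1.trans ?_
    rw [Nat.cast_one, div_one, ← mul_sum]
    set S := ∑ i ∈ range I, H (Y * 2 ^ i) / (Real.log (Y * 2 ^ i)) ^ 2 with hS
    have e2 : 0 < 1 / Real.log Y ^ B := by positivity
    calc K₁ * N * (K * S + 1 / Real.log Y ^ B)
        ≤ K₁ * N * ((K + 1) * (S + 1 / Real.log Y ^ B)) := by
          apply mul_le_mul_of_nonneg_left _ (by positivity)
          nlinarith
      _ = K₁ * (K + 1) * N * (S + 1 / Real.log Y ^ B) := by ring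
      _ ≤ _ := by
          apply mul_le_mul_of_nonneg_right _ (by positivity)
          exact mul_le_mul_of_nonneg_right (le_max_left _ _) hN0
  · refine (trivial_bound _ N).trans ?_
    have h1 : Real.log Y ≤ Real.log Y₀ := Real.log_le_log (by linarith) hc.le
    calc (N : ℝ) = (Real.log Y) ^ B * N * (1 / (Real.log Y) ^ B) := by field_simp
      _ ≤ max (K₁ * (K + 1)) ((Real.log Y₀) ^ B) * N * (1 / (Real.log Y) ^ B) := by
          apply mul_le_mul_of_nonneg_right _ (by positivity)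
          exact mul_le_mul_of_nonneg_right ((pow_le_pow_left₀ hlog.le h1 B).trans (le_max_right _ _)) hN0
      _ ≤ _ := by
          apply mul_le_mul_of_nonneg_left _ (by positivity)
          linarith

/-- an odd term of the trajectory is a term of the accelerated trajectory -/
theorem C_odd_term : ∀ (s x : ℕ), 1 ≤ s → C^[s] x % 2 = 1 → ∃ t : ℕ, 1 ≤ t ∧ t ≤ s ∧ Ta^[t] x = C^[s] x
  | 0, _, h, _ => by omega
  | 1, x, _, h => by
    rw [Function.iterate_one] at h
    refine ⟨1, le_rfl, le_rfl, ?_⟩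
    rw [Function.iterate_one, Function.iterate_one]
    unfold C Ta at *
    split_ifs at h ⊢ with h1
    · rfl
    · omega
  | s + 2, x, _, h => by
    by_cases hx : x % 2 = 0
    · have e : C x = Ta x := by unfold C Ta; rw [if_pos hx, if_pos hx]
      rw [Function.iterate_succ_apply, e] at h ⊢
      obtain ⟨t, h1, h2, h3⟩ := C_odd_term (s + 1) (Ta x) (by omega) h
      exact ⟨t + 1, by omega, by omega, by rw [Function.iterate_succ_apply]; exact h3⟩
    · have e : C (C x) = Ta x := by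
        have e1 : C x = 3 * x + 1 := by unfold C; rw [if_neg hx]
        rw [e1]
        unfold C Ta
        rw [if_pos (by omega), if_neg hx]
      rw [Function.iterate_succ_apply, Function.iterate_succ_apply, e] at h ⊢
      rcases Nat.eq_zero_or_pos s with rfl | hs
      · exact ⟨1, le_rfl, by omega, rfl⟩
      · obtain ⟨t, h1, h2, h3⟩ := C_odd_term s (Ta x) hs h
        exact ⟨t + 1, by omega, by omega, by rw [Function.iterate_succ_apply]; exact h3⟩

/-- two primes `p`, `q` on the trajectory of `n`, at most `H p` steps apart, before the trajectory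
goes below `Y` -/
def Close (H : ℝ → ℝ) (Y : ℝ) (n : ℕ) : Prop := ∃ k k' : ℕ, k < k' ∧ (C^[k] n).Prime ∧
  (C^[k'] n).Prime ∧ ((k' - k : ℕ) : ℝ) ≤ H (C^[k] n : ℕ) ∧ ∀ j ≤ k', Y ≤ ((C^[j] n : ℕ) : ℝ)

theorem Close.visits {H : ℝ → ℝ} {Y : ℝ} (hY : 2 < Y) {n : ℕ} (h : Close H Y n) :
    Visits (Sg H) Y 1 n := by
  obtain ⟨k, k', h1, h2, h3, h4, h5⟩ := h
  refine ⟨{k}, card_singleton k, ?_⟩
  intro i hi
  rw [mem_singleton] at hi
  subst hi
  refine ⟨⟨h2, ?_⟩, fun j hj => h5 j (by omega)⟩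
  have e : C^[k'] n = C^[k' - i] (C^[i] n) := by
    rw [← Function.iterate_add_apply, Nat.sub_add_cancel h1.le]
  have hodd : C^[k' - i] (C^[i] n) % 2 = 1 := by
    rw [← e]
    rcases h3.eq_two_or_odd with h | h
    · exfalso
      have := h5 k' le_rfl
      rw [h] at this
      push_cast at this
      linarith
    · exact h
  obtain ⟨t, g1, g2, g3⟩ := C_odd_term (k' - i) (C^[i] n) (by omega) hodd
  refine ⟨t, g1, ?_, by rw [g3, ← e]; exact h3⟩
  refine le_trans ?_ h4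
  exact_mod_cast g2

end Pool.Agent.H998_BC
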