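import Pool.Agent.H998_BC.Gap

/-! Close primes on trajectories: explicit form; almost everywhere statements. -/

set_option autoImplicit false

namespace Pool.Agent.H998_BC

open Finset Filter Topology

/-- `log X / (log log X)^(1+δ)` -/
noncomputable def Hd (δ : ℝ) (X : ℝ) : ℝ := Real.log X / (Real.log (Real.log X)) ^ (1 + δ)

theorem tele_ineq {δ c x : ℝ} (hδ : 0 < δ) (hc : 0 < c) (hx : 1 + c < x) :
    1 / (x * (Real.log x) ^ (1 + δ)) ≤ (Real.log (x - c)) ^ (-δ) / (δ * c) - (Real.log x) ^ (-δ) / (δ * c) := by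
  have hx0 : 0 < x := by linarith
  have hd := log_diff hc.le (show c < x by linarith)
  set u := Real.log (x - c) with hu
  set v := Real.log x with hv
  have hu0 : 0 < u := Real.log_pos (by linarith)
  have hv0 : 0 < v := Real.log_pos (by linarith)
  have h1 : 1 + δ * ((v - u) / v) ≤ (u / v) ^ (-δ) := by
    rw [Real.rpow_def_of_pos (by positivity)]
    have e1 : Real.log (u / v) ≤ u / v - 1 := Real.log_le_sub_one_of_pos (by positivity)
    have e2 : δ * ((v - u) / v) ≤ Real.log (u / v) * -δ := by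
      have : (v - u) / v = 1 - u / v := by field_simp
      rw [this]
      nlinarith
    have e3 := Real.add_one_le_exp (Real.log (u / v) * -δ)
    linarith
  have h2 : u ^ (-δ) = v ^ (-δ) * (u / v) ^ (-δ) := by
    rw [← Real.mul_rpow hv0.le (by positivity)]
    congr 1; field_simp
  have hvd : 0 < v ^ (-δ) := by positivity
  have h3 : v ^ (-δ) * (δ * ((v - u) / v)) ≤ u ^ (-δ) - v ^ (-δ) := by
    rw [h2]
    nlinarith
  have h4 : (v : ℝ) ^ (1 + δ) = v / v ^ (-δ) := by
    rw [Real.rpow_neg hv0.le, Real.rpow_add hv0, Real.rpow_one, div_inv_eq_mul]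
  rw [← sub_div, le_div_iff₀ (by positivity)]
  refine le_trans ?_ h3
  rw [h4]
  calc 1 / (x * (v / v ^ (-δ))) * (δ * c) = v ^ (-δ) * (δ * ((c / x) / v)) := by field_simp
    _ ≤ v ^ (-δ) * (δ * ((v - u) / v)) := by
        apply mul_le_mul_of_nonneg_left _ hvd.le
        apply mul_le_mul_of_nonneg_left _ hδ.le
        exact div_le_div_of_nonneg_right hd hv0.le

/-- the explicit form of the spacing of primes -/
theorem gap_explicit (δ : ℝ) (hδ : 0 < δ) : ∃ K : ℝ, 0 < K ∧ ∀ (Y : ℝ) (N : ℕ), 16 ≤ Y →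
    (Set.ncard {n : ℕ | 1 ≤ n ∧ n ≤ N ∧ Close (Hd δ) Y n} : ℝ) ≤ K * N / (Real.log (Real.log Y)) ^ δ := by
  obtain ⟨K, hK, h⟩ := gap2_quant 1
  have hlim : Tendsto (fun X : ℝ => (Real.log (Real.log X)) ^ (1 + δ)) atTop atTop :=
    (tendsto_rpow_atTop (by linarith)).comp (Real.tendsto_log_atTop.comp Real.tendsto_log_atTop)
  obtain ⟨X₁, hX₁⟩ := Filter.eventually_atTop.1 (hlim.eventually_ge_atTop 10)
  set Y₀ : ℝ := max (max X₁ 16) (Real.exp (Real.exp 4)) with hY₀
  set c := Real.log 2 with hcdef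
  have hc0 : 0 < c := Real.log_pos (by norm_num)
  have hc1 : c ≤ 1 := by have := Real.log_two_lt_d9; linarith
  have hc2 : 1 / 2 ≤ c := by have := Real.log_two_gt_d9; linarith
  have hY₀16 : 16 ≤ Y₀ := (le_max_right _ _).trans (le_max_left _ _)
  have hll₀ : 0 < Real.log (Real.log Y₀) := by
    apply Real.log_pos
    rw [Real.lt_log_iff_exp_lt (by linarith)]
    have := Real.exp_one_lt_d9
    linarith
  refine ⟨max (K * (2 ^ δ / (δ * c) + δ ^ δ)) ((Real.log (Real.log Y₀)) ^ δ), by positivity, ?_⟩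
  intro Y N hY
  have h16 : (1 : ℝ) < Real.log Y := by
    rw [Real.lt_log_iff_exp_lt (by linarith)]
    have := Real.exp_one_lt_d9
    linarith
  have hll : 0 < Real.log (Real.log Y) := Real.log_pos h16
  have hN0 : (0 : ℝ) ≤ N := Nat.cast_nonneg N
  rcases le_or_gt Y₀ Y with hc | hc
  · have hYX : X₁ ≤ Y := (le_max_left _ _).trans ((le_max_left _ _).trans hc)
    have hYe : Real.exp (Real.exp 4) ≤ Y := (le_max_right _ _).trans hc
    set a := Real.log Y with ha
    have hae : Real.exp 4 ≤ a := by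
      rw [ha, Real.le_log_iff_exp_le (by linarith)]; exact hYe
    have ha4 : 5 ≤ a := by linarith [Real.add_one_le_exp (4 : ℝ)]
    have hla4 : 4 ≤ Real.log a := by
      rw [Real.le_log_iff_exp_le (by linarith)]; exact hae
    have hfac : ∀ X : ℝ, Y ≤ X → Hd δ X / (Real.log X) ^ 2
        = 1 / (Real.log X * (Real.log (Real.log X)) ^ (1 + δ)) := by
      intro X hX
      have g1 : a ≤ Real.log X := Real.log_le_log (by linarith) hX
      have g2 : 0 < Real.log X := by linarith
      have g3 : 0 < Real.log (Real.log X) := Real.log_pos (by linarith)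
      unfold Hd
      have g4 : 0 < (Real.log (Real.log X)) ^ (1 + δ) := by positivity
      field_simp
    have hanti : AntitoneOn (fun X => Hd δ X / (Real.log X) ^ 2) (Set.Ici Y) := by
      intro x hx y hy hxy
      simp only
      rw [hfac x hx, hfac y hy]
      have g1 : a ≤ Real.log x := Real.log_le_log (by linarith) hx
      have g2 : Real.log x ≤ Real.log y := Real.log_le_log (by linarith [Set.mem_Ici.1 hx]) hxy
      have g3 : 0 < Real.log (Real.log x) := Real.log_pos (by linarith)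
      have g4 : Real.log (Real.log x) ≤ Real.log (Real.log y) := Real.log_le_log (by linarith) g2
      apply one_div_le_one_div_of_le
      · have : 0 < Real.log x := by linarith
        positivity
      · apply mul_le_mul g2 _ (by positivity) (by linarith)
        exact Real.rpow_le_rpow g3.le g4 (by linarith)
    have hbnd : ∀ X, Y ≤ X → 0 ≤ Hd δ X ∧ Hd δ X ≤ Real.log X / 10 := by
      intro X hX
      have g1 : a ≤ Real.log X := Real.log_le_log (by linarith) hX
      have g2 : 0 < Real.log X := by linarith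
      have g3 : 0 < Real.log (Real.log X) := Real.log_pos (by linarith)
      have g4 := hX₁ X (hYX.trans hX)
      unfold Hd
      refine ⟨by positivity, ?_⟩
      exact div_le_div_of_nonneg_left g2.le (by norm_num) g4
    obtain ⟨I, hI⟩ : ∃ I : ℕ, (N : ℝ) / Y < 2 ^ I := pow_unbounded_of_one_lt _ (by norm_num)
    rw [div_lt_iff₀ (by linarith)] at hI
    have h1 := h Y (Hd δ) (by linarith) hanti hbnd N I (by linarith)
    rw [pow_one] at h1
    have h2 := (mono_bound (P := Close (Hd δ) Y) (P' := Visits (Sg (Hd δ)) Y 1)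
      (fun n hn => hn.visits (by linarith)) N).trans h1
    refine h2.trans ?_
    have hsum : ∑ i ∈ range I, Hd δ (Y * 2 ^ i) / (Real.log (Y * 2 ^ i)) ^ 2
        ≤ 2 ^ δ / (δ * c) / (Real.log a) ^ δ := by
      have e1 : ∀ i ∈ range I, Hd δ (Y * 2 ^ i) / (Real.log (Y * 2 ^ i)) ^ 2
          = (fun x => 1 / (x * (Real.log x) ^ (1 + δ))) (a + i * c) := fun i _ => by
        have : Y ≤ Y * 2 ^ i := le_mul_of_one_le_right (by linarith) (one_le_pow₀ (by norm_num))
        rw [hfac _ this, log_scale (by linarith)]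
      rw [sum_congr rfl e1]
      have ht := tele_sum (f := fun x => (Real.log x) ^ (-δ) / (δ * c))
        (g := fun x => 1 / (x * (Real.log x) ^ (1 + δ))) (a := a) (c := c)
        (fun i => by
          have hic : 0 ≤ (i : ℝ) * c := by positivity
          exact tele_ineq hδ hc0 (by linarith)) I
      refine ht.trans ?_
      have e4 : 0 ≤ (Real.log (a + I * c - c)) ^ (-δ) / (δ * c) := by
        have : 0 ≤ (I : ℝ) * c := by positivity
        have : 0 < Real.log (a + I * c - c) := Real.log_pos (by linarith)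
        positivity
      have e5 : Real.log a / 2 ≤ Real.log (a - c) := by
        have : Real.log (a / 2) ≤ Real.log (a - c) := Real.log_le_log (by linarith) (by linarith)
        rw [Real.log_div (by linarith) (by norm_num)] at this
        have := Real.log_two_lt_d9
        linarith
      have e6 : (Real.log (a - c)) ^ (-δ) ≤ (Real.log a / 2) ^ (-δ) :=
        Real.rpow_le_rpow_of_nonpos (by linarith) e5 (by linarith)
      have e7 : (Real.log a / 2) ^ (-δ) = 2 ^ δ / (Real.log a) ^ δ := by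
        rw [Real.rpow_neg (by linarith), Real.div_rpow (by linarith) (by norm_num), inv_div]
      have e8 : 2 ^ δ / (δ * c) / (Real.log a) ^ δ = 2 ^ δ / (Real.log a) ^ δ / (δ * c) := by ring
      rw [e8]
      have e9 : (Real.log (a - c)) ^ (-δ) / (δ * c) ≤ 2 ^ δ / (Real.log a) ^ δ / (δ * c) :=
        div_le_div_of_nonneg_right (e6.trans e7.le) (by positivity)
      linarith
    have h3 : 1 / a ≤ δ ^ δ / (Real.log a) ^ δ := by
      have hlad : 0 < (Real.log a) ^ δ := by positivity
      rw [div_le_div_iff₀ (by linarith) hlad, one_mul]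
      have e1 : Real.log a ≤ a ^ (1 / δ) * δ := by
        have := Real.log_le_rpow_div (x := a) (ε := 1 / δ) (by linarith) (by positivity)
        rwa [div_div_eq_mul_div, div_one] at this
      calc (Real.log a) ^ δ ≤ (a ^ (1 / δ) * δ) ^ δ := Real.rpow_le_rpow (by linarith) e1 hδ.le
        _ = δ ^ δ * a := by
            rw [Real.mul_rpow (by positivity) hδ.le, ← Real.rpow_mul (by linarith),
              one_div, inv_mul_cancel₀ hδ.ne', Real.rpow_one, mul_comm]
    calc K * N * (∑ i ∈ range I, Hd δ (Y * 2 ^ i) / (Real.log (Y * 2 ^ i)) ^ 2 + 1 / a)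
        ≤ K * N * (2 ^ δ / (δ * c) / (Real.log a) ^ δ + δ ^ δ / (Real.log a) ^ δ) :=
          mul_le_mul_of_nonneg_left (add_le_add hsum h3) (by positivity)
      _ = K * (2 ^ δ / (δ * c) + δ ^ δ) * N / (Real.log a) ^ δ := by ring
      _ ≤ _ := by
          apply div_le_div_of_nonneg_right _ (by positivity)
          exact mul_le_mul_of_nonneg_right (le_max_left _ _) hN0
  · refine (trivial_bound _ N).trans ?_
    rw [le_div_iff₀ (by positivity), mul_comm]
    apply mul_le_mul_of_nonneg_right _ hN0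
    refine le_trans ?_ (le_max_right _ _)
    apply Real.rpow_le_rpow hll.le _ hδ.le
    exact Real.log_le_log (by linarith) (Real.log_le_log (by linarith) hc.le)

theorem gap_ae (δ : ℝ) (hδ : 0 < δ) {f : ℕ → ℝ} (hf : Tendsto f atTop atTop) :
    Tendsto (fun N : ℕ => (Set.ncard {n : ℕ | 1 ≤ n ∧ n ≤ N ∧ Close (Hd δ) (f n) n} : ℝ) / N)
      atTop (𝓝 0) := by
  obtain ⟨K, hK, h⟩ := gap_explicit δ hδ
  apply ae_of_quant (P := fun Y n => Close (Hd δ) Y n) _ _ hf
  · intro Y Y' n hYY hn
    obtain ⟨k, k', h1, h2, h3, h4, h5⟩ := hn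
    exact ⟨k, k', h1, h2, h3, h4, fun j hj => hYY.trans (h5 j hj)⟩
  · intro η hη
    have hlim : Tendsto (fun X : ℝ => (Real.log (Real.log X)) ^ δ) atTop atTop :=
      (tendsto_rpow_atTop hδ).comp (Real.tendsto_log_atTop.comp Real.tendsto_log_atTop)
    obtain ⟨Y, hY1, hY2⟩ := ((hlim.eventually_ge_atTop (K / η)).and (eventually_ge_atTop 16)).exists
    refine ⟨Y, 0, fun N _ => ?_⟩
    refine (h Y N hY2).trans ?_
    have hpos : 0 < (Real.log (Real.log Y)) ^ δ := lt_of_lt_of_le (by positivity) hY1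
    rw [div_le_iff₀ hpos]
    rw [div_le_iff₀ hη] at hY1
    nlinarith [(Nat.cast_nonneg N : (0 : ℝ) ≤ N)]

theorem twin_ae (a b : ℕ) (ha : 1 ≤ a) (hb : 1 ≤ b) {f : ℕ → ℝ} (hf : Tendsto f atTop atTop) :
    Tendsto (fun N : ℕ => (Set.ncard {n : ℕ | 1 ≤ n ∧ n ≤ N ∧
      Visits {p : ℕ | p.Prime ∧ (a * p + b).Prime} (f n) 1 n} : ℝ) / N) atTop (𝓝 0) := by
  obtain ⟨K, hK, h⟩ := twin_quant a b ha hb
  apply ae_of_quant (P := fun Y n => Visits {p : ℕ | p.Prime ∧ (a * p + b).Prime} Y 1 n) _ _ hf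
  · intro Y Y' n hYY hn
    obtain ⟨s, h1, h2⟩ := hn
    exact ⟨s, h1, fun k hk => ⟨(h2 k hk).1, fun j hj => hYY.trans ((h2 k hk).2 j hj)⟩⟩
  · intro η hη
    obtain ⟨Y, hY1, hY2⟩ := ((Real.tendsto_log_atTop.eventually_ge_atTop (K / η)).and
      (eventually_ge_atTop 2)).exists
    refine ⟨Y, 0, fun N _ => ?_⟩
    refine (h Y N hY2).trans ?_
    have hpos : 0 < Real.log Y := lt_of_lt_of_le (by positivity) hY1
    rw [div_le_iff₀ hpos]
    rw [div_le_iff₀ hη] at hY1
    nlinarith [(Nat.cast_nonneg N : (0 : ℝ) ≤ N)]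

/-- the number of prime terms, almost everywhere -/
theorem primes_ae {f g : ℕ → ℝ} (hf : Tendsto f atTop atTop) (hg : Tendsto g atTop atTop) :
    Tendsto (fun N : ℕ => (Set.ncard {n : ℕ | 1 ≤ n ∧ n ≤ N ∧ ∃ s : Finset ℕ,
      g n * Real.log (Real.log n) ≤ s.card ∧
      ∀ k ∈ s, (C^[k] n).Prime ∧ ∀ j ≤ k, f n ≤ ((C^[j] n : ℕ) : ℝ)} : ℝ) / N) atTop (𝓝 0) := by
  obtain ⟨K, hK, h⟩ := primes_quant
  set P : ℝ → ℕ → Prop := fun Y n => 16 ≤ n ∧ ∃ s : Finset ℕ, Y * Real.log (Real.log n) ≤ s.card ∧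
      ∀ k ∈ s, (C^[k] n).Prime ∧ ∀ j ≤ k, Y ≤ ((C^[j] n : ℕ) : ℝ) with hP
  have hll : ∀ n : ℕ, 16 ≤ n → 0 ≤ Real.log (Real.log n) := by
    intro n hn
    apply Real.log_nonneg
    have hnR : (16 : ℝ) ≤ n := by exact_mod_cast hn
    rw [Real.le_log_iff_exp_le (by linarith)]
    have := Real.exp_one_lt_d9
    linarith
  have hmin : Tendsto (fun n => min (f n) (g n)) atTop atTop := by
    rw [tendsto_atTop]
    intro b
    filter_upwards [hf.eventually_ge_atTop b, hg.eventually_ge_atTop b] with n h1 h2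
    exact le_min h1 h2
  have key := ae_of_quant (P := P) (by
      rintro Y Y' n hYY ⟨h0, s, h1, h2⟩
      refine ⟨h0, s, ?_, fun k hk => ⟨(h2 k hk).1, fun j hj => hYY.trans ((h2 k hk).2 j hj)⟩⟩
      exact (mul_le_mul_of_nonneg_right hYY (hll n h0)).trans h1) (by
      intro η hη
      obtain ⟨Y, hY1, hY2, hY3⟩ := ((Real.tendsto_log_atTop.eventually_ge_atTop (4 * K / η)).and
        ((eventually_ge_atTop (16 * K / η)).and (eventually_ge_atTop 16))).exists
      have hY0 : 0 < Y := by linarith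
      -- large `N`
      have hN1 : ∀ᶠ N : ℕ in atTop, Y ≤ (N : ℝ) := tendsto_natCast_atTop_atTop.eventually_ge_atTop Y
      have hN2 : ∀ᶠ N : ℕ in atTop, 4 ≤ Real.log (Real.log (N : ℝ)) :=
        (Real.tendsto_log_atTop.comp (Real.tendsto_log_atTop.comp
          tendsto_natCast_atTop_atTop)).eventually_ge_atTop 4
      have hN3 : ∀ᶠ N : ℕ in atTop, (16 / η ^ 2 : ℝ) ≤ (N : ℝ) :=
        tendsto_natCast_atTop_atTop.eventually_ge_atTop _
      obtain ⟨N₀, hN₀⟩ := Filter.eventually_atTop.1 (hN1.and (hN2.and hN3))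
      refine ⟨Y, N₀, fun N hN => ?_⟩
      obtain ⟨b1, b2, b3⟩ := hN₀ N hN
      have hNR : (16 : ℝ) ≤ N := by linarith
      have hlN : 0 < Real.log N := Real.log_pos (by linarith)
      have hlY : 0 < Real.log Y := Real.log_pos (by linarith)
      set L := Real.log (Real.log (N : ℝ)) with hL
      obtain ⟨Q, hQ⟩ : ∃ Q : ℕ, Q = ⌈Y / 2 * L⌉₊ := ⟨_, rfl⟩
      have hQ1 : Y / 2 * L ≤ Q := by rw [hQ]; exact Nat.le_ceil _
      have hQ0 : 1 ≤ Q := by
        have : (1 : ℝ) ≤ Q := by nlinarith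
        exact_mod_cast this
      have hq := h Y N Q (by linarith) b1 hQ0
      -- the small `n`
      have hsq0 : Real.sqrt N * Real.sqrt N = N := Real.mul_self_sqrt (by linarith)
      have hsmall : Real.sqrt N ≤ η / 4 * N := by
        have h1 : 4 / η ≤ Real.sqrt N := by
          apply Real.le_sqrt_of_sq_le
          rw [div_pow]; norm_num; exact b3
        rw [div_le_iff₀ hη] at h1
        nlinarith [Real.sqrt_nonneg (N : ℝ)]
      have hsub : {n : ℕ | 1 ≤ n ∧ n ≤ N ∧ P Y n} ⊆ ((Finset.Icc 1 ⌊Real.sqrt N⌋₊ : Finset ℕ) : Set ℕ)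
          ∪ {n : ℕ | 1 ≤ n ∧ n ≤ N ∧ Visits {p : ℕ | p.Prime} Y Q n} := by
        rintro n ⟨h1, h2, h3, s, h4, h5⟩
        by_cases hn : (n : ℝ) ≤ Real.sqrt N
        · left
          rw [mem_coe, mem_Icc]
          exact ⟨h1, Nat.le_floor hn⟩
        · right
          push Not at hn
          refine ⟨h1, h2, ?_⟩
          have g1 : Real.log N / 2 ≤ Real.log n := by
            rw [← Real.log_sqrt (by linarith)]
            exact Real.log_le_log (Real.sqrt_pos.2 (by linarith)) hn.le
          have g2 : L - 1 ≤ Real.log (Real.log n) := by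
            have := Real.log_le_log (by linarith) g1
            rw [Real.log_div (by linarith) (by norm_num)] at this
            have := Real.log_two_lt_d9
            linarith
          have g3 : (Q : ℝ) ≤ s.card + 1 - 1 := by
            have e1 : Y / 2 * L + 1 ≤ s.card := by
              have : Y * (L - 1) ≤ Y * Real.log (Real.log n) := mul_le_mul_of_nonneg_left g2 hY0.le
              nlinarith
            have e2 : (Q : ℝ) ≤ Y / 2 * L + 1 := by
              rw [hQ]; exact (Nat.ceil_lt_add_one (by nlinarith)).le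
            linarith
          have g4 : Q ≤ s.card := by
            have : (Q : ℝ) ≤ s.card := by linarith
            exact_mod_cast this
          obtain ⟨s', hs', hs''⟩ := Finset.exists_subset_card_eq g4
          exact ⟨s', hs'', fun k hk => h5 k (hs' hk)⟩
      have hfin2 : {n : ℕ | 1 ≤ n ∧ n ≤ N ∧ Visits {p : ℕ | p.Prime} Y Q n}.Finite := by
        apply (Set.finite_Iic N).subset
        intro n hn
        exact hn.2.1
      have hcard : (Set.ncard {n : ℕ | 1 ≤ n ∧ n ≤ N ∧ P Y n} : ℝ) ≤ Real.sqrt N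
          + (Set.ncard {n : ℕ | 1 ≤ n ∧ n ≤ N ∧ Visits {p : ℕ | p.Prime} Y Q n} : ℝ) := by
        have h1 := (Set.ncard_le_ncard hsub ((Finset.finite_toSet _).union hfin2)).trans
          (Set.ncard_union_le _ _)
        rw [Set.ncard_coe_finset, Nat.card_Icc, Nat.add_sub_cancel] at h1
        have h2 : (Set.ncard {n : ℕ | 1 ≤ n ∧ n ≤ N ∧ P Y n} : ℝ) ≤ ⌊Real.sqrt N⌋₊
          + (Set.ncard {n : ℕ | 1 ≤ n ∧ n ≤ N ∧ Visits {p : ℕ | p.Prime} Y Q n} : ℝ) := by
          exact_mod_cast h1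
        have h3 : (⌊Real.sqrt N⌋₊ : ℝ) ≤ Real.sqrt N := Nat.floor_le (Real.sqrt_nonneg _)
        linarith
      refine hcard.trans ?_
      have hQR : (0 : ℝ) < Q := by exact_mod_cast hQ0
      have g1 : (1 + Real.log (Real.log N / Real.log Y)) / Q ≤ η / (4 * K) := by
        have e1 : Real.log (Real.log N / Real.log Y) ≤ L := by
          rw [Real.log_div (by linarith) (by linarith)]
          have : 0 ≤ Real.log (Real.log Y) := by
            apply Real.log_nonneg
            rw [Real.le_log_iff_exp_le hY0]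
            have := Real.exp_one_lt_d9
            linarith
          linarith
        rw [div_le_div_iff₀ hQR (by positivity)]
        rw [div_le_iff₀ hη] at hY2
        have e2 : (1 + Real.log (Real.log N / Real.log Y)) * (4 * K) ≤ (2 * L) * (4 * K) := by
          apply mul_le_mul_of_nonneg_right _ (by positivity)
          linarith
        have e3 : η * (Y / 2 * L) ≤ η * Q := mul_le_mul_of_nonneg_left hQ1 hη.le
        nlinarith
      have g2 : 1 / Real.log Y ≤ η / (4 * K) := by
        rw [div_le_div_iff₀ hlY (by positivity)]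
        rw [div_le_iff₀ hη] at hY1
        linarith
      have g3 : K * N * ((1 + Real.log (Real.log N / Real.log Y)) / Q + 1 / Real.log Y) ≤ η / 2 * N := by
        calc K * N * ((1 + Real.log (Real.log N / Real.log Y)) / Q + 1 / Real.log Y)
            ≤ K * N * (η / (4 * K) + η / (4 * K)) :=
              mul_le_mul_of_nonneg_left (add_le_add g1 g2) (by positivity)
          _ = η / 2 * N := by field_simp; ring
      linarith) hmin
  rw [Metric.tendsto_atTop] at key ⊢
  intro η hη
  obtain ⟨N₁, hN₁⟩ := key (η / 2) (by positivity)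
  obtain ⟨N₂, hN₂⟩ := exists_nat_ge (32 / η)
  refine ⟨max (max N₁ N₂) 1, fun N hN => ?_⟩
  have h1 := hN₁ N ((le_max_left _ _).trans ((le_max_left _ _).trans hN))
  have hN1 : 1 ≤ N := (le_max_right _ _).trans hN
  have hNR : (0 : ℝ) < N := by exact_mod_cast hN1
  have hN2 : (N₂ : ℝ) ≤ N := by exact_mod_cast (le_max_right _ _).trans ((le_max_left _ _).trans hN)
  rw [Real.dist_eq, sub_zero, abs_of_nonneg (by positivity), div_lt_iff₀ hNR] at h1 ⊢
  have hsub : {n : ℕ | 1 ≤ n ∧ n ≤ N ∧ ∃ s : Finset ℕ,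
      g n * Real.log (Real.log n) ≤ s.card ∧
      ∀ k ∈ s, (C^[k] n).Prime ∧ ∀ j ≤ k, f n ≤ ((C^[j] n : ℕ) : ℝ)}
      ⊆ ((Finset.range 16 : Finset ℕ) : Set ℕ) ∪ {n : ℕ | 1 ≤ n ∧ n ≤ N ∧ P (min (f n) (g n)) n} := by
    rintro n ⟨g1, g2, s, g3, g4⟩
    by_cases hn : n < 16
    · left; simpa using hn
    · right
      push Not at hn
      refine ⟨g1, g2, hn, s, ?_, fun k hk => ⟨(g4 k hk).1, fun j hj =>
        (min_le_left _ _).trans ((g4 k hk).2 j hj)⟩⟩
      exact (mul_le_mul_of_nonneg_right (min_le_right _ _) (hll n hn)).trans g3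
  have hfin2 : {n : ℕ | 1 ≤ n ∧ n ≤ N ∧ P (min (f n) (g n)) n}.Finite := by
    apply (Set.finite_Iic N).subset
    intro n hn
    exact hn.2.1
  have hcard : (Set.ncard {n : ℕ | 1 ≤ n ∧ n ≤ N ∧ ∃ s : Finset ℕ,
      g n * Real.log (Real.log n) ≤ s.card ∧
      ∀ k ∈ s, (C^[k] n).Prime ∧ ∀ j ≤ k, f n ≤ ((C^[j] n : ℕ) : ℝ)} : ℝ) ≤ 16
      + (Set.ncard {n : ℕ | 1 ≤ n ∧ n ≤ N ∧ P (min (f n) (g n)) n} : ℝ) := by
    have h1 := (Set.ncard_le_ncard hsub ((Finset.finite_toSet _).union hfin2)).trans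
      (Set.ncard_union_le _ _)
    rw [Set.ncard_coe_finset, Finset.card_range] at h1
    exact_mod_cast h1
  rw [div_le_iff₀ hη] at hN₂
  nlinarith

end Pool.Agent.H998_BC
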