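import Pool.Agent.R344.TH.G

/-! Visits of trajectories to regular sets, part 1: the expected number of visits near the lowest
scales. -/

set_option autoImplicit false

namespace Pool.Agent.H998_BC

open Finset
open Pool.Agent.H499R2.CO (Tz)
open Pool.Agent.R344.TH

/-- the integers in `[X, 2X)` in the class `v` modulo `3^j` -/
noncomputable def WC (X : ℝ) (j : ℕ) (v : ℤ) : Finset ℤ :=
  (Ico ⌈X⌉ ⌈2 * X⌉).filter (fun x => (3 : ℤ) ^ j ∣ x - v)

theorem mem_WC {X : ℝ} {j : ℕ} {v x : ℤ} :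
    x ∈ WC X j v ↔ (X ≤ x ∧ (x : ℝ) < 2 * X) ∧ (3 : ℤ) ^ j ∣ x - v := by
  unfold WC
  rw [mem_filter, Finset.mem_Ico, Int.ceil_le, Int.lt_ceil]

theorem half_mod (n : ℕ) (v : ℤ) : ∃ w : ℤ, (3 : ℤ) ^ n ∣ 2 * w - v := by
  have h : IsCoprime (2 : ℤ) (3 ^ n) := by
    apply IsCoprime.pow_right
    exact ⟨-1, 1, by norm_num⟩
  obtain ⟨a, b, hab⟩ := h
  refine ⟨a * v, -(b * v), ?_⟩
  linear_combination v * hab

open scoped Classical in
/-- one step of the map -/
theorem step_sum {d : ℤ} (hd : d % 2 = 1) {h : ℤ → ℝ} {H : ℝ} (hH : ∀ x, h x ≤ H)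
    (h0 : ∀ x, 0 ≤ h x) (X : ℝ) (j : ℕ) (v : ℤ) :
    ∃ v₁ v₂ : ℤ, ∑ x ∈ WC X j v, h (Tz d x) ≤ ∑ y ∈ WC (X / 2) j v₁, h y
      + ∑ y ∈ WC (3 * X / 2) (j + 1) v₂, h y + 2 * |(d : ℝ)| * H := by
  obtain ⟨v₁, hv₁⟩ := half_mod j v
  obtain ⟨v₂, hv₂⟩ := half_mod (j + 1) (3 * v + d)
  refine ⟨v₁, v₂, ?_⟩
  have hH0 : 0 ≤ H := (h0 0).trans (hH 0)
  rw [← sum_filter_add_sum_filter_not (WC X j v) (fun x => x % 2 = 0)]
  have c3 : IsCoprime ((3 : ℤ) ^ j) 2 := by
    apply IsCoprime.pow_left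
    exact ⟨1, -1, by norm_num⟩
  have c3' : IsCoprime ((3 : ℤ) ^ (j + 1)) 2 := by
    apply IsCoprime.pow_left
    exact ⟨1, -1, by norm_num⟩
  have e1 : ∑ x ∈ (WC X j v).filter (fun x => x % 2 = 0), h (Tz d x) ≤ ∑ y ∈ WC (X / 2) j v₁, h y := by
    rw [← sum_image (f := h) (g := Tz d) (s := (WC X j v).filter (fun x => x % 2 = 0))]
    · apply sum_le_sum_of_subset_of_nonneg
      · intro y hy
        rw [mem_image] at hy
        obtain ⟨x, hx, rfl⟩ := hy
        rw [mem_filter, mem_WC] at hx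
        have h2 := Tz_even (d := d) hx.2
        have h2R : 2 * ((Tz d x : ℤ) : ℝ) = x := by exact_mod_cast h2
        rw [mem_WC]
        refine ⟨⟨by linarith [hx.1.1.1], by linarith [hx.1.1.2]⟩, ?_⟩
        apply c3.dvd_of_dvd_mul_left
        have : 2 * (Tz d x - v₁) = (x - v) - (2 * v₁ - v) := by linarith
        rw [this]
        exact dvd_sub hx.1.2 hv₁
      · intro y _ _; exact h0 y
    · intro x hx y hy hxy
      have hx' : x % 2 = 0 := (mem_filter.1 hx).2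
      have hy' : y % 2 = 0 := (mem_filter.1 hy).2
      have h1 := Tz_even (d := d) hx'
      have h2 := Tz_even (d := d) hy'
      have hxy' : Tz d x = Tz d y := hxy
      rw [← h1, ← h2, hxy']
  set Ex : Finset ℤ := Ico ⌈3 * X⌉ (⌈3 * X⌉ + |d|) ∪ Ico (⌈3 * X / 2⌉ - |d|) ⌈3 * X / 2⌉ with hEx
  have hExc : ((Ex.card : ℕ) : ℝ) ≤ 2 * |(d : ℝ)| := by
    have h1 : Ex.card ≤ |d|.toNat + |d|.toNat := by
      rw [hEx]
      refine (card_union_le _ _).trans ?_
      rw [Int.card_Ico, Int.card_Ico]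
      apply Nat.add_le_add
      · apply le_of_eq; congr 1; ring
      · apply le_of_eq; congr 1; ring
    have h2 : ((|d|.toNat : ℕ) : ℝ) = |(d : ℝ)| := by
      have : ((|d|.toNat : ℕ) : ℤ) = |d| := Int.toNat_of_nonneg (abs_nonneg d)
      have h3 : (((|d|.toNat : ℕ) : ℤ) : ℝ) = ((|d| : ℤ) : ℝ) := by rw [this]
      rw [Int.cast_natCast] at h3
      rw [h3, Int.cast_abs]
    have h3 : ((Ex.card : ℕ) : ℝ) ≤ ((|d|.toNat + |d|.toNat : ℕ) : ℝ) := by exact_mod_cast h1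
    rw [Nat.cast_add, h2] at h3
    linarith
  have hd0 : d ≠ 0 := by rintro rfl; norm_num at hd
  have hdle : (d : ℝ) ≤ |(d : ℝ)| := le_abs_self _
  have hdge : -|(d : ℝ)| ≤ (d : ℝ) := neg_abs_le _
  have hdpos : (1 : ℝ) ≤ |(d : ℝ)| := by
    have : (1 : ℤ) ≤ |d| := Int.one_le_abs hd0
    have h2 : ((1 : ℤ) : ℝ) ≤ ((|d| : ℤ) : ℝ) := by exact_mod_cast this
    rwa [Int.cast_abs, Int.cast_one] at h2
  have e2 : ∑ x ∈ (WC X j v).filter (fun x => ¬ x % 2 = 0), h (Tz d x)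
      ≤ ∑ y ∈ WC (3 * X / 2) (j + 1) v₂, h y + 2 * |(d : ℝ)| * H := by
    rw [← sum_image (f := h) (g := Tz d) (s := (WC X j v).filter (fun x => ¬ x % 2 = 0))]
    · have hsub : ((WC X j v).filter (fun x => ¬ x % 2 = 0)).image (Tz d)
          ⊆ WC (3 * X / 2) (j + 1) v₂ ∪ Ex := by
        intro y hy
        rw [mem_image] at hy
        obtain ⟨x, hx, rfl⟩ := hy
        rw [mem_filter, mem_WC] at hx
        have h2 := Tz_odd hd hx.2
        have h2R : 2 * ((Tz d x : ℤ) : ℝ) = 3 * x + d := by exact_mod_cast h2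
        rw [mem_union]
        by_cases hlo : 3 * X / 2 ≤ ((Tz d x : ℤ) : ℝ)
        · by_cases hhi : ((Tz d x : ℤ) : ℝ) < 3 * X
          · left
            rw [mem_WC]
            refine ⟨⟨hlo, by linarith⟩, ?_⟩
            apply c3'.dvd_of_dvd_mul_left
            have : 2 * (Tz d x - v₂) = 3 * (x - v) - (2 * v₂ - (3 * v + d)) := by linarith
            rw [this]
            apply dvd_sub _ hv₂
            rw [pow_succ, mul_comm]
            exact mul_dvd_mul_left 3 hx.1.2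
          · right
            push Not at hhi
            rw [hEx, mem_union, Finset.mem_Ico, Finset.mem_Ico]
            left
            refine ⟨Int.ceil_le.2 hhi, ?_⟩
            have h3 : ((Tz d x : ℤ) : ℝ) < ((⌈3 * X⌉ + |d| : ℤ) : ℝ) := by
              push_cast
              have := Int.le_ceil (3 * X)
              linarith [hx.1.1.2]
            exact_mod_cast h3
        · right
          push Not at hlo
          rw [hEx, mem_union, Finset.mem_Ico, Finset.mem_Ico]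
          right
          refine ⟨?_, Int.lt_ceil.2 hlo⟩
          have h3 : (((⌈3 * X / 2⌉ - |d| : ℤ) : ℤ) : ℝ) - 1 < ((Tz d x : ℤ) : ℝ) := by
            push_cast
            have := Int.ceil_lt_add_one (3 * X / 2)
            linarith [hx.1.1.1]
          have h4 : (⌈3 * X / 2⌉ - |d| : ℤ) - 1 < Tz d x := by exact_mod_cast h3
          linarith
      have h5 : ∑ y ∈ ((WC X j v).filter (fun x => ¬ x % 2 = 0)).image (Tz d), h y
          ≤ ∑ y ∈ WC (3 * X / 2) (j + 1) v₂ ∪ Ex, h y :=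
        sum_le_sum_of_subset_of_nonneg hsub fun y _ _ => h0 y
      have h6 := sum_union_inter (s₁ := WC (3 * X / 2) (j + 1) v₂) (s₂ := Ex) (f := h)
      have h7 : 0 ≤ ∑ y ∈ WC (3 * X / 2) (j + 1) v₂ ∩ Ex, h y := sum_nonneg fun y _ => h0 y
      have h8 : ∑ y ∈ Ex, h y ≤ 2 * |(d : ℝ)| * H := by
        calc ∑ y ∈ Ex, h y ≤ ∑ _y ∈ Ex, H := sum_le_sum fun y _ => hH y
          _ = (Ex.card : ℝ) * H := by rw [sum_const, nsmul_eq_mul]
          _ ≤ _ := mul_le_mul_of_nonneg_right hExc hH0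
      linarith
    · intro x hx y hy hxy
      have hx' : x % 2 ≠ 0 := (mem_filter.1 hx).2
      have hy' : y % 2 ≠ 0 := (mem_filter.1 hy).2
      have h1 := Tz_odd hd hx'
      have h2 := Tz_odd hd hy'
      have hxy' : Tz d x = Tz d y := hxy
      rw [hxy', h2] at h1
      omega
  linarith

open scoped Classical in
/-- weighted number of visits to `A₀` before the first value below `z` -/
noncomputable def fv (d : ℤ) (A₀ : Set ℤ) (z : ℝ) : ℕ → ℤ → ℝ
  | 0, _ => 0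
  | K + 1, x => if z ≤ (x : ℝ) then (if x ∈ A₀ then 1 else 0) + 101 / 100 * fv d A₀ z K (Tz d x)
      else 0

/-- weighted number of visits to `A₀` after the first value below `2z` and before the first value
below `z` -/
noncomputable def gv (d : ℤ) (A₀ : Set ℤ) (z : ℝ) : ℕ → ℤ → ℝ
  | 0, _ => 0
  | K + 1, x => if (x : ℝ) < 2 * z then fv d A₀ z (K + 1) x else gv d A₀ z K (Tz d x)

theorem fv_nonneg (d : ℤ) (A₀ : Set ℤ) (z : ℝ) : ∀ (K : ℕ) (x : ℤ), 0 ≤ fv d A₀ z K x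
  | 0, _ => le_refl _
  | K + 1, x => by
    have ih := fv_nonneg d A₀ z K (Tz d x)
    unfold fv
    split_ifs <;> linarith

theorem fv_le (d : ℤ) (A₀ : Set ℤ) (z : ℝ) : ∀ (K : ℕ) (x : ℤ), fv d A₀ z K x ≤ 2 ^ K - 1
  | 0, _ => by unfold fv; norm_num
  | K + 1, x => by
    have ih := fv_le d A₀ z K (Tz d x)
    have h1 : (1 : ℝ) ≤ 2 ^ K := one_le_pow₀ (by norm_num)
    unfold fv
    rw [pow_succ]
    split_ifs <;> linarith

theorem gv_nonneg (d : ℤ) (A₀ : Set ℤ) (z : ℝ) : ∀ (K : ℕ) (x : ℤ), 0 ≤ gv d A₀ z K x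
  | 0, _ => le_refl _
  | K + 1, x => by
    have ih := gv_nonneg d A₀ z K (Tz d x)
    unfold gv
    split_ifs
    · exact fv_nonneg _ _ _ _ _
    · exact ih

theorem gv_le_fv (d : ℤ) (A₀ : Set ℤ) {z : ℝ} (hz : 0 ≤ z) : ∀ (K : ℕ) (x : ℤ),
    gv d A₀ z K x ≤ fv d A₀ z K x
  | 0, _ => le_refl _
  | K + 1, x => by
    have ih := gv_le_fv d A₀ hz K (Tz d x)
    unfold gv
    split_ifs with h1
    · exact le_refl _
    · have h2 := fv_nonneg d A₀ z K (Tz d x)
      have h3 : z ≤ (x : ℝ) := by linarith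
      rw [fv, if_pos h3]
      split_ifs <;> linarith

theorem fv_ge {d : ℤ} {A₀ : Set ℤ} {z : ℝ} : ∀ (k K : ℕ) (x : ℤ), k < K → (Tz d)^[k] x ∈ A₀ →
    (∀ i ≤ k, z ≤ (((Tz d)^[i] x : ℤ) : ℝ)) → (101 / 100 : ℝ) ^ k ≤ fv d A₀ z K x
  | 0, K, x, hK, h1, h2 => by
    obtain ⟨K', rfl⟩ : ∃ K', K = K' + 1 := ⟨K - 1, by omega⟩
    have h3 := h2 0 le_rfl
    rw [Function.iterate_zero, id] at h3 h1
    have h4 := fv_nonneg d A₀ z K' (Tz d x)
    rw [fv, if_pos h3, if_pos h1]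
    linarith
  | k + 1, K, x, hK, h1, h2 => by
    obtain ⟨K', rfl⟩ : ∃ K', K = K' + 1 := ⟨K - 1, by omega⟩
    have h3 := h2 0 (by omega)
    rw [Function.iterate_zero, id] at h3
    rw [Function.iterate_succ_apply] at h1
    have ih := fv_ge k K' (Tz d x) (by omega) h1 (fun i hi => by
      have := h2 (i + 1) (by omega)
      rwa [Function.iterate_succ_apply] at this)
    rw [fv, if_pos h3, pow_succ]
    split_ifs <;> linarith

theorem gv_ge {d : ℤ} {A₀ : Set ℤ} {z : ℝ} (h : ℕ) : ∀ (j₀ k K : ℕ) (x : ℤ), k < K → j₀ + h ≤ k →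
    (Tz d)^[k] x ∈ A₀ → (∀ i ≤ k, z ≤ (((Tz d)^[i] x : ℤ) : ℝ)) →
    (((Tz d)^[j₀] x : ℤ) : ℝ) < 2 * z → (101 / 100 : ℝ) ^ h ≤ gv d A₀ z K x
  | j₀, k, K, x, hK, hjk, h1, h2, h3 => by
    obtain ⟨K', rfl⟩ : ∃ K', K = K' + 1 := ⟨K - 1, by omega⟩
    by_cases hx : (x : ℝ) < 2 * z
    · rw [gv, if_pos hx]
      refine le_trans ?_ (fv_ge k (K' + 1) x hK h1 h2)
      exact pow_le_pow_right₀ (by norm_num) (by omega)
    · have hj0 : j₀ ≠ 0 := by
        rintro rfl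
        exact hx h3
      obtain ⟨j', rfl⟩ : ∃ j', j₀ = j' + 1 := ⟨j₀ - 1, by omega⟩
      obtain ⟨k', rfl⟩ : ∃ k', k = k' + 1 := ⟨k - 1, by omega⟩
      rw [gv, if_neg hx]
      rw [Function.iterate_succ_apply] at h1 h3
      exact gv_ge h j' k' K' (Tz d x) (by omega) (by omega) h1 (fun i hi => by
        have := h2 (i + 1) (by omega)
        rwa [Function.iterate_succ_apply] at this) h3

open scoped Classical in
/-- `A₀` is regular above `z`: it has at most the proportion `φ` of every class modulo `3^j`, `j ≤ M`,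
in every dyadic interval -/
def Rg (A₀ : Set ℤ) (z : ℝ) (M : ℕ) (φ : ℝ) : Prop :=
  ∀ X : ℝ, 0 < X → ∀ j ≤ M, ∀ v : ℤ,
    (((WC X j v).filter (fun x : ℤ => z ≤ (x : ℝ) ∧ x ∈ A₀)).card : ℝ) ≤ φ * (X / 3 ^ j)

theorem sqrt_half : Real.sqrt (1 / 2) ≤ 0.70711 := by
  rw [Real.sqrt_le_left (by norm_num)]; norm_num

theorem sqrt_three_half : Real.sqrt (3 / 2) ≤ 1.22475 := by
  rw [Real.sqrt_le_left (by norm_num)]; norm_num

open scoped Classical in
theorem fv_sum {d : ℤ} (hd : d % 2 = 1) {A₀ : Set ℤ} {z : ℝ} (hz : 0 < z) {M : ℕ} {φ : ℝ}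
    (hφ : 0 ≤ φ) (hR : Rg A₀ z M φ) : ∀ (K : ℕ) (X : ℝ), 0 < X → ∀ (j : ℕ) (v : ℤ), j + K ≤ M + 1 →
      ∑ x ∈ WC X j v, fv d A₀ z K x ≤ 50 * φ * (X / 3 ^ j) * Real.sqrt (2 * X / z) + 5 ^ K * |(d : ℝ)|
  | 0, X, hX, j, v, _ => by
    have : ∑ x ∈ WC X j v, fv d A₀ z 0 x = 0 := sum_eq_zero fun x _ => rfl
    rw [this]
    positivity
  | K + 1, X, hX, j, v, hM => by
    have hd0 : 0 ≤ |(d : ℝ)| := abs_nonneg _
    rcases le_or_gt (2 * X) z with hc | hc
    · have : ∑ x ∈ WC X j v, fv d A₀ z (K + 1) x = 0 := by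
        apply sum_eq_zero
        intro x hx
        rw [mem_WC] at hx
        rw [fv, if_neg]
        push Not
        linarith [hx.1.2]
      rw [this]
      positivity
    · obtain ⟨v₁, v₂, hs⟩ := step_sum hd (h := fv d A₀ z K) (H := 2 ^ K) (fun x => by
        have := fv_le d A₀ z K x
        linarith) (fv_nonneg d A₀ z K) X j v
      have h1 := fv_sum hd hz hφ hR K (X / 2) (by positivity) j v₁ (by omega)
      have h2 := fv_sum hd hz hφ hR K (3 * X / 2) (by positivity) (j + 1) v₂ (by omega)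
      have h3 := hR X hX j (by omega) v
      set q := Real.sqrt (2 * X / z) with hq
      have hq1 : 1 ≤ q := by
        rw [hq]
        apply Real.le_sqrt_of_sq_le
        rw [le_div_iff₀ hz]; linarith
      have q1 : Real.sqrt (2 * (X / 2) / z) = q * Real.sqrt (1 / 2) := by
        rw [hq, ← Real.sqrt_mul (by positivity)]
        congr 1; ring
      have q2 : Real.sqrt (2 * (3 * X / 2) / z) = q * Real.sqrt (3 / 2) := by
        rw [hq, ← Real.sqrt_mul (by positivity)]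
        congr 1; ring
      rw [q1] at h1
      rw [q2] at h2
      have hle : ∑ x ∈ WC X j v, fv d A₀ z (K + 1) x
          ≤ ∑ x ∈ WC X j v, ((if z ≤ (x : ℝ) ∧ x ∈ A₀ then (1 : ℝ) else 0)
            + 101 / 100 * fv d A₀ z K (Tz d x)) := by
        apply sum_le_sum
        intro x _
        have h4 := fv_nonneg d A₀ z K (Tz d x)
        rw [fv]
        by_cases hzx : z ≤ (x : ℝ)
        · rw [if_pos hzx]
          by_cases hxA : x ∈ A₀
          · rw [if_pos hxA, if_pos ⟨hzx, hxA⟩]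
          · rw [if_neg hxA, if_neg (fun h => hxA h.2)]
        · rw [if_neg hzx, if_neg (fun h => hzx h.1)]
          linarith
      rw [sum_add_distrib, ← mul_sum] at hle
      have hcard : ∑ x ∈ WC X j v, (if z ≤ (x : ℝ) ∧ x ∈ A₀ then (1 : ℝ) else 0)
          = (((WC X j v).filter (fun x : ℤ => z ≤ (x : ℝ) ∧ x ∈ A₀)).card : ℝ) := by
        rw [card_filter]; push_cast; rfl
      rw [hcard] at hle
      have hp : (3 : ℝ) ^ (j + 1) = 3 ^ j * 3 := pow_succ _ _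
      set Y := X / 3 ^ j with hY
      have hY0 : 0 < Y := by positivity
      have y1 : X / 2 / 3 ^ j = Y / 2 := by rw [hY]; ring
      have y2 : 3 * X / 2 / 3 ^ (j + 1) = Y / 2 := by rw [hY, hp]; field_simp
      rw [y1] at h1
      rw [y2] at h2
      have s1 := sqrt_half
      have s2 := sqrt_three_half
      have hφY : 0 ≤ φ * Y := by positivity
      have hφYq : 0 ≤ φ * Y * q := by positivity
      have t1 : 50 * φ * (Y / 2) * (q * Real.sqrt (1 / 2)) ≤ 25 * 0.70711 * (φ * Y * q) := by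
        calc 50 * φ * (Y / 2) * (q * Real.sqrt (1 / 2)) = 25 * (φ * Y * q) * Real.sqrt (1 / 2) := by ring
          _ ≤ 25 * (φ * Y * q) * 0.70711 := mul_le_mul_of_nonneg_left s1 (by positivity)
          _ = _ := by ring
      have t2 : 50 * φ * (Y / 2) * (q * Real.sqrt (3 / 2)) ≤ 25 * 1.22475 * (φ * Y * q) := by
        calc 50 * φ * (Y / 2) * (q * Real.sqrt (3 / 2)) = 25 * (φ * Y * q) * Real.sqrt (3 / 2) := by ring
          _ ≤ 25 * (φ * Y * q) * 1.22475 := mul_le_mul_of_nonneg_left s2 (by positivity)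
          _ = _ := by ring
      have t3 : φ * Y ≤ φ * Y * q := le_mul_of_one_le_right hφY hq1
      have hpow : (2 : ℝ) ^ K ≤ 5 ^ K := pow_le_pow_left₀ (by norm_num) (by norm_num) K
      have t4 : |(d : ℝ)| * 2 ^ K ≤ |(d : ℝ)| * 5 ^ K := mul_le_mul_of_nonneg_left hpow hd0
      have t5 : (5 : ℝ) ^ (K + 1) * |(d : ℝ)| = 5 * (5 ^ K * |(d : ℝ)|) := by rw [pow_succ]; ring
      have t6 : 0 ≤ 5 ^ K * |(d : ℝ)| := by positivity
      rw [t5]
      have hgoal : 50 * φ * Y * q = 50 * (φ * Y * q) := by ring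
      rw [hgoal]
      nlinarith

open scoped Classical in
theorem gv_sum {d : ℤ} (hd : d % 2 = 1) {A₀ : Set ℤ} {z : ℝ} (hz : 0 < z) {M : ℕ} {φ : ℝ}
    (hφ : 0 ≤ φ) (hR : Rg A₀ z M φ) : ∀ (K : ℕ) (X : ℝ), 0 < X → ∀ (j : ℕ) (v : ℤ), j + K ≤ M + 1 →
      ∑ x ∈ WC X j v, gv d A₀ z K x ≤ 100 * φ * (X / 3 ^ j) + 5 ^ K * |(d : ℝ)|
  | 0, X, hX, j, v, _ => by
    have : ∑ x ∈ WC X j v, gv d A₀ z 0 x = 0 := sum_eq_zero fun x _ => rfl
    rw [this]
    positivity
  | K + 1, X, hX, j, v, hM => by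
    have hd0 : 0 ≤ |(d : ℝ)| := abs_nonneg _
    rcases le_or_gt (2 * z) X with hc | hc
    · obtain ⟨v₁, v₂, hs⟩ := step_sum hd (h := gv d A₀ z K) (H := 2 ^ K) (fun x => by
        have := (gv_le_fv d A₀ hz.le K x).trans (fv_le d A₀ z K x)
        linarith) (gv_nonneg d A₀ z K) X j v
      have h1 := gv_sum hd hz hφ hR K (X / 2) (by positivity) j v₁ (by omega)
      have h2 := gv_sum hd hz hφ hR K (3 * X / 2) (by positivity) (j + 1) v₂ (by omega)
      have hle : ∑ x ∈ WC X j v, gv d A₀ z (K + 1) x = ∑ x ∈ WC X j v, gv d A₀ z K (Tz d x) := by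
        apply sum_congr rfl
        intro x hx
        rw [mem_WC] at hx
        rw [gv, if_neg]
        push Not
        linarith [hx.1.1]
      rw [hle]
      have hp : (3 : ℝ) ^ (j + 1) = 3 ^ j * 3 := pow_succ _ _
      set Y := X / 3 ^ j with hY
      have y1 : X / 2 / 3 ^ j = Y / 2 := by rw [hY]; ring
      have y2 : 3 * X / 2 / 3 ^ (j + 1) = Y / 2 := by rw [hY, hp]; field_simp
      rw [y1] at h1
      rw [y2] at h2
      have hpow : (2 : ℝ) ^ K ≤ 5 ^ K := pow_le_pow_left₀ (by norm_num) (by norm_num) K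
      have t4 : |(d : ℝ)| * 2 ^ K ≤ |(d : ℝ)| * 5 ^ K := mul_le_mul_of_nonneg_left hpow hd0
      have t5 : (5 : ℝ) ^ (K + 1) * |(d : ℝ)| = 5 * (5 ^ K * |(d : ℝ)|) := by rw [pow_succ]; ring
      have t6 : 0 ≤ 5 ^ K * |(d : ℝ)| := by positivity
      rw [t5]
      nlinarith
    · have h1 := fv_sum hd hz hφ hR (K + 1) X hX j v hM
      have h2 : ∑ x ∈ WC X j v, gv d A₀ z (K + 1) x ≤ ∑ x ∈ WC X j v, fv d A₀ z (K + 1) x :=
        sum_le_sum fun x _ => gv_le_fv d A₀ hz.le (K + 1) x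
      have h3 : Real.sqrt (2 * X / z) ≤ 2 := by
        rw [Real.sqrt_le_left (by norm_num), div_le_iff₀ hz]
        linarith
      have h4 : 50 * φ * (X / 3 ^ j) * Real.sqrt (2 * X / z) ≤ 50 * φ * (X / 3 ^ j) * 2 :=
        mul_le_mul_of_nonneg_left h3 (by positivity)
      linarith

end Pool.Agent.H998_BC
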