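import Pool.Agent.H998_BC.Coll

/-! Visits of trajectories to regular sets, part 7: natural numbers. -/

set_option autoImplicit false

namespace Pool.Agent.H998_BC

open Pool.Agent.R344.TH

/-- The Collatz map. -/
def C (n : ℕ) : ℕ := if n % 2 = 0 then n / 2 else 3 * n + 1

theorem C_cast (n : ℕ) : Cz 1 (n : ℤ) = (C n : ℕ) := by
  unfold Cz C
  by_cases h : n % 2 = 0
  · rw [if_pos (by omega), if_pos h]; push_cast; rfl
  · rw [if_neg (by omega), if_neg h]; push_cast; rfl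

theorem C_iter_cast : ∀ (k n : ℕ), (Cz 1)^[k] (n : ℤ) = (C^[k] n : ℕ)
  | 0, n => rfl
  | k + 1, n => by
    rw [Function.iterate_succ_apply, C_cast, C_iter_cast k, Function.iterate_succ_apply]

/-- The trajectory of `n` visits `A` at least `Q` times before it takes a value below `Y`. -/
def Visits (A : Set ℕ) (Y : ℝ) (Q n : ℕ) : Prop :=
  ∃ s : Finset ℕ, s.card = Q ∧ ∀ k ∈ s, C^[k] n ∈ A ∧ ∀ j ≤ k, Y ≤ ((C^[j] n : ℕ) : ℝ)

/-- For every `X ≥ Y` and every `j ≤ (log X)^ε` at most `φ X * (X / 3^j)` elements of `A` in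
`[X, 2X)` lie in each class modulo `3^j`. -/
def Regular (A : Set ℕ) (ε Y : ℝ) (φ : ℝ → ℝ) : Prop :=
  ∀ X : ℝ, Y ≤ X → ∀ j v : ℕ, (j : ℝ) ≤ (Real.log X) ^ ε →
    (Set.ncard {a : ℕ | a ∈ A ∧ X ≤ (a : ℝ) ∧ (a : ℝ) < 2 * X ∧ a % 3 ^ j = v} : ℝ)
      ≤ φ X * (X / 3 ^ j)

theorem Regular.toZ {A : Set ℕ} {ε Y : ℝ} {φ : ℝ → ℝ} (hY : 0 < Y) (h : Regular A ε Y φ) :
    Rgz ((fun a : ℕ => (a : ℤ)) '' A) ε Y φ := by
  classical
  intro X hX j v hj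
  have hX0 : 0 < X := by linarith
  have h3 : (0 : ℤ) < 3 ^ j := by positivity
  obtain ⟨w, hw⟩ : ∃ w : ℕ, (w : ℤ) = v % 3 ^ j :=
    ⟨(v % 3 ^ j).toNat, Int.toNat_of_nonneg (Int.emod_nonneg _ h3.ne')⟩
  have h1 := h X hX j w hj
  refine le_trans ?_ h1
  have hfin : {a : ℕ | a ∈ A ∧ X ≤ (a : ℝ) ∧ (a : ℝ) < 2 * X ∧ a % 3 ^ j = w}.Finite := by
    apply (Set.finite_Iic ⌊2 * X⌋₊).subset
    intro a ha
    rw [Set.mem_Iic, Nat.le_floor_iff (by linarith)]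
    exact ha.2.2.1.le
  rw [Set.ncard_eq_toFinset_card _ hfin]
  have hsub : (WC X j v).filter (fun x : ℤ => x ∈ (fun a : ℕ => (a : ℤ)) '' A)
      ⊆ hfin.toFinset.image (fun a : ℕ => (a : ℤ)) := by
    intro x hx
    rw [Finset.mem_filter, mem_WC] at hx
    obtain ⟨⟨⟨h1, h2⟩, h4⟩, a, ha, rfl⟩ := hx
    rw [Finset.mem_image]
    refine ⟨a, ?_, rfl⟩
    rw [Set.Finite.mem_toFinset]
    simp only [Int.cast_natCast] at h1 h2
    refine ⟨ha, h1, h2, ?_⟩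
    have h5 : ((a : ℕ) : ℤ) % 3 ^ j = v % 3 ^ j := (Int.modEq_iff_dvd.2 h4).symm
    rw [← hw] at h5
    exact_mod_cast h5
  exact_mod_cast (Finset.card_le_card hsub).trans Finset.card_image_le

open scoped Classical in
/-- the number of visits of Collatz trajectories to regular sets -/
theorem Visits_count {ε : ℝ} (hε : 0 < ε) (B : ℕ) :
    ∃ K : ℝ, 0 < K ∧ ∀ Y : ℝ, 2 ≤ Y → ∀ φ : ℝ → ℝ, AntitoneOn φ (Set.Ici Y) →
      (∀ X, Y ≤ X → 0 ≤ φ X ∧ φ X ≤ 1) → ∀ A : Set ℕ, Regular A ε Y φ →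
      ∀ Q : ℕ, 1 ≤ Q → ∀ N I : ℕ, (N : ℝ) < Y * 2 ^ I →
        (Set.ncard {n : ℕ | 1 ≤ n ∧ n ≤ N ∧ Visits A Y Q n} : ℝ)
          ≤ K * N * ((∑ i ∈ Finset.range I, φ (Y * 2 ^ i)) / Q + 1 / (Real.log Y) ^ B) := by
  obtain ⟨K, hK, h⟩ := VisC_count (d := 1) (by norm_num) isCoprime_one_left hε B
  refine ⟨K, hK, fun Y hY φ hφ hφ01 A hA Q hQ N I hNI => ?_⟩
  have h1 := h Y hY φ hφ hφ01 _ (hA.toZ (by linarith)) Q hQ N I hNI
  refine le_trans ?_ h1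
  have hfin : {n : ℕ | 1 ≤ n ∧ n ≤ N ∧ Visits A Y Q n}.Finite := by
    apply (Set.finite_Iic N).subset
    intro n hn
    exact hn.2.1
  rw [Set.ncard_eq_toFinset_card _ hfin]
  have hle : (hfin.toFinset.image (fun n : ℕ => (n : ℤ))).card
      ≤ ((Finset.Icc (1 : ℤ) N).filter
        (fun x => x ∈ VisC 1 ((fun a : ℕ => (a : ℤ)) '' A) Y Q)).card := by
    apply Finset.card_le_card
    intro x hx
    rw [Finset.mem_image] at hx
    obtain ⟨n, hn, rfl⟩ := hx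
    rw [Set.Finite.mem_toFinset] at hn
    obtain ⟨hn1, hn2, s, hs1, hs2⟩ := hn
    rw [Finset.mem_filter, Finset.mem_Icc]
    refine ⟨⟨by exact_mod_cast hn1, by exact_mod_cast hn2⟩, s, hs1.ge, ?_⟩
    intro k hk
    obtain ⟨h2, h3⟩ := hs2 k hk
    refine ⟨?_, ?_⟩
    · rw [C_iter_cast]; exact ⟨_, h2, rfl⟩
    · intro j hj
      rw [C_iter_cast]
      exact_mod_cast h3 j hj
  rw [Finset.card_image_of_injective _ Nat.cast_injective] at hle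
  exact_mod_cast hle

end Pool.Agent.H998_BC
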