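import Pool.Agent.H998_BC.Avg2
import Pool.Agent.H998_BC.Fin

/-! Pairs of primes on trajectories, on average over the classes modulo `2^t`. -/

set_option autoImplicit false

namespace Pool.Agent.H998_BC

open Finset

open scoped Classical in
/-- primes `p` such that the `t`-th term of the trajectory of `p` is a prime, in one class -/
theorem pair_class2 : ∃ C X₀ : ℝ, 0 < C ∧ 16 ≤ X₀ ∧ ∀ X : ℝ, X₀ ≤ X → ∀ t j r v : ℕ, 1 ≤ t →
    r % 2 = 1 →
    (2 : ℝ) ^ t * 3 ^ j ≤ Real.sqrt X →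
    ((((Finset.range (⌊2 * X⌋₊ + 1)).filter (fun p : ℕ => X ≤ (p : ℝ) ∧ p % 2 ^ t = r ∧ p % 3 ^ j = v ∧
      p.Prime ∧ (Ta^[t] p).Prime)).card : ℕ) : ℝ)
      ≤ C * ((cc t r : ℝ) / Nat.totient (cc t r)) ^ 2 * (X / (2 ^ t * 3 ^ j)) / (Real.log X) ^ 2 := by
  obtain ⟨C₁, hC₁, hsieve⟩ := Erdos456.sieve_two
  refine ⟨128 * C₁, Real.exp 100, by positivity, ?_, ?_⟩
  · linarith [Real.add_one_le_exp (100 : ℝ)]
  intro X hX t j r v ht hrodd hM
  have hlX : 100 ≤ Real.log X := by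
    rw [← Real.log_exp 100]; exact Real.log_le_log (Real.exp_pos _) hX
  have hX101 : 101 ≤ X := by linarith [Real.add_one_le_exp (100 : ℝ)]
  have hX0 : 0 < X := by linarith
  have hlX0 : 0 < Real.log X := by linarith
  have hllX : 0 < Real.log (Real.log X) := Real.log_pos (by linarith)
  set F := (Finset.range (⌊2 * X⌋₊ + 1)).filter (fun p : ℕ => X ≤ (p : ℝ) ∧ p % 2 ^ t = r ∧ p % 3 ^ j = v ∧
      p.Prime ∧ (Ta^[t] p).Prime) with hF
  rcases F.eq_empty_or_nonempty with hFe | ⟨p₀, hp₀⟩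
  · rw [hFe, card_empty, Nat.cast_zero]
    positivity
  rw [hF, mem_filter, mem_range] at hp₀
  obtain ⟨hp1, hp2, hp3, hp4, hp5, hp6⟩ := hp₀
  have hp₀X : 100 < p₀ := by
    have : (100 : ℝ) < p₀ := by linarith
    exact_mod_cast this
  set M : ℕ := 2 ^ t * 3 ^ j with hMdef
  have hM0 : 0 < M := by positivity
  have hMR : (M : ℝ) ≤ Real.sqrt X := by rw [hMdef]; push_cast; exact hM
  have hsq : Real.sqrt X * Real.sqrt X = X := Real.mul_self_sqrt hX0.le
  have hsX : 10 ≤ Real.sqrt X := by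
    apply Real.le_sqrt_of_sq_le; norm_num; linarith
  have hMX : (M : ℝ) ≤ X / 10 := by nlinarith
  have hcop : Nat.Coprime (2 ^ t) (3 ^ j) := Nat.Coprime.pow _ _ (by norm_num)
  -- the form of the elements
  set b₁ : ℕ := p₀ % M with hb₁
  set s₀ : ℕ := b₁ / 2 ^ t with hs₀
  have hb1t : b₁ % 2 ^ t = r := by
    rw [hb₁, Nat.mod_mod_of_dvd _ (Dvd.intro _ rfl)]; exact hp3
  have hb1 : 2 ^ t * s₀ + r = b₁ := by
    rw [hs₀, ← hb1t]; exact Nat.div_add_mod b₁ (2 ^ t)
  set κ := kap t r with hκ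
  set b₂ : ℕ := 3 ^ κ * s₀ + Ta^[t] r with hb₂
  have hform : ∀ n : ℕ, Ta^[t] (M * n + b₁) = 3 ^ (κ + j) * n + b₂ := by
    intro n
    have e : M * n + b₁ = 2 ^ t * (3 ^ j * n + s₀) + r := by
      rw [← hb1, hMdef]; ring
    rw [e, terras, hb₂, pow_add]; ring
  have hp₀M : p₀ = M * (p₀ / M) + b₁ := (Nat.div_add_mod p₀ M).symm
  have hcc1 : 1 ≤ cc t r := cc_pos ht hrodd
  -- coprimality
  have hc1 : Nat.Coprime M b₁ := by
    have h1 : Nat.Coprime M p₀ := by
      rw [Nat.coprime_comm, Nat.Prime.coprime_iff_not_dvd hp5, hMdef]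
      intro h
      rcases (Nat.Prime.dvd_mul hp5).1 h with h | h
      · have := Nat.le_of_dvd (by norm_num) (hp5.dvd_of_dvd_pow h); omega
      · have := Nat.le_of_dvd (by norm_num) (hp5.dvd_of_dvd_pow h); omega
    rw [hp₀M] at h1
    exact (Nat.coprime_mul_right_add_right _ _ _).1 (by rwa [mul_comm] at h1)
  have hc2 : Nat.Coprime (3 ^ (κ + j)) b₂ := by
    have hq : (3 ^ (κ + j) * (p₀ / M) + b₂).Prime := by
      rw [← hform, ← hp₀M]; exact hp6
    have hq3 : 3 < 3 ^ (κ + j) * (p₀ / M) + b₂ := by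
      rw [← hform, ← hp₀M]
      have h1 := Ta_ge (t := t) p₀
      by_contra hcon
      push Not at hcon
      have h2 : (p₀ : ℝ) ≤ 2 ^ t * 3 := by
        have : p₀ ≤ 2 ^ t * 3 := h1.trans (Nat.mul_le_mul_left _ hcon)
        exact_mod_cast this
      have h3 : (2 : ℝ) ^ t ≤ M := by
        rw [hMdef]; push_cast
        exact le_mul_of_one_le_right (by positivity) (one_le_pow₀ (by norm_num))
      linarith
    have h1 : Nat.Coprime (3 ^ (κ + j)) (3 ^ (κ + j) * (p₀ / M) + b₂) := by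
      rw [Nat.coprime_comm, Nat.Prime.coprime_iff_not_dvd hq]
      intro h
      have := Nat.le_of_dvd (by norm_num) (hq.dvd_of_dvd_pow h); omega
    exact (Nat.coprime_mul_right_add_right _ _ _).1 (by rwa [mul_comm (3 ^ (κ + j)) (p₀ / M)] at h1)
  have hdiff : M * b₂ = 3 ^ (κ + j) * b₁ + 3 ^ j * cc t r := by
    have h1 := cc_eq t r
    rw [← hκ] at h1
    calc M * b₂ = 3 ^ j * (2 ^ t * 3 ^ κ * s₀ + 2 ^ t * Ta^[t] r) := by rw [hMdef, hb₂]; ring
      _ = 3 ^ j * (2 ^ t * 3 ^ κ * s₀ + (3 ^ κ * r + cc t r)) := by rw [h1]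
      _ = 3 ^ (κ + j) * (2 ^ t * s₀ + r) + 3 ^ j * cc t r := by rw [pow_add]; ring
      _ = _ := by rw [hb1]
  have h3cc : 1 ≤ 3 ^ j * cc t r := Nat.one_le_iff_ne_zero.2 (by positivity)
  have hne : M * b₂ ≠ 3 ^ (κ + j) * b₁ := by omega
  -- the number of values of `n`
  obtain ⟨N, hN⟩ : ∃ N : ℕ, N = ⌊2 * X / M⌋₊ := ⟨_, rfl⟩
  have hMR0 : (0 : ℝ) < M := by exact_mod_cast hM0
  have hN1 : (N : ℝ) ≤ 2 * X / M := by rw [hN]; exact Nat.floor_le (by positivity)
  have hN2 : Real.sqrt X ≤ N := by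
    have h1 : 2 * Real.sqrt X ≤ 2 * X / M := by
      rw [le_div_iff₀ hMR0]
      nlinarith [Real.sqrt_nonneg X]
    have h2 : 2 * X / M - 1 ≤ N := by rw [hN]; linarith [Nat.lt_floor_add_one (2 * X / M)]
    linarith
  have hN2' : 2 ≤ N := by
    have : (2 : ℝ) ≤ N := by linarith
    exact_mod_cast this
  have hcard : F.card ≤ ((Finset.Icc 1 N).filter
      (fun n => (M * n + b₁).Prime ∧ (3 ^ (κ + j) * n + b₂).Prime)).card := by
    apply card_le_card_of_injOn (fun p => p / M)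
    · intro p hp
      have hp' : p ∈ F := hp
      rw [hF, mem_filter, mem_range] at hp'
      obtain ⟨g1, g2, g3, g4, g5, g6⟩ := hp'
      have hmod : p % M = b₁ := by
        rw [hb₁]
        have h1 : p ≡ p₀ [MOD 2 ^ t] := by
          show p % 2 ^ t = p₀ % 2 ^ t
          rw [g3, hp3]
        have h2 : p ≡ p₀ [MOD 3 ^ j] := by
          show p % 3 ^ j = p₀ % 3 ^ j
          rw [g4, hp4]
        exact (Nat.modEq_and_modEq_iff_modEq_mul hcop).1 ⟨h1, h2⟩
      have hpM : p = M * (p / M) + b₁ := by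
        rw [← hmod]; exact (Nat.div_add_mod p M).symm
      rw [mem_coe, mem_filter, mem_Icc]
      refine ⟨⟨?_, ?_⟩, ?_, ?_⟩
      · rw [Nat.one_le_div_iff hM0]
        have : (M : ℝ) ≤ p := by linarith
        exact_mod_cast this
      · rw [hN]
        apply Nat.le_floor
        rw [le_div_iff₀ hMR0]
        have h1 : p / M * M ≤ p := Nat.div_mul_le_self _ _
        have h2 : (p : ℝ) ≤ 2 * X := by
          have : p ≤ ⌊2 * X⌋₊ := by omega
          exact (Nat.le_floor_iff (by positivity)).1 this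
        have h3 : (((p / M * M : ℕ)) : ℝ) ≤ p := by exact_mod_cast h1
        push_cast at h3
        linarith
      · show (M * (p / M) + b₁).Prime
        rw [← hpM]; exact g5
      · show (3 ^ (κ + j) * (p / M) + b₂).Prime
        rw [← hform, ← hpM]; exact g6
    · intro p hp q hq hpq
      have hp' : p ∈ F := hp
      have hq' : q ∈ F := hq
      rw [hF, mem_filter] at hp' hq'
      have h1 : p ≡ q [MOD M] := by
        apply (Nat.modEq_and_modEq_iff_modEq_mul hcop).1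
        constructor
        · show p % 2 ^ t = q % 2 ^ t
          rw [hp'.2.2.1, hq'.2.2.1]
        · show p % 3 ^ j = q % 3 ^ j
          rw [hp'.2.2.2.1, hq'.2.2.2.1]
      have h2 : p % M = q % M := h1
      have hpq' : p / M = q / M := hpq
      rw [← Nat.div_add_mod p M, ← Nat.div_add_mod q M, hpq', h2]
  have hs := hsieve M b₁ (3 ^ (κ + j)) b₂ N hM0 (by positivity) hc1 hc2 hne hN2'
  -- the discriminant
  set D : ℕ := M * 3 ^ (κ + j) * (((M * b₂ : ℕ) : ℤ) - ((3 ^ (κ + j) * b₁ : ℕ) : ℤ)).natAbs with hD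
  have hDval : D = M * 3 ^ (κ + j) * (3 ^ j * cc t r) := by
    rw [hD]
    congr 1
    rw [hdiff]
    push_cast
    rw [add_sub_cancel_left]
    exact Int.natAbs_natCast _
  have hD1 : 1 ≤ D := by rw [hDval]; exact Nat.one_le_iff_ne_zero.2 (by positivity)
  set ρ : ℝ := (cc t r : ℝ) / Nat.totient (cc t r) with hρ
  have hρ0 : 0 ≤ ρ := by rw [hρ]; positivity
  have h2pow : ∀ i : ℕ, ((2 ^ i : ℕ) : ℝ) ≤ 2 * Nat.totient (2 ^ i) := by
    intro i
    rcases Nat.eq_zero_or_pos i with rfl | hi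
    · simp
    · rw [Nat.totient_prime_pow Nat.prime_two hi]
      obtain ⟨i', rfl⟩ : ∃ i', i = i' + 1 := ⟨i - 1, by omega⟩
      rw [Nat.add_sub_cancel]
      push_cast
      rw [pow_succ]
      have : (0 : ℝ) < 2 ^ i' := by positivity
      nlinarith
  have h3pow : ∀ i : ℕ, ((3 ^ i : ℕ) : ℝ) ≤ 2 * Nat.totient (3 ^ i) := by
    intro i
    rcases Nat.eq_zero_or_pos i with rfl | hi
    · simp
    · rw [Nat.totient_prime_pow Nat.prime_three hi]
      obtain ⟨i', rfl⟩ : ∃ i', i = i' + 1 := ⟨i - 1, by omega⟩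
      rw [Nat.add_sub_cancel]
      push_cast
      rw [pow_succ]
      have : (0 : ℝ) < 3 ^ i' := by positivity
      nlinarith
  have hratio : (D : ℝ) / (Nat.totient D : ℝ) ≤ 4 * ρ := by
    have hDv : D = 2 ^ t * (3 ^ (j + (κ + j) + j) * cc t r) := by
      rw [hDval, hMdef]; ring
    have h1 : Nat.totient (2 ^ t) * (Nat.totient (3 ^ (j + (κ + j) + j)) * Nat.totient (cc t r))
        ≤ Nat.totient D := by
      rw [hDv]
      exact (Nat.mul_le_mul_left _ (Nat.totient_super_multiplicative _ _)).trans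
        (Nat.totient_super_multiplicative _ _)
    have t2 : (0 : ℝ) < Nat.totient (2 ^ t) := by exact_mod_cast Nat.totient_pos.2 (by positivity)
    have t3 : (0 : ℝ) < Nat.totient (3 ^ (j + (κ + j) + j)) := by
      exact_mod_cast Nat.totient_pos.2 (by positivity)
    have t4 : (0 : ℝ) < Nat.totient (cc t r) := by exact_mod_cast Nat.totient_pos.2 hcc1
    have h5 : ((Nat.totient (2 ^ t) * (Nat.totient (3 ^ (j + (κ + j) + j)) * Nat.totient (cc t r)) : ℕ) : ℝ)
        ≤ Nat.totient D := by exact_mod_cast h1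
    rw [Nat.cast_mul, Nat.cast_mul] at h5
    calc (D : ℝ) / (Nat.totient D : ℝ)
        ≤ (D : ℝ) / ((Nat.totient (2 ^ t) : ℝ) * ((Nat.totient (3 ^ (j + (κ + j) + j)) : ℝ)
            * Nat.totient (cc t r))) := by
          apply div_le_div_of_nonneg_left (Nat.cast_nonneg _) (by positivity) h5
      _ = (((2 ^ t : ℕ) : ℝ) / Nat.totient (2 ^ t)) * ((((3 ^ (j + (κ + j) + j) : ℕ) : ℝ)
            / Nat.totient (3 ^ (j + (κ + j) + j))) * ρ) := by
          rw [hDv, Nat.cast_mul, Nat.cast_mul, hρ]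
          field_simp
      _ ≤ 2 * (2 * ρ) := by
          apply mul_le_mul
          · rw [div_le_iff₀ t2]; exact h2pow t
          · apply mul_le_mul_of_nonneg_right _ hρ0
            rw [div_le_iff₀ t3]; exact h3pow _
          · positivity
          · norm_num
      _ = _ := by ring
  have hratio0 : 0 ≤ (D : ℝ) / (Nat.totient D : ℝ) := by positivity
  have hlogN : Real.log X / 2 ≤ Real.log N := by
    rw [← Real.log_sqrt hX0.le]
    exact Real.log_le_log (by linarith) hN2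
  have hlogN0 : 0 < Real.log N := by linarith
  calc (F.card : ℝ) ≤ (((Finset.Icc 1 N).filter
      (fun n => (M * n + b₁).Prime ∧ (3 ^ (κ + j) * n + b₂).Prime)).card : ℝ) := by exact_mod_cast hcard
    _ ≤ C₁ * ((D : ℝ) / (Nat.totient D : ℝ)) ^ 2 * N / (Real.log N) ^ 2 := hs
    _ ≤ C₁ * (4 * ρ) ^ 2 * (2 * X / M) / (Real.log X / 2) ^ 2 := by
        apply div_le_div₀ (by positivity)
        · apply mul_le_mul _ hN1 (Nat.cast_nonneg _) (by positivity)
          exact mul_le_mul_of_nonneg_left (pow_le_pow_left₀ hratio0 hratio 2) hC₁.le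
        · positivity
        · exact pow_le_pow_left₀ (by positivity) hlogN 2
    _ = _ := by
        have : (M : ℝ) = 2 ^ t * 3 ^ j := by rw [hMdef]; push_cast; ring
        rw [this]
        field_simp
        ring

open scoped Classical in
/-- primes `p` such that the `t`-th term of the trajectory of `p` is a prime, with the right order -/
theorem pair_count2 : ∃ C X₀ : ℝ, 0 < C ∧ 16 ≤ X₀ ∧ ∀ X : ℝ, X₀ ≤ X → ∀ t j v : ℕ, 1 ≤ t →
    (2 : ℝ) ^ t * 3 ^ j ≤ Real.sqrt X →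
    ((((Finset.range (⌊2 * X⌋₊ + 1)).filter (fun p : ℕ => X ≤ (p : ℝ) ∧ p % 3 ^ j = v ∧
      p.Prime ∧ (Ta^[t] p).Prime)).card : ℕ) : ℝ)
      ≤ C * (X / 3 ^ j) / (Real.log X) ^ 2 := by
  obtain ⟨C, X₀, hC, hX₀, h⟩ := pair_class2
  obtain ⟨C', hC', havg⟩ := avg
  refine ⟨C * C', X₀, by positivity, hX₀, fun X hX t j v ht hM => ?_⟩
  have hX0 : 0 < X := by linarith
  have hX16 : 16 ≤ X := hX₀.trans hX
  have hlX : 0 < Real.log X := Real.log_pos (by linarith)
  have hsub : (Finset.range (⌊2 * X⌋₊ + 1)).filter (fun p : ℕ => X ≤ (p : ℝ) ∧ p % 3 ^ j = v ∧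
      p.Prime ∧ (Ta^[t] p).Prime) ⊆ ((range (2 ^ t)).filter (fun r => r % 2 = 1)).biUnion (fun r =>
        (Finset.range (⌊2 * X⌋₊ + 1)).filter (fun p : ℕ => X ≤ (p : ℝ) ∧ p % 2 ^ t = r ∧
          p % 3 ^ j = v ∧ p.Prime ∧ (Ta^[t] p).Prime)) := by
    intro p hp
    rw [mem_filter] at hp
    rw [mem_biUnion]
    refine ⟨p % 2 ^ t, ?_, ?_⟩
    · rw [mem_filter, mem_range]
      refine ⟨Nat.mod_lt _ (by positivity), ?_⟩
      rw [Nat.mod_mod_of_dvd _ (dvd_pow_self 2 (by omega))]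
      rcases hp.2.2.2.1.eq_two_or_odd with h1 | h1
      · exfalso
        have := hp.2.1
        rw [h1] at this
        push_cast at this
        linarith
      · exact h1
    · rw [mem_filter]
      exact ⟨hp.1, hp.2.1, rfl, hp.2.2⟩
  have h1 : ((((Finset.range (⌊2 * X⌋₊ + 1)).filter (fun p : ℕ => X ≤ (p : ℝ) ∧ p % 3 ^ j = v ∧
      p.Prime ∧ (Ta^[t] p).Prime)).card : ℕ) : ℝ)
      ≤ ∑ r ∈ (range (2 ^ t)).filter (fun r => r % 2 = 1),
        ((((Finset.range (⌊2 * X⌋₊ + 1)).filter (fun p : ℕ => X ≤ (p : ℝ) ∧ p % 2 ^ t = r ∧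
          p % 3 ^ j = v ∧ p.Prime ∧ (Ta^[t] p).Prime)).card : ℕ) : ℝ) := by
    exact_mod_cast (card_le_card hsub).trans card_biUnion_le
  refine h1.trans ?_
  calc ∑ r ∈ (range (2 ^ t)).filter (fun r => r % 2 = 1),
        ((((Finset.range (⌊2 * X⌋₊ + 1)).filter (fun p : ℕ => X ≤ (p : ℝ) ∧ p % 2 ^ t = r ∧
          p % 3 ^ j = v ∧ p.Prime ∧ (Ta^[t] p).Prime)).card : ℕ) : ℝ)
      ≤ ∑ r ∈ (range (2 ^ t)).filter (fun r => r % 2 = 1),
        (C * (X / (2 ^ t * 3 ^ j)) / (Real.log X) ^ 2) * ((cc t r : ℝ) / Nat.totient (cc t r)) ^ 2 := by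
        apply sum_le_sum
        intro r hr
        refine (h X hX t j r v ht (mem_filter.1 hr).2 hM).trans (le_of_eq ?_)
        ring
    _ = (C * (X / (2 ^ t * 3 ^ j)) / (Real.log X) ^ 2) * ∑ r ∈ (range (2 ^ t)).filter (fun r => r % 2 = 1),
        ((cc t r : ℝ) / Nat.totient (cc t r)) ^ 2 := by rw [mul_sum]
    _ ≤ (C * (X / (2 ^ t * 3 ^ j)) / (Real.log X) ^ 2) * (C' * 2 ^ t) :=
        mul_le_mul_of_nonneg_left (havg t ht) (by positivity)
    _ = _ := by
        field_simp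

end Pool.Agent.H998_BC
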