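import Pool.Agent.H998_BC.Terras
import Pool.Agent.H998_BC.Nat

/-! Primes on trajectories: regular sets. -/

set_option autoImplicit false

namespace Pool.Agent.H998_BC

open Finset

open scoped Classical in
/-- primes `p` such that the `t`-th term of the trajectory of `p` is a prime -/
theorem pair_count : ∃ C X₀ : ℝ, 0 < C ∧ 16 ≤ X₀ ∧ ∀ X : ℝ, X₀ ≤ X → ∀ t j v : ℕ, 1 ≤ t →
    (2 : ℝ) ^ t * 3 ^ j ≤ Real.sqrt X →
    ((((Finset.range (⌊2 * X⌋₊ + 1)).filter (fun p : ℕ => X ≤ (p : ℝ) ∧ p % 3 ^ j = v ∧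
      p.Prime ∧ (Ta^[t] p).Prime)).card : ℕ) : ℝ)
      ≤ C * (Real.log (Real.log X)) ^ 2 * (X / 3 ^ j) / (Real.log X) ^ 2 := by
  obtain ⟨C, X₀, hC, hX₀, h⟩ := pair_class
  refine ⟨C, X₀, hC, hX₀, fun X hX t j v ht hM => ?_⟩
  have hsub : (Finset.range (⌊2 * X⌋₊ + 1)).filter (fun p : ℕ => X ≤ (p : ℝ) ∧ p % 3 ^ j = v ∧
      p.Prime ∧ (Ta^[t] p).Prime) ⊆ (range (2 ^ t)).biUnion (fun r =>
        (Finset.range (⌊2 * X⌋₊ + 1)).filter (fun p : ℕ => X ≤ (p : ℝ) ∧ p % 2 ^ t = r ∧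
          p % 3 ^ j = v ∧ p.Prime ∧ (Ta^[t] p).Prime)) := by
    intro p hp
    rw [mem_filter] at hp
    rw [mem_biUnion]
    refine ⟨p % 2 ^ t, mem_range.2 (Nat.mod_lt _ (by positivity)), ?_⟩
    rw [mem_filter]
    exact ⟨hp.1, hp.2.1, rfl, hp.2.2⟩
  have h1 : ((((Finset.range (⌊2 * X⌋₊ + 1)).filter (fun p : ℕ => X ≤ (p : ℝ) ∧ p % 3 ^ j = v ∧
      p.Prime ∧ (Ta^[t] p).Prime)).card : ℕ) : ℝ) ≤ ∑ r ∈ range (2 ^ t),
        ((((Finset.range (⌊2 * X⌋₊ + 1)).filter (fun p : ℕ => X ≤ (p : ℝ) ∧ p % 2 ^ t = r ∧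
          p % 3 ^ j = v ∧ p.Prime ∧ (Ta^[t] p).Prime)).card : ℕ) : ℝ) := by
    exact_mod_cast (card_le_card hsub).trans card_biUnion_le
  refine h1.trans ((sum_le_sum fun r _ => h X hX t j r v ht hM).trans ?_)
  rw [sum_const, card_range, nsmul_eq_mul]
  apply le_of_eq
  push_cast
  field_simp

/-- primes with another prime on their trajectory after at most `log p / (log log p)^4` steps -/
def Sgap : Set ℕ := {p : ℕ | p.Prime ∧ ∃ t : ℕ, 1 ≤ t ∧
  (t : ℝ) ≤ Real.log p / (Real.log (Real.log p)) ^ 4 ∧ (Ta^[t] p).Prime}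

theorem log3_le' : Real.log 3 ≤ 1.11 := by
  have h := Real.log_two_lt_d9
  have h3 : Real.log 3 ≤ 8 / 5 * Real.log 2 := Pool.Agent.H499R2.ND.log3_le
  linarith

/-- the regularity of `Sgap` -/
theorem gap_reg : ∃ K X₀ : ℝ, 0 < K ∧ Real.exp 100 ≤ X₀ ∧ Regular Sgap (1 / 2) X₀
    (fun X => K * (1 / (Real.log X * (Real.log (Real.log X)) ^ 2))) := by
  classical
  obtain ⟨C, X₀, hC, hX₀, hpair⟩ := pair_count
  refine ⟨2 * C, max X₀ (Real.exp 100), by positivity, le_max_right _ _, ?_⟩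
  intro X hX j v hj
  have hX1 : X₀ ≤ X := (le_max_left _ _).trans hX
  have hX2 : Real.exp 100 ≤ X := (le_max_right _ _).trans hX
  have hX0 : 0 < X := lt_of_lt_of_le (Real.exp_pos _) hX2
  set L := Real.log X with hL
  have hL100 : 100 ≤ L := by
    rw [hL, ← Real.log_exp 100]; exact Real.log_le_log (Real.exp_pos _) hX2
  have hLexp : Real.exp L = X := Real.exp_log hX0
  set l := Real.log L with hl
  have hl4 : 4 ≤ l := by
    rw [hl, Real.le_log_iff_exp_le (by linarith)]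
    have h1 : Real.exp 4 = Real.exp 1 ^ 4 := by rw [← Real.exp_nat_mul]; norm_num
    rw [h1]
    calc Real.exp 1 ^ 4 ≤ 2.7182818286 ^ 4 := pow_le_pow_left₀ (Real.exp_pos _).le Real.exp_one_lt_d9.le 4
      _ ≤ 100 := by norm_num
      _ ≤ L := hL100
  have hL0 : 0 < L := by linarith
  have hl0 : 0 < l := by linarith
  obtain ⟨H, hH⟩ : ∃ H : ℕ, H = ⌊2 * L / l ^ 4⌋₊ := ⟨_, rfl⟩
  have hH1 : (H : ℝ) ≤ 2 * L / l ^ 4 := by rw [hH]; exact Nat.floor_le (by positivity)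
  have hjL : (j : ℝ) ≤ Real.sqrt L := by rw [Real.sqrt_eq_rpow]; exact hj
  have hmod : ∀ t : ℕ, t ≤ H → (2 : ℝ) ^ t * 3 ^ j ≤ Real.sqrt X := by
    intro t ht
    have e1 : (2 : ℝ) ^ t = Real.exp (t * Real.log 2) := by
      rw [Real.exp_nat_mul, Real.exp_log (by norm_num)]
    have e2 : (3 : ℝ) ^ j = Real.exp (j * Real.log 3) := by
      rw [Real.exp_nat_mul, Real.exp_log (by norm_num)]
    have e3 : Real.sqrt X = Real.exp (L / 2) := by
      rw [← hLexp, Real.sqrt_eq_rpow, ← Real.exp_mul]; congr 1; ring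
    rw [e1, e2, e3, ← Real.exp_add]
    apply Real.exp_le_exp.2
    have h2 := Real.log_two_lt_d9
    have h3 := log3_le'
    have hl256 : (256 : ℝ) ≤ l ^ 4 := by
      calc (256 : ℝ) = 4 ^ 4 := by norm_num
        _ ≤ l ^ 4 := pow_le_pow_left₀ (by norm_num) hl4 4
    have e4 : (t : ℝ) ≤ L / 128 := by
      have : (t : ℝ) ≤ H := by exact_mod_cast ht
      refine this.trans (hH1.trans ?_)
      rw [div_le_div_iff₀ (by positivity) (by norm_num)]
      nlinarith
    have e5 : Real.sqrt L ≤ L / 10 := by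
      rw [Real.sqrt_le_left (by positivity)]
      nlinarith
    have e6 : (t : ℝ) * Real.log 2 ≤ L / 128 * 1 :=
      mul_le_mul e4 (by linarith) (Real.log_nonneg (by norm_num)) (by positivity)
    have e7 : (j : ℝ) * Real.log 3 ≤ L / 10 * 1.11 :=
      mul_le_mul (hjL.trans e5) h3 (Real.log_nonneg (by norm_num)) (by positivity)
    linarith
  have hfin : {a : ℕ | a ∈ Sgap ∧ X ≤ (a : ℝ) ∧ (a : ℝ) < 2 * X ∧ a % 3 ^ j = v}.Finite := by
    apply (Set.finite_Iic ⌊2 * X⌋₊).subset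
    intro a ha
    rw [Set.mem_Iic, Nat.le_floor_iff (by linarith)]
    exact ha.2.2.1.le
  rw [Set.ncard_eq_toFinset_card _ hfin]
  have hsub : hfin.toFinset ⊆ (Finset.Icc 1 H).biUnion (fun t =>
      (Finset.range (⌊2 * X⌋₊ + 1)).filter (fun p : ℕ => X ≤ (p : ℝ) ∧ p % 3 ^ j = v ∧
        p.Prime ∧ (Ta^[t] p).Prime)) := by
    intro p hp
    rw [Set.Finite.mem_toFinset] at hp
    obtain ⟨⟨h1, t, h2, h3, h4⟩, h5, h6, h7⟩ := hp
    have hp0 : (0 : ℝ) < p := by linarith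
    rw [mem_biUnion]
    refine ⟨t, ?_, ?_⟩
    · rw [mem_Icc]
      refine ⟨h2, ?_⟩
      rw [hH]
      apply Nat.le_floor
      refine h3.trans ?_
      have e1 : L ≤ Real.log p := Real.log_le_log hX0 h5
      have e2 : Real.log p ≤ 2 * L := by
        have : Real.log p ≤ Real.log (2 * X) := Real.log_le_log hp0 h6.le
        rw [Real.log_mul (by norm_num) hX0.ne'] at this
        have := Real.log_two_lt_d9
        linarith
      have e3 : l ≤ Real.log (Real.log p) := Real.log_le_log hL0 e1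
      exact div_le_div₀ (by positivity) e2 (by positivity) (pow_le_pow_left₀ hl0.le e3 4)
    · rw [mem_filter, mem_range]
      refine ⟨?_, h5, h7, h1, h4⟩
      have : p ≤ ⌊2 * X⌋₊ := Nat.le_floor h6.le
      omega
  have hcard : (hfin.toFinset.card : ℝ) ≤ ∑ t ∈ Finset.Icc 1 H,
      ((((Finset.range (⌊2 * X⌋₊ + 1)).filter (fun p : ℕ => X ≤ (p : ℝ) ∧ p % 3 ^ j = v ∧
        p.Prime ∧ (Ta^[t] p).Prime)).card : ℕ) : ℝ) := by
    exact_mod_cast (card_le_card hsub).trans card_biUnion_le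
  refine hcard.trans ?_
  show _ ≤ 2 * C * (1 / (L * l ^ 2)) * (X / 3 ^ j)
  calc ∑ t ∈ Finset.Icc 1 H, ((((Finset.range (⌊2 * X⌋₊ + 1)).filter (fun p : ℕ => X ≤ (p : ℝ) ∧
        p % 3 ^ j = v ∧ p.Prime ∧ (Ta^[t] p).Prime)).card : ℕ) : ℝ)
      ≤ ∑ _t ∈ Finset.Icc 1 H, C * l ^ 2 * (X / 3 ^ j) / L ^ 2 := by
        apply sum_le_sum
        intro t ht
        rw [mem_Icc] at ht
        exact hpair X hX1 t j v ht.1 (hmod t ht.2)
    _ = H * (C * l ^ 2 * (X / 3 ^ j) / L ^ 2) := by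
        rw [sum_const, Nat.card_Icc, nsmul_eq_mul, Nat.add_sub_cancel]
    _ ≤ (2 * L / l ^ 4) * (C * l ^ 2 * (X / 3 ^ j) / L ^ 2) := by
        apply mul_le_mul_of_nonneg_right hH1 (by positivity)
    _ = _ := by
        field_simp

/-- the regularity of the set of the primes -/
theorem prime_reg : ∃ K X₀ : ℝ, 0 < K ∧ Real.exp 100 ≤ X₀ ∧ Regular {p : ℕ | p.Prime} (1 / 2) X₀
    (fun X => K * (1 / Real.log X)) := by
  classical
  refine ⟨264, Real.exp 100, by norm_num, le_rfl, ?_⟩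
  intro X hX j v hj
  have hX0 : 0 < X := lt_of_lt_of_le (Real.exp_pos _) hX
  set L := Real.log X with hL
  have hL100 : 100 ≤ L := by
    rw [hL, ← Real.log_exp 100]; exact Real.log_le_log (Real.exp_pos _) hX
  have hLexp : Real.exp L = X := Real.exp_log hX0
  have hL0 : 0 < L := by linarith
  have hjL : (j : ℝ) ≤ Real.sqrt L := by rw [Real.sqrt_eq_rpow]; exact hj
  have hsX : Real.sqrt X = Real.exp (L / 2) := by
    rw [← hLexp, Real.sqrt_eq_rpow, ← Real.exp_mul]; congr 1; ring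
  have h3j : (3 : ℝ) ^ j ≤ Real.sqrt X := by
    have e2 : (3 : ℝ) ^ j = Real.exp (j * Real.log 3) := by
      rw [Real.exp_nat_mul, Real.exp_log (by norm_num)]
    rw [e2, hsX]
    apply Real.exp_le_exp.2
    have h3 := log3_le'
    have e5 : Real.sqrt L ≤ L / 10 := by
      rw [Real.sqrt_le_left (by positivity)]
      nlinarith
    have e7 : (j : ℝ) * Real.log 3 ≤ L / 10 * 1.11 :=
      mul_le_mul (hjL.trans e5) h3 (Real.log_nonneg (by norm_num)) (by positivity)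
    linarith
  have hsq : Real.sqrt X * Real.sqrt X = X := Real.mul_self_sqrt hX0.le
  have hs1 : 4 ≤ Real.sqrt X := by
    rw [hsX]; linarith [Real.add_one_le_exp (L / 2)]
  obtain ⟨N, hN⟩ : ∃ N : ℕ, N = ⌊2 * X / 3 ^ j⌋₊ + 1 := ⟨_, rfl⟩
  have h3j0 : (0 : ℝ) < 3 ^ j := by positivity
  have h2X : 2 * Real.sqrt X ≤ 2 * X / 3 ^ j := by
    rw [le_div_iff₀ h3j0]
    nlinarith [Real.sqrt_nonneg X]
  have hN1 : (N : ℝ) ≤ 3 * (X / 3 ^ j) := by
    have e1 : (⌊2 * X / 3 ^ j⌋₊ : ℝ) ≤ 2 * X / 3 ^ j := Nat.floor_le (by positivity)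
    have e2 : 2 * X / 3 ^ j = 2 * (X / 3 ^ j) := by ring
    rw [hN]; push_cast
    linarith
  have hN2 : Real.sqrt X ≤ N := by
    have : 2 * X / 3 ^ j ≤ N := by rw [hN]; push_cast; exact (Nat.lt_floor_add_one _).le
    linarith
  have hN2' : 2 ≤ N := by
    have : (2 : ℝ) ≤ N := by linarith
    exact_mod_cast this
  have hfin : {a : ℕ | a ∈ {p : ℕ | p.Prime} ∧ X ≤ (a : ℝ) ∧ (a : ℝ) < 2 * X ∧ a % 3 ^ j = v}.Finite := by
    apply (Set.finite_Iic ⌊2 * X⌋₊).subset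
    intro a ha
    rw [Set.mem_Iic, Nat.le_floor_iff (by linarith)]
    exact ha.2.2.1.le
  rw [Set.ncard_eq_toFinset_card _ hfin]
  have hcard : hfin.toFinset.card ≤ ((Finset.range N).filter (fun k => (v + k * 3 ^ j).Prime)).card := by
    apply card_le_card_of_injOn (fun p => p / 3 ^ j)
    · intro p hp
      have hp' : p ∈ hfin.toFinset := hp
      rw [Set.Finite.mem_toFinset] at hp'
      obtain ⟨h1, h2, h3, h4⟩ := hp'
      rw [mem_coe, mem_filter, mem_range]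
      refine ⟨?_, ?_⟩
      · show p / 3 ^ j < N
        have : p / 3 ^ j ≤ ⌊2 * X / 3 ^ j⌋₊ := by
          apply Nat.le_floor
          rw [le_div_iff₀ h3j0]
          have h5 : ((p / 3 ^ j * 3 ^ j : ℕ) : ℝ) ≤ p := by exact_mod_cast Nat.div_mul_le_self _ _
          push_cast at h5
          linarith
        omega
      · show (v + p / 3 ^ j * 3 ^ j).Prime
        have : v + p / 3 ^ j * 3 ^ j = p := by
          rw [← h4, mul_comm]; exact Nat.mod_add_div p (3 ^ j)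
        rw [this]; exact h1
    · intro p hp q hq hpq
      have hp' : p ∈ hfin.toFinset := hp
      have hq' : q ∈ hfin.toFinset := hq
      rw [Set.Finite.mem_toFinset] at hp' hq'
      have h1 : p / 3 ^ j = q / 3 ^ j := hpq
      rw [← Nat.div_add_mod p (3 ^ j), ← Nat.div_add_mod q (3 ^ j), h1, hp'.2.2.2, hq'.2.2.2]
  have hbt := Pool.Agent.TH915.UC.bt_gen v (3 ^ j) N (by positivity) hN2'
  have hratio : ((3 ^ j : ℕ) : ℝ) / (Nat.totient (3 ^ j) : ℝ) ≤ 2 := by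
    rw [div_le_iff₀ (by exact_mod_cast Nat.totient_pos.2 (by positivity))]
    rcases Nat.eq_zero_or_pos j with rfl | hj0
    · simp
    · rw [Nat.totient_prime_pow Nat.prime_three hj0]
      obtain ⟨i, rfl⟩ : ∃ i, j = i + 1 := ⟨j - 1, by omega⟩
      rw [Nat.add_sub_cancel]
      push_cast
      rw [pow_succ]
      have : (0 : ℝ) < 3 ^ i := by positivity
      nlinarith
  have hratio0 : 0 ≤ ((3 ^ j : ℕ) : ℝ) / (Nat.totient (3 ^ j) : ℝ) := by positivity
  have hlogN : L / 2 ≤ Real.log N := by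
    rw [hL, ← Real.log_sqrt hX0.le]
    exact Real.log_le_log (by linarith) hN2
  show _ ≤ 264 * (1 / L) * (X / 3 ^ j)
  calc (hfin.toFinset.card : ℝ)
      ≤ (((Finset.range N).filter (fun k => (v + k * 3 ^ j).Prime)).card : ℝ) := by exact_mod_cast hcard
    _ ≤ 22 * (((3 ^ j : ℕ) : ℝ) / (Nat.totient (3 ^ j) : ℝ)) * N / Real.log N := hbt
    _ ≤ 22 * 2 * (3 * (X / 3 ^ j)) / (L / 2) := by
        apply div_le_div₀ (by positivity)
        · apply mul_le_mul _ hN1 (Nat.cast_nonneg _) (by norm_num)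
          linarith
        · positivity
        · exact hlogN
    _ = _ := by
        field_simp
        ring

/-- the regularity of the primes `p` such that `a p + b` is prime -/
theorem twin_reg (a b : ℕ) (ha : 1 ≤ a) (hb : 1 ≤ b) : ∃ K X₀ : ℝ, 0 < K ∧ Real.exp 100 ≤ X₀ ∧
    Regular {p : ℕ | p.Prime ∧ (a * p + b).Prime} (1 / 2) X₀
      (fun X => K * (1 / (Real.log X) ^ 2)) := by
  classical
  obtain ⟨C₁, hC₁, hsieve⟩ := Erdos456.sieve_two
  set ρ : ℝ := ((a * b : ℕ) : ℝ) / (Nat.totient (a * b) : ℝ) with hρ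
  have hab : 0 < a * b := by positivity
  have hρ0 : 0 < ρ := by
    rw [hρ]
    have : 0 < Nat.totient (a * b) := Nat.totient_pos.2 hab
    positivity
  refine ⟨8 * C₁ * (2 * ρ) ^ 2, Real.exp 100, by positivity, le_rfl, ?_⟩
  intro X hX j v hj
  have hX0 : 0 < X := lt_of_lt_of_le (Real.exp_pos _) hX
  set L := Real.log X with hL
  have hL100 : 100 ≤ L := by
    rw [hL, ← Real.log_exp 100]; exact Real.log_le_log (Real.exp_pos _) hX
  have hLexp : Real.exp L = X := Real.exp_log hX0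
  have hL0 : 0 < L := by linarith
  have hjL : (j : ℝ) ≤ Real.sqrt L := by rw [Real.sqrt_eq_rpow]; exact hj
  have hsX : Real.sqrt X = Real.exp (L / 2) := by
    rw [← hLexp, Real.sqrt_eq_rpow, ← Real.exp_mul]; congr 1; ring
  have h3j : (3 : ℝ) ^ j ≤ Real.sqrt X := by
    have e2 : (3 : ℝ) ^ j = Real.exp (j * Real.log 3) := by
      rw [Real.exp_nat_mul, Real.exp_log (by norm_num)]
    rw [e2, hsX]
    apply Real.exp_le_exp.2
    have h3 := log3_le'
    have e5 : Real.sqrt L ≤ L / 10 := by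
      rw [Real.sqrt_le_left (by positivity)]
      nlinarith
    have e7 : (j : ℝ) * Real.log 3 ≤ L / 10 * 1.11 :=
      mul_le_mul (hjL.trans e5) h3 (Real.log_nonneg (by norm_num)) (by positivity)
    linarith
  have hsq : Real.sqrt X * Real.sqrt X = X := Real.mul_self_sqrt hX0.le
  have hs1 : 10 ≤ Real.sqrt X := by
    rw [hsX]; linarith [Real.add_one_le_exp (L / 2)]
  have h3j0 : (0 : ℝ) < 3 ^ j := by positivity
  have hfin : {p : ℕ | p ∈ {p : ℕ | p.Prime ∧ (a * p + b).Prime} ∧ X ≤ (p : ℝ) ∧ (p : ℝ) < 2 * X ∧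
      p % 3 ^ j = v}.Finite := by
    apply (Set.finite_Iic ⌊2 * X⌋₊).subset
    intro a ha
    rw [Set.mem_Iic, Nat.le_floor_iff (by linarith)]
    exact ha.2.2.1.le
  rw [Set.ncard_eq_toFinset_card _ hfin]
  rcases hfin.toFinset.eq_empty_or_nonempty with hFe | ⟨p₀, hp₀⟩
  · rw [hFe, card_empty, Nat.cast_zero]
    positivity
  rw [Set.Finite.mem_toFinset] at hp₀
  obtain ⟨⟨hp1, hp2⟩, hp3, hp4, hp5⟩ := hp₀
  have hp₀X : 3 < p₀ := by
    have : (3 : ℝ) < p₀ := by nlinarith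
    exact_mod_cast this
  have hp₀M : p₀ = 3 ^ j * (p₀ / 3 ^ j) + v := by
    rw [← hp5]; exact (Nat.div_add_mod p₀ (3 ^ j)).symm
  have hc1 : Nat.Coprime (3 ^ j) v := by
    have h1 : Nat.Coprime (3 ^ j) p₀ := by
      rw [Nat.coprime_comm, Nat.Prime.coprime_iff_not_dvd hp1]
      intro h
      have := Nat.le_of_dvd (by norm_num) (hp1.dvd_of_dvd_pow h); omega
    rw [hp₀M] at h1
    exact (Nat.coprime_mul_right_add_right _ _ _).1 (by rwa [mul_comm] at h1)
  have hform : ∀ n : ℕ, a * (3 ^ j * n + v) + b = a * 3 ^ j * n + (a * v + b) := fun n => by ring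
  have hc2 : Nat.Coprime (a * 3 ^ j) (a * v + b) := by
    have hq3 : 3 < a * p₀ + b := by nlinarith
    have h1 : Nat.Coprime (a * 3 ^ j) (a * p₀ + b) := by
      rw [Nat.coprime_comm, Nat.Prime.coprime_iff_not_dvd hp2]
      intro h
      rcases (Nat.Prime.dvd_mul hp2).1 h with h | h
      · have := Nat.le_of_dvd (by omega) h; nlinarith
      · have := Nat.le_of_dvd (by norm_num) (hp2.dvd_of_dvd_pow h); omega
    rw [hp₀M, hform] at h1
    exact (Nat.coprime_mul_right_add_right _ _ _).1 (by rwa [mul_comm (a * 3 ^ j) (p₀ / 3 ^ j)] at h1)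
  have hne : 3 ^ j * (a * v + b) ≠ a * 3 ^ j * v := by
    have : 3 ^ j * (a * v + b) = a * 3 ^ j * v + 3 ^ j * b := by ring
    have h3 : 0 < 3 ^ j * b := by positivity
    omega
  obtain ⟨N, hN⟩ : ∃ N : ℕ, N = ⌊2 * X / 3 ^ j⌋₊ := ⟨_, rfl⟩
  have h2X : 2 * Real.sqrt X ≤ 2 * X / 3 ^ j := by
    rw [le_div_iff₀ h3j0]
    nlinarith [Real.sqrt_nonneg X]
  have hN1 : (N : ℝ) ≤ 2 * (X / 3 ^ j) := by
    have e1 : (⌊2 * X / 3 ^ j⌋₊ : ℝ) ≤ 2 * X / 3 ^ j := Nat.floor_le (by positivity)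
    have e2 : 2 * X / 3 ^ j = 2 * (X / 3 ^ j) := by ring
    rw [hN]
    linarith
  have hN2 : Real.sqrt X ≤ N := by
    have : 2 * X / 3 ^ j - 1 ≤ N := by rw [hN]; linarith [(Nat.lt_floor_add_one (2 * X / 3 ^ j)).le]
    linarith
  have hN2' : 2 ≤ N := by
    have : (2 : ℝ) ≤ N := by linarith
    exact_mod_cast this
  have hcard : hfin.toFinset.card ≤ ((Finset.Icc 1 N).filter
      (fun n => (3 ^ j * n + v).Prime ∧ (a * 3 ^ j * n + (a * v + b)).Prime)).card := by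
    apply card_le_card_of_injOn (fun p => p / 3 ^ j)
    · intro p hp
      have hp' : p ∈ hfin.toFinset := hp
      rw [Set.Finite.mem_toFinset] at hp'
      obtain ⟨⟨h1, h1'⟩, h2, h3, h4⟩ := hp'
      have hpM : p = 3 ^ j * (p / 3 ^ j) + v := by
        rw [← h4]; exact (Nat.div_add_mod p (3 ^ j)).symm
      rw [mem_coe, mem_filter, mem_Icc]
      refine ⟨⟨?_, ?_⟩, ?_, ?_⟩
      · rw [Nat.one_le_div_iff (by positivity)]
        have : ((3 ^ j : ℕ) : ℝ) ≤ p := by push_cast; nlinarith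
        exact_mod_cast this
      · rw [hN]
        apply Nat.le_floor
        rw [le_div_iff₀ h3j0]
        have h5 : ((p / 3 ^ j * 3 ^ j : ℕ) : ℝ) ≤ p := by exact_mod_cast Nat.div_mul_le_self _ _
        push_cast at h5
        linarith
      · show (3 ^ j * (p / 3 ^ j) + v).Prime
        rw [← hpM]; exact h1
      · show (a * 3 ^ j * (p / 3 ^ j) + (a * v + b)).Prime
        rw [← hform, ← hpM]; exact h1'
    · intro p hp q hq hpq
      have hp' : p ∈ hfin.toFinset := hp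
      have hq' : q ∈ hfin.toFinset := hq
      rw [Set.Finite.mem_toFinset] at hp' hq'
      have h1 : p / 3 ^ j = q / 3 ^ j := hpq
      rw [← Nat.div_add_mod p (3 ^ j), ← Nat.div_add_mod q (3 ^ j), h1, hp'.2.2.2, hq'.2.2.2]
  have hs := hsieve (3 ^ j) v (a * 3 ^ j) (a * v + b) N (by positivity) (by positivity) hc1 hc2 hne hN2'
  set D : ℕ := 3 ^ j * (a * 3 ^ j) * (((3 ^ j * (a * v + b) : ℕ) : ℤ) - ((a * 3 ^ j * v : ℕ) : ℤ)).natAbs
    with hD
  have hDval : D = 3 ^ (3 * j) * (a * b) := by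
    rw [hD]
    have e1 : (((3 ^ j * (a * v + b) : ℕ) : ℤ) - ((a * 3 ^ j * v : ℕ) : ℤ)) = ((3 ^ j * b : ℕ) : ℤ) := by
      push_cast; ring
    rw [e1, Int.natAbs_natCast, show 3 * j = j + j + j by ring, pow_add, pow_add]
    ring
  have hratio : (D : ℝ) / (Nat.totient D : ℝ) ≤ 2 * ρ := by
    have h1 : Nat.totient (3 ^ (3 * j)) * Nat.totient (a * b) ≤ Nat.totient D := by
      rw [hDval]; exact Nat.totient_super_multiplicative _ _
    have h2 : (0 : ℝ) < Nat.totient (a * b) := by exact_mod_cast Nat.totient_pos.2 hab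
    have h3 : (0 : ℝ) < Nat.totient (3 ^ (3 * j)) := by exact_mod_cast Nat.totient_pos.2 (by positivity)
    have h4 : ((3 ^ (3 * j) : ℕ) : ℝ) ≤ 2 * Nat.totient (3 ^ (3 * j)) := by
      rcases Nat.eq_zero_or_pos (3 * j) with h0 | hj0
      · rw [h0]; simp
      · rw [Nat.totient_prime_pow Nat.prime_three hj0]
        obtain ⟨i, hi⟩ : ∃ i, 3 * j = i + 1 := ⟨3 * j - 1, by omega⟩
        rw [hi, Nat.add_sub_cancel]
        push_cast
        rw [pow_succ]
        have : (0 : ℝ) < 3 ^ i := by positivity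
        nlinarith
    have h5 : ((Nat.totient (3 ^ (3 * j)) * Nat.totient (a * b) : ℕ) : ℝ) ≤ Nat.totient D := by
      exact_mod_cast h1
    push_cast at h5
    calc (D : ℝ) / (Nat.totient D : ℝ)
        ≤ (D : ℝ) / ((Nat.totient (3 ^ (3 * j)) : ℝ) * Nat.totient (a * b)) := by
          apply div_le_div_of_nonneg_left (Nat.cast_nonneg _) (by positivity) h5
      _ = (((3 ^ (3 * j) : ℕ) : ℝ) / Nat.totient (3 ^ (3 * j))) * ρ := by
          rw [hDval, hρ]
          push_cast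
          field_simp
      _ ≤ 2 * ρ := by
          apply mul_le_mul_of_nonneg_right _ hρ0.le
          rw [div_le_iff₀ h3]; exact h4
  have hratio0 : 0 ≤ (D : ℝ) / (Nat.totient D : ℝ) := by positivity
  have hlogN : L / 2 ≤ Real.log N := by
    rw [hL, ← Real.log_sqrt hX0.le]
    exact Real.log_le_log (by linarith) hN2
  show _ ≤ 8 * C₁ * (2 * ρ) ^ 2 * (1 / L ^ 2) * (X / 3 ^ j)
  calc (hfin.toFinset.card : ℝ)
      ≤ (((Finset.Icc 1 N).filter
      (fun n => (3 ^ j * n + v).Prime ∧ (a * 3 ^ j * n + (a * v + b)).Prime)).card : ℝ) := by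
        exact_mod_cast hcard
    _ ≤ C₁ * ((D : ℝ) / (Nat.totient D : ℝ)) ^ 2 * N / (Real.log N) ^ 2 := hs
    _ ≤ C₁ * (2 * ρ) ^ 2 * (2 * (X / 3 ^ j)) / (L / 2) ^ 2 := by
        apply div_le_div₀ (by positivity)
        · apply mul_le_mul _ hN1 (Nat.cast_nonneg _) (by positivity)
          exact mul_le_mul_of_nonneg_left (pow_le_pow_left₀ hratio0 hratio 2) hC₁.le
        · positivity
        · exact pow_le_pow_left₀ (by positivity) hlogN 2
    _ = _ := by
        field_simp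
        ring

end Pool.Agent.H998_BC
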