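import Pool.Agent.H998_BC.Tot
import Pool.Agent.Erdos456.Sieve
import Pool.Agent.TH915.UC.BT

/-! The accelerated map on a class modulo `2^t`, and primes on trajectories. -/

set_option autoImplicit false

namespace Pool.Agent.H998_BC

open Finset

/-- the accelerated Collatz map -/
def Ta (n : ℕ) : ℕ := if n % 2 = 0 then n / 2 else (3 * n + 1) / 2

/-- the number of odd terms -/
def kap : ℕ → ℕ → ℕ
  | 0, _ => 0
  | t + 1, r => kap t (Ta r) + r % 2

/-- the remainder -/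
def cc : ℕ → ℕ → ℕ
  | 0, _ => 0
  | t + 1, r => 2 * cc t (Ta r) + (if r % 2 = 0 then 0 else 3 ^ kap t (Ta r))

theorem Ta_even {n : ℕ} (h : n % 2 = 0) : 2 * Ta n = n := by
  unfold Ta; rw [if_pos h]; omega

theorem Ta_odd {n : ℕ} (h : n % 2 ≠ 0) : 2 * Ta n = 3 * n + 1 := by
  unfold Ta; rw [if_neg h]; omega

theorem terras : ∀ t r s : ℕ, Ta^[t] (2 ^ t * s + r) = 3 ^ kap t r * s + Ta^[t] r
  | 0, r, s => by simp [kap]
  | t + 1, r, s => by
    rw [Function.iterate_succ_apply, Function.iterate_succ_apply]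
    by_cases h : r % 2 = 0
    · have h1 : (2 ^ (t + 1) * s + r) % 2 = 0 := by
        rw [pow_succ]
        have : 2 ^ t * 2 * s = 2 * (2 ^ t * s) := by ring
        omega
      have e1 : Ta (2 ^ (t + 1) * s + r) = 2 ^ t * s + Ta r := by
        have a1 := Ta_even h1
        have a2 := Ta_even h
        rw [pow_succ] at a1 ⊢
        have : 2 ^ t * 2 * s = 2 * (2 ^ t * s) := by ring
        omega
      rw [e1, terras t]
      simp only [kap, h, add_zero]
    · have h1 : (2 ^ (t + 1) * s + r) % 2 ≠ 0 := by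
        rw [pow_succ]
        have : 2 ^ t * 2 * s = 2 * (2 ^ t * s) := by ring
        omega
      have e1 : Ta (2 ^ (t + 1) * s + r) = 2 ^ t * (3 * s) + Ta r := by
        have a1 := Ta_odd h1
        have a2 := Ta_odd h
        rw [pow_succ] at a1 ⊢
        have : 2 ^ t * 2 * s = 2 * (2 ^ t * s) := by ring
        have h3 : 2 ^ t * (3 * s) = 3 * (2 ^ t * s) := by ring
        omega
      rw [e1, terras t]
      have h2 : r % 2 = 1 := by omega
      simp only [kap, h2, pow_succ]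
      ring

theorem cc_eq : ∀ t r : ℕ, 2 ^ t * Ta^[t] r = 3 ^ kap t r * r + cc t r
  | 0, r => by simp [kap, cc]
  | t + 1, r => by
    rw [Function.iterate_succ_apply, pow_succ, mul_comm (2 ^ t) 2, mul_assoc, cc_eq t]
    by_cases h : r % 2 = 0
    · have a := Ta_even h
      simp only [kap, cc, h, if_true, add_zero]
      calc 2 * (3 ^ kap t (Ta r) * Ta r + cc t (Ta r)) = 3 ^ kap t (Ta r) * (2 * Ta r) + 2 * cc t (Ta r) := by
            ring
        _ = _ := by rw [a]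
    · have a := Ta_odd h
      have h2 : r % 2 = 1 := by omega
      simp only [kap, cc, h2, if_neg one_ne_zero, pow_succ]
      calc 2 * (3 ^ kap t (Ta r) * Ta r + cc t (Ta r)) = 3 ^ kap t (Ta r) * (2 * Ta r) + 2 * cc t (Ta r) := by
            ring
        _ = 3 ^ kap t (Ta r) * (3 * r + 1) + 2 * cc t (Ta r) := by rw [a]
        _ = _ := by ring

theorem kap_le : ∀ t r : ℕ, kap t r ≤ t
  | 0, _ => le_refl _
  | t + 1, r => by
    have := kap_le t (Ta r)
    rw [kap]; omega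

theorem cc_le : ∀ t r : ℕ, cc t r + 2 ^ t ≤ 3 ^ t
  | 0, _ => by simp [cc]
  | t + 1, r => by
    have h1 := cc_le t (Ta r)
    have h2 : 3 ^ kap t (Ta r) ≤ 3 ^ t := Nat.pow_le_pow_right (by norm_num) (kap_le _ _)
    rw [cc, pow_succ, pow_succ]
    split_ifs <;> omega

theorem cc_pos {t r : ℕ} (ht : 1 ≤ t) (hr : r % 2 = 1) : 1 ≤ cc t r := by
  obtain ⟨t', rfl⟩ : ∃ t', t = t' + 1 := ⟨t - 1, by omega⟩
  have : 1 ≤ 3 ^ kap t' (Ta r) := Nat.one_le_pow _ _ (by norm_num)
  rw [cc, if_neg (by omega)]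
  omega

theorem Ta_ge {t : ℕ} (r : ℕ) : r ≤ 2 ^ t * Ta^[t] r := by
  rw [cc_eq]
  have : 1 ≤ 3 ^ kap t r := Nat.one_le_pow _ _ (by norm_num)
  nlinarith

open scoped Classical in
/-- primes `p` such that the `t`-th term of the trajectory of `p` is a prime, in one class -/
theorem pair_class : ∃ C X₀ : ℝ, 0 < C ∧ 16 ≤ X₀ ∧ ∀ X : ℝ, X₀ ≤ X → ∀ t j r v : ℕ, 1 ≤ t →
    (2 : ℝ) ^ t * 3 ^ j ≤ Real.sqrt X →
    ((((Finset.range (⌊2 * X⌋₊ + 1)).filter (fun p : ℕ => X ≤ (p : ℝ) ∧ p % 2 ^ t = r ∧ p % 3 ^ j = v ∧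
      p.Prime ∧ (Ta^[t] p).Prime)).card : ℕ) : ℝ)
      ≤ C * (Real.log (Real.log X)) ^ 2 * (X / (2 ^ t * 3 ^ j)) / (Real.log X) ^ 2 := by
  obtain ⟨C₁, hC₁, hsieve⟩ := Erdos456.sieve_two
  obtain ⟨C₂, hC₂, htot⟩ := tot_bound
  refine ⟨32 * C₁ * C₂ ^ 2, Real.exp 100, by positivity, ?_, ?_⟩
  · linarith [Real.add_one_le_exp (100 : ℝ)]
  intro X hX t j r v ht hM
  have hlX : 100 ≤ Real.log X := by
    rw [← Real.log_exp 100]; exact Real.log_le_log (Real.exp_pos _) hX
  have hX101 : 101 ≤ X := by linarith [Real.add_one_le_exp (100 : ℝ)]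
  have hX0 : 0 < X := by linarith
  have hlX0 : 0 < Real.log X := by linarith
  have hllX : 0 < Real.log (Real.log X) := Real.log_pos (by linarith)
  set F := (Finset.range (⌊2 * X⌋₊ + 1)).filter (fun p : ℕ => X ≤ (p : ℝ) ∧ p % 2 ^ t = r ∧ p % 3 ^ j = v ∧
      p.Prime ∧ (Ta^[t] p).Prime) with hF
  rcases F.eq_empty_or_nonempty with hFe | ⟨p₀, hp₀⟩
  · rw [hFe, card_empty, Nat.cast_zero]
    positivity
  rw [hF, mem_filter, mem_range] at hp₀
  obtain ⟨hp1, hp2, hp3, hp4, hp5, hp6⟩ := hp₀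
  have hp₀X : 100 < p₀ := by
    have : (100 : ℝ) < p₀ := by linarith
    exact_mod_cast this
  set M : ℕ := 2 ^ t * 3 ^ j with hMdef
  have hM0 : 0 < M := by positivity
  have hMR : (M : ℝ) ≤ Real.sqrt X := by rw [hMdef]; push_cast; exact hM
  have hsq : Real.sqrt X * Real.sqrt X = X := Real.mul_self_sqrt hX0.le
  have hsX : 10 ≤ Real.sqrt X := by
    apply Real.le_sqrt_of_sq_le; norm_num; linarith
  have hMX : (M : ℝ) ≤ X / 10 := by nlinarith
  have hcop : Nat.Coprime (2 ^ t) (3 ^ j) := Nat.Coprime.pow _ _ (by norm_num)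
  -- the form of the elements
  set b₁ : ℕ := p₀ % M with hb₁
  set s₀ : ℕ := b₁ / 2 ^ t with hs₀
  have hb1t : b₁ % 2 ^ t = r := by
    rw [hb₁, Nat.mod_mod_of_dvd _ (Dvd.intro _ rfl)]; exact hp3
  have hb1 : 2 ^ t * s₀ + r = b₁ := by
    rw [hs₀, ← hb1t]; exact Nat.div_add_mod b₁ (2 ^ t)
  set κ := kap t r with hκ
  set b₂ : ℕ := 3 ^ κ * s₀ + Ta^[t] r with hb₂
  have hform : ∀ n : ℕ, Ta^[t] (M * n + b₁) = 3 ^ (κ + j) * n + b₂ := by
    intro n
    have e : M * n + b₁ = 2 ^ t * (3 ^ j * n + s₀) + r := by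
      rw [← hb1, hMdef]; ring
    rw [e, terras, hb₂, pow_add]; ring
  have hp₀M : p₀ = M * (p₀ / M) + b₁ := (Nat.div_add_mod p₀ M).symm
  have hrodd : r % 2 = 1 := by
    have h1 : p₀ % 2 = 1 := by
      rcases hp5.eq_two_or_odd with h | h
      · omega
      · exact h
    have h2 : 2 ∣ 2 ^ t := dvd_pow_self 2 (by omega)
    rw [← hp3, Nat.mod_mod_of_dvd _ h2]; exact h1
  have hcc1 : 1 ≤ cc t r := cc_pos ht hrodd
  -- coprimality
  have hc1 : Nat.Coprime M b₁ := by
    have h1 : Nat.Coprime M p₀ := by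
      rw [Nat.coprime_comm, Nat.Prime.coprime_iff_not_dvd hp5, hMdef]
      intro h
      rcases (Nat.Prime.dvd_mul hp5).1 h with h | h
      · have := Nat.le_of_dvd (by norm_num) (hp5.dvd_of_dvd_pow h); omega
      · have := Nat.le_of_dvd (by norm_num) (hp5.dvd_of_dvd_pow h); omega
    rw [hp₀M] at h1
    exact (Nat.coprime_mul_right_add_right _ _ _).1 (by rwa [mul_comm] at h1)
  have hc2 : Nat.Coprime (3 ^ (κ + j)) b₂ := by
    have hq : (3 ^ (κ + j) * (p₀ / M) + b₂).Prime := by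
      rw [← hform, ← hp₀M]; exact hp6
    have hq3 : 3 < 3 ^ (κ + j) * (p₀ / M) + b₂ := by
      rw [← hform, ← hp₀M]
      have h1 := Ta_ge (t := t) p₀
      by_contra hcon
      push Not at hcon
      have h2 : (p₀ : ℝ) ≤ 2 ^ t * 3 := by
        have : p₀ ≤ 2 ^ t * 3 := h1.trans (Nat.mul_le_mul_left _ hcon)
        exact_mod_cast this
      have h3 : (2 : ℝ) ^ t ≤ M := by
        rw [hMdef]; push_cast
        exact le_mul_of_one_le_right (by positivity) (one_le_pow₀ (by norm_num))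
      linarith
    have h1 : Nat.Coprime (3 ^ (κ + j)) (3 ^ (κ + j) * (p₀ / M) + b₂) := by
      rw [Nat.coprime_comm, Nat.Prime.coprime_iff_not_dvd hq]
      intro h
      have := Nat.le_of_dvd (by norm_num) (hq.dvd_of_dvd_pow h); omega
    exact (Nat.coprime_mul_right_add_right _ _ _).1 (by rwa [mul_comm (3 ^ (κ + j)) (p₀ / M)] at h1)
  have hdiff : M * b₂ = 3 ^ (κ + j) * b₁ + 3 ^ j * cc t r := by
    have h1 := cc_eq t r
    rw [← hκ] at h1
    calc M * b₂ = 3 ^ j * (2 ^ t * 3 ^ κ * s₀ + 2 ^ t * Ta^[t] r) := by rw [hMdef, hb₂]; ring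
      _ = 3 ^ j * (2 ^ t * 3 ^ κ * s₀ + (3 ^ κ * r + cc t r)) := by rw [h1]
      _ = 3 ^ (κ + j) * (2 ^ t * s₀ + r) + 3 ^ j * cc t r := by rw [pow_add]; ring
      _ = _ := by rw [hb1]
  have h3cc : 1 ≤ 3 ^ j * cc t r := Nat.one_le_iff_ne_zero.2 (by positivity)
  have hne : M * b₂ ≠ 3 ^ (κ + j) * b₁ := by omega
  -- the number of values of `n`
  obtain ⟨N, hN⟩ : ∃ N : ℕ, N = ⌊2 * X / M⌋₊ := ⟨_, rfl⟩
  have hMR0 : (0 : ℝ) < M := by exact_mod_cast hM0
  have hN1 : (N : ℝ) ≤ 2 * X / M := by rw [hN]; exact Nat.floor_le (by positivity)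
  have hN2 : Real.sqrt X ≤ N := by
    have h1 : 2 * Real.sqrt X ≤ 2 * X / M := by
      rw [le_div_iff₀ hMR0]
      nlinarith [Real.sqrt_nonneg X]
    have h2 : 2 * X / M - 1 ≤ N := by rw [hN]; linarith [Nat.lt_floor_add_one (2 * X / M)]
    linarith
  have hN2' : 2 ≤ N := by
    have : (2 : ℝ) ≤ N := by linarith
    exact_mod_cast this
  have hcard : F.card ≤ ((Finset.Icc 1 N).filter
      (fun n => (M * n + b₁).Prime ∧ (3 ^ (κ + j) * n + b₂).Prime)).card := by
    apply card_le_card_of_injOn (fun p => p / M)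
    · intro p hp
      have hp' : p ∈ F := hp
      rw [hF, mem_filter, mem_range] at hp'
      obtain ⟨g1, g2, g3, g4, g5, g6⟩ := hp'
      have hmod : p % M = b₁ := by
        rw [hb₁]
        have h1 : p ≡ p₀ [MOD 2 ^ t] := by
          show p % 2 ^ t = p₀ % 2 ^ t
          rw [g3, hp3]
        have h2 : p ≡ p₀ [MOD 3 ^ j] := by
          show p % 3 ^ j = p₀ % 3 ^ j
          rw [g4, hp4]
        exact (Nat.modEq_and_modEq_iff_modEq_mul hcop).1 ⟨h1, h2⟩
      have hpM : p = M * (p / M) + b₁ := by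
        rw [← hmod]; exact (Nat.div_add_mod p M).symm
      rw [mem_coe, mem_filter, mem_Icc]
      refine ⟨⟨?_, ?_⟩, ?_, ?_⟩
      · rw [Nat.one_le_div_iff hM0]
        have : (M : ℝ) ≤ p := by linarith
        exact_mod_cast this
      · rw [hN]
        apply Nat.le_floor
        rw [le_div_iff₀ hMR0]
        have h1 : p / M * M ≤ p := Nat.div_mul_le_self _ _
        have h2 : (p : ℝ) ≤ 2 * X := by
          have : p ≤ ⌊2 * X⌋₊ := by omega
          exact (Nat.le_floor_iff (by positivity)).1 this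
        have h3 : (((p / M * M : ℕ)) : ℝ) ≤ p := by exact_mod_cast h1
        push_cast at h3
        linarith
      · show (M * (p / M) + b₁).Prime
        rw [← hpM]; exact g5
      · show (3 ^ (κ + j) * (p / M) + b₂).Prime
        rw [← hform, ← hpM]; exact g6
    · intro p hp q hq hpq
      have hp' : p ∈ F := hp
      have hq' : q ∈ F := hq
      rw [hF, mem_filter] at hp' hq'
      have h1 : p ≡ q [MOD M] := by
        apply (Nat.modEq_and_modEq_iff_modEq_mul hcop).1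
        constructor
        · show p % 2 ^ t = q % 2 ^ t
          rw [hp'.2.2.1, hq'.2.2.1]
        · show p % 3 ^ j = q % 3 ^ j
          rw [hp'.2.2.2.1, hq'.2.2.2.1]
      have h2 : p % M = q % M := h1
      have hpq' : p / M = q / M := hpq
      rw [← Nat.div_add_mod p M, ← Nat.div_add_mod q M, hpq', h2]
  have hs := hsieve M b₁ (3 ^ (κ + j)) b₂ N hM0 (by positivity) hc1 hc2 hne hN2'
  -- the discriminant
  set D : ℕ := M * 3 ^ (κ + j) * (((M * b₂ : ℕ) : ℤ) - ((3 ^ (κ + j) * b₁ : ℕ) : ℤ)).natAbs with hD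
  have hDval : D = M * 3 ^ (κ + j) * (3 ^ j * cc t r) := by
    rw [hD]
    congr 1
    rw [hdiff]
    push_cast
    rw [add_sub_cancel_left]
    exact Int.natAbs_natCast _
  have hD1 : 1 ≤ D := by rw [hDval]; exact Nat.one_le_iff_ne_zero.2 (by positivity)
  have hDle : (D : ℝ) ≤ X ^ 8 := by
    have a1 : (2 : ℝ) ^ t ≤ X := by
      have : (2 : ℝ) ^ t ≤ 2 ^ t * 3 ^ j :=
        le_mul_of_one_le_right (by positivity) (one_le_pow₀ (by norm_num))
      nlinarith
    have a2 : (3 : ℝ) ^ j ≤ X := by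
      have : (3 : ℝ) ^ j ≤ 2 ^ t * 3 ^ j :=
        le_mul_of_one_le_left (by positivity) (one_le_pow₀ (by norm_num))
      nlinarith
    have a3 : (3 : ℝ) ^ t ≤ X ^ 2 := by
      calc (3 : ℝ) ^ t ≤ 4 ^ t := pow_le_pow_left₀ (by norm_num) (by norm_num) t
        _ = (2 ^ t) ^ 2 := by rw [← pow_mul, mul_comm, pow_mul]; norm_num
        _ ≤ X ^ 2 := pow_le_pow_left₀ (by positivity) a1 2
    have a4 : (3 : ℝ) ^ κ ≤ X ^ 2 := by
      refine le_trans ?_ a3
      exact pow_le_pow_right₀ (by norm_num) (by rw [hκ]; exact kap_le _ _)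
    have a5 : (cc t r : ℝ) ≤ X ^ 2 := by
      have h1 : cc t r ≤ 3 ^ t := by have := cc_le t r; omega
      have h2 : (cc t r : ℝ) ≤ 3 ^ t := by exact_mod_cast h1
      exact h2.trans a3
    have a6 : (M : ℝ) ≤ X := by linarith
    rw [hDval]
    push_cast
    rw [pow_add]
    calc (M : ℝ) * (3 ^ κ * 3 ^ j) * (3 ^ j * cc t r) ≤ X * (X ^ 2 * X) * (X * X ^ 2) := by
          gcongr
      _ = X ^ 7 := by ring
      _ ≤ X ^ 8 := pow_le_pow_right₀ (by linarith) (by norm_num)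
  have hratio : (D : ℝ) / (Nat.totient D : ℝ) ≤ 2 * C₂ * Real.log (Real.log X) := by
    have h1 := htot D hD1
    have h2 : Real.log D ≤ 8 * Real.log X := by
      have := Real.log_le_log (by exact_mod_cast hD1) hDle
      rwa [Real.log_pow] at this
    have h3 : Real.log D + 4 ≤ (Real.log X) ^ 2 := by nlinarith
    have h0 : 0 ≤ Real.log D := Real.log_nonneg (by exact_mod_cast hD1)
    have h4 : Real.log (Real.log D + 4) ≤ 2 * Real.log (Real.log X) := by
      have := Real.log_le_log (by linarith) h3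
      rwa [Real.log_pow] at this
    calc (D : ℝ) / (Nat.totient D : ℝ) ≤ C₂ * Real.log (Real.log D + 4) := h1
      _ ≤ C₂ * (2 * Real.log (Real.log X)) := mul_le_mul_of_nonneg_left h4 hC₂.le
      _ = _ := by ring
  have hratio0 : 0 ≤ (D : ℝ) / (Nat.totient D : ℝ) := by positivity
  have hlogN : Real.log X / 2 ≤ Real.log N := by
    rw [← Real.log_sqrt hX0.le]
    exact Real.log_le_log (by linarith) hN2
  have hlogN0 : 0 < Real.log N := by linarith
  calc (F.card : ℝ) ≤ (((Finset.Icc 1 N).filter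
      (fun n => (M * n + b₁).Prime ∧ (3 ^ (κ + j) * n + b₂).Prime)).card : ℝ) := by exact_mod_cast hcard
    _ ≤ C₁ * ((D : ℝ) / (Nat.totient D : ℝ)) ^ 2 * N / (Real.log N) ^ 2 := hs
    _ ≤ C₁ * (2 * C₂ * Real.log (Real.log X)) ^ 2 * (2 * X / M) / (Real.log X / 2) ^ 2 := by
        apply div_le_div₀ (by positivity)
        · apply mul_le_mul _ hN1 (Nat.cast_nonneg _) (by positivity)
          exact mul_le_mul_of_nonneg_left (pow_le_pow_left₀ hratio0 hratio 2) hC₁.le
        · positivity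
        · exact pow_le_pow_left₀ (by positivity) hlogN 2
    _ = _ := by
        have : (M : ℝ) = 2 ^ t * 3 ^ j := by rw [hMdef]; push_cast; ring
        rw [this]
        field_simp
        ring

end Pool.Agent.H998_BC
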