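import Pool.Agent.Erdos456.Mertens

/-! `n / φ(n) ≪ log (log n + 4)`. -/

set_option autoImplicit false

namespace Pool.Agent.H998_BC

open Finset

theorem sum_tele (F : Finset ℕ) (hF : ∀ n ∈ F, 2 ≤ n) :
    ∑ n ∈ F, 1 / ((n : ℝ) * (n - 1)) ≤ 1 := by
  obtain ⟨M, hM⟩ : ∃ M : ℕ, ∀ n ∈ F, n < M + 2 :=
    ⟨F.sup id, fun n hn => by have := Finset.le_sup (f := id) hn; simp only [id] at this; omega⟩
  have hsub : F ⊆ ((range M).image (fun i : ℕ => i + 2) : Finset ℕ) := by
    intro n hn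
    rw [mem_image]
    exact ⟨n - 2, by rw [mem_range]; have := hM n hn; have := hF n hn; omega, by have := hF n hn; omega⟩
  have h1 : ∑ n ∈ F, 1 / ((n : ℝ) * (n - 1))
      ≤ ∑ n ∈ ((range M).image (fun i : ℕ => i + 2) : Finset ℕ), 1 / ((n : ℝ) * (n - 1)) := by
    apply sum_le_sum_of_subset_of_nonneg hsub
    intro n hn _
    rw [mem_image] at hn
    obtain ⟨i, _, rfl⟩ := hn
    have : (0 : ℝ) ≤ i := Nat.cast_nonneg i
    push_cast
    have e : (i : ℝ) + 2 - 1 = i + 1 := by ring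
    rw [e]
    positivity
  refine h1.trans ?_
  rw [sum_image (fun a _ b _ h => by simpa using h)]
  have h2 : ∀ i ∈ range M, 1 / (((i + 2 : ℕ) : ℝ) * (((i + 2 : ℕ) : ℝ) - 1))
      = 1 / ((i : ℝ) + 1) - 1 / (((i + 1 : ℕ) : ℝ) + 1) := by
    intro i _
    have : (0 : ℝ) ≤ i := Nat.cast_nonneg i
    push_cast
    have e : (i : ℝ) + 2 - 1 = i + 1 := by ring
    rw [e]
    field_simp
    ring
  rw [sum_congr rfl h2, Finset.sum_range_sub' (fun i : ℕ => 1 / ((i : ℝ) + 1)) M]
  have : 0 ≤ 1 / ((M : ℝ) + 1) := by positivity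
  simp only [Nat.cast_zero, zero_add, div_one]
  linarith

theorem tot_bound : ∃ C : ℝ, 0 < C ∧ ∀ D : ℕ, 1 ≤ D →
    (D : ℝ) / (Nat.totient D : ℝ) ≤ C * Real.log (Real.log D + 4) := by
  obtain ⟨C₁, hC₁⟩ := Erdos456.Mert.mertens_inv
  refine ⟨Real.exp (C₁ + 3), Real.exp_pos _, fun D hD => ?_⟩
  have hD0 : (0 : ℝ) < D := by exact_mod_cast hD
  have hlD : 0 ≤ Real.log D := Real.log_nonneg (by exact_mod_cast hD)
  have h1 : (Nat.totient D : ℝ) = D * ∏ p ∈ D.primeFactors, (1 - (p : ℝ)⁻¹) := by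
    have h0 := Nat.totient_eq_mul_prod_factors D
    have h00 : (((Nat.totient D : ℕ) : ℚ) : ℝ)
        = (((D : ℚ) * ∏ p ∈ D.primeFactors, (1 - (p : ℚ)⁻¹) : ℚ) : ℝ) := by rw [h0]
    push_cast at h00
    exact h00
  have hp2 : ∀ p ∈ D.primeFactors, (2 : ℝ) ≤ p := fun p hp => by
    exact_mod_cast (Nat.prime_of_mem_primeFactors hp).two_le
  have hpos : ∀ p ∈ D.primeFactors, 0 < 1 - (p : ℝ)⁻¹ := by
    intro p hp
    have := hp2 p hp
    rw [sub_pos, inv_lt_one₀ (by linarith)]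
    linarith
  have hprod : (∏ p ∈ D.primeFactors, (1 - (p : ℝ)⁻¹))⁻¹
      ≤ Real.exp (∑ p ∈ D.primeFactors, (1 / (p : ℝ) + 1 / ((p : ℝ) * (p - 1)))) := by
    rw [← prod_inv_distrib, Real.exp_sum]
    apply prod_le_prod
    · intro p hp
      exact (inv_pos.2 (hpos p hp)).le
    · intro p hp
      have h2 := hp2 p hp
      have h3 := Real.add_one_le_exp (1 / (p : ℝ) + 1 / ((p : ℝ) * (p - 1)))
      refine le_trans (le_of_eq ?_) h3
      have h4 : (p : ℝ) - 1 ≠ 0 := by linarith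
      have h5 : (p : ℝ) ≠ 0 := by linarith
      rw [inv_eq_one_div, show 1 - (p : ℝ)⁻¹ = ((p : ℝ) - 1) / p by field_simp]
      field_simp
      ring
  have hquot : (D : ℝ) / (Nat.totient D : ℝ) = (∏ p ∈ D.primeFactors, (1 - (p : ℝ)⁻¹))⁻¹ := by
    rw [h1]
    have : ∏ p ∈ D.primeFactors, (1 - (p : ℝ)⁻¹) ≠ 0 := (prod_pos hpos).ne'
    field_simp
  rw [hquot]
  refine hprod.trans ?_
  -- the sum over the prime factors
  obtain ⟨y, hy⟩ : ∃ y : ℕ, y = ⌈Real.log D⌉₊ + 3 := ⟨_, rfl⟩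
  have hy3 : 3 ≤ y := by omega
  have hy1 : Real.log D + 3 ≤ y := by
    rw [hy]; push_cast; linarith [Nat.le_ceil (Real.log D)]
  have hy2 : (y : ℝ) ≤ Real.log D + 4 := by
    rw [hy]; push_cast; linarith [(Nat.ceil_lt_add_one hlD).le]
  have hyR : (3 : ℝ) ≤ y := by exact_mod_cast hy3
  have hω : (D.primeFactors.card : ℝ) ≤ 2 * Real.log D := by
    have h1 : 2 ^ D.primeFactors.card ≤ D := by
      calc 2 ^ D.primeFactors.card = ∏ _p ∈ D.primeFactors, 2 := by rw [prod_const]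
        _ ≤ ∏ p ∈ D.primeFactors, p :=
            prod_le_prod' fun p hp => (Nat.prime_of_mem_primeFactors hp).two_le
        _ ≤ D := Nat.le_of_dvd hD (Nat.prod_primeFactors_dvd D)
    have h2 : ((2 ^ D.primeFactors.card : ℕ) : ℝ) ≤ D := by exact_mod_cast h1
    have h3 := Real.log_le_log (by positivity) h2
    rw [Nat.cast_pow, Real.log_pow] at h3
    have h4 := Real.log_two_gt_d9
    have h5 : (0 : ℝ) ≤ D.primeFactors.card := Nat.cast_nonneg _
    push_cast at h3
    nlinarith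
  have hM := (abs_le.1 (hC₁ y hy3)).2
  have hsum1 : ∑ p ∈ D.primeFactors, 1 / (p : ℝ) ≤ Real.log (Real.log y) + C₁ + 2 := by
    rw [← sum_filter_add_sum_filter_not D.primeFactors (fun p => p ≤ y)]
    have e1 : ∑ p ∈ D.primeFactors.filter (fun p => p ≤ y), 1 / (p : ℝ)
        ≤ ∑ p ∈ (Finset.Icc 1 y).filter Nat.Prime, (1 : ℝ) / p := by
      apply sum_le_sum_of_subset_of_nonneg
      · intro p hp
        rw [mem_filter] at hp
        rw [mem_filter, mem_Icc]
        have := Nat.prime_of_mem_primeFactors hp.1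
        exact ⟨⟨this.one_le, hp.2⟩, this⟩
      · intro p _ _; positivity
    have e2 : ∑ p ∈ D.primeFactors.filter (fun p => ¬ p ≤ y), 1 / (p : ℝ) ≤ 2 := by
      calc ∑ p ∈ D.primeFactors.filter (fun p => ¬ p ≤ y), 1 / (p : ℝ)
          ≤ ∑ _p ∈ D.primeFactors.filter (fun p => ¬ p ≤ y), 1 / (y : ℝ) := by
            apply sum_le_sum
            intro p hp
            rw [mem_filter] at hp
            apply one_div_le_one_div_of_le (by linarith)
            have : y ≤ p := by omega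
            exact_mod_cast this
        _ = ((D.primeFactors.filter (fun p => ¬ p ≤ y)).card : ℝ) * (1 / y) := by
            rw [sum_const, nsmul_eq_mul]
        _ ≤ (2 * Real.log D) * (1 / y) := by
            apply mul_le_mul_of_nonneg_right _ (by positivity)
            refine le_trans ?_ hω
            exact_mod_cast card_filter_le _ _
        _ ≤ 2 := by
            rw [mul_one_div, div_le_iff₀ (by linarith)]
            linarith
    linarith
  have hsum2 := sum_tele D.primeFactors (fun p hp => (Nat.prime_of_mem_primeFactors hp).two_le)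
  rw [sum_add_distrib]
  have hly : 0 < Real.log y := Real.log_pos (by linarith)
  have hly' : Real.log y ≤ Real.log (Real.log D + 4) := Real.log_le_log (by linarith) hy2
  calc Real.exp (∑ p ∈ D.primeFactors, 1 / (p : ℝ) + ∑ p ∈ D.primeFactors, 1 / ((p : ℝ) * (p - 1)))
      ≤ Real.exp (Real.log (Real.log y) + (C₁ + 3)) := by
        apply Real.exp_le_exp.2
        linarith
    _ = Real.exp (C₁ + 3) * Real.log y := by
        rw [Real.exp_add, Real.exp_log hly, mul_comm]
    _ ≤ _ := mul_le_mul_of_nonneg_left hly' (Real.exp_pos _).le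

end Pool.Agent.H998_BC
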